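import Mathlib
import Pool.Agent.Lib.MP_50b5e1_nt.Defs

/-!
# X/Arith: primes between `2000 k₁` and `8000 k₁`

Proof of `arc_imp`.  `-(m₁/p) - n ∈ (0, 1/8000)`, so `r = -m₁ - n p` is an integer with `0 < r < p/8000 ≤ k₁`, and `p ∣ m₁ + r`, `1 ≤ r ≤ k₁`: `p` divides
`blockProd m₁ k₁ = blockProd m₂ k₂`, hence (`Prime.dvd_finset_prod_iff`) `p ∣ m₂ + j` for some `1 ≤ j ≤ k₂`, `m₂ + j = p c`, and
`|-(m₂/p) - (-c)| = j/p ≤ k₂/p < k₁/(2000 k₁) = 1/2000`.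
-/

namespace Pool.Agent.Lib.MP_50b5e1_nt

theorem arc_imp {m₁ k₁ m₂ k₂ : ℕ} (h : IsSol m₁ k₁ m₂ k₂) (p : ℕ) (hp : p.Prime)
    (hp1 : 2000 * k₁ < p) (hp2 : p ≤ 8000 * k₁)
    (harc : ∃ n : ℤ, (n : ℝ) < -(m₁ / p : ℝ) ∧ -(m₁ / p : ℝ) < n + 1 / 8000) :
    ∃ n : ℤ, |-(m₂ / p : ℝ) - n| ≤ 1 / 2000 := by
  have hp0 : (0 : ℝ) < p := by exact_mod_cast hp.pos
  obtain ⟨n, h1, h2⟩ := harc
  have e1 : (n : ℝ) * p < -(m₁ : ℝ) := by
    have := mul_lt_mul_of_pos_right h1 hp0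
    rwa [neg_mul, div_mul_cancel₀ _ hp0.ne'] at this
  have e2 : -(m₁ : ℝ) * 8000 < (n : ℝ) * p * 8000 + p := by
    have := mul_lt_mul_of_pos_right h2 hp0
    rw [neg_mul, div_mul_cancel₀ _ hp0.ne', add_mul] at this
    linarith
  have f1 : n * p < -(m₁ : ℤ) := by exact_mod_cast e1
  have f2 : -(m₁ : ℤ) * 8000 < n * p * 8000 + p := by exact_mod_cast e2
  obtain ⟨r, hr⟩ : ∃ r : ℕ, (r : ℤ) = -(m₁ : ℤ) - n * p :=
    ⟨(-(m₁ : ℤ) - n * p).toNat, Int.toNat_of_nonneg (by linarith)⟩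
  have hr1 : 1 ≤ r := by
    have : (0 : ℤ) < r := by linarith
    exact_mod_cast this
  have hr2 : r ≤ k₁ := by
    have hp2' : (p : ℤ) ≤ 8000 * k₁ := by exact_mod_cast hp2
    have : (r : ℤ) ≤ k₁ := by linarith
    exact_mod_cast this
  have hdvd : p ∣ m₁ + r := by
    have : (p : ℤ) ∣ ((m₁ + r : ℕ) : ℤ) := by
      refine ⟨-n, ?_⟩
      push_cast
      rw [hr]
      ring
    exact_mod_cast this
  have hd2 : p ∣ blockProd m₂ k₂ := by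
    rw [← h.2.2.2]
    exact hdvd.trans (Finset.dvd_prod_of_mem (fun i => m₁ + i) (Finset.mem_Icc.2 ⟨hr1, hr2⟩))
  unfold blockProd at hd2
  obtain ⟨j, hj, c, hc⟩ := (hp.prime.dvd_finsetProd_iff _).1 hd2
  rw [Finset.mem_Icc] at hj
  refine ⟨-(c : ℤ), ?_⟩
  have hcr : (m₂ : ℝ) + j = p * c := by exact_mod_cast hc
  have e3 : -(m₂ / p : ℝ) - ((-(c : ℤ) : ℤ) : ℝ) = j / p := by
    push_cast
    rw [eq_div_iff hp0.ne']
    have : (m₂ : ℝ) / p * p = m₂ := div_mul_cancel₀ _ hp0.ne'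
    linear_combination (-1 : ℝ) * this - hcr
  rw [e3, abs_of_nonneg (by positivity), div_le_div_iff₀ hp0 (by norm_num)]
  have hjk : j < k₁ := lt_of_le_of_lt hj.2 h.lt
  have h3 : j * 2000 ≤ 1 * p := by omega
  exact_mod_cast h3

end Pool.Agent.Lib.MP_50b5e1_nt
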