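import Mathlib
import Pool.Agent.Lib.MP_2a816b_nt.Expo

/-!
# X/TrigLow: a lower bound for the mass in a short arc

Proof of `trig_low`.  Let `M = 16000`, `r = 1/M`, `θ = 1 - cos (2π r)`; `8 r² ≤ θ ≤ 2 π² r²` (`θ = 2 sin² (π r)`, `2r ≤ sin (π r) ≤ π r`).
For real `x` let `S x = ∑_{j<M} e (j x)`, `g x = ‖S x‖^4 (cos (2π x) - 1 + θ)`.
* `g (x - r) ≤ 0` unless `x` lies in `(n, n + 2r)` for an integer `n` (if `cos (2π (x-r)) > cos (2π r)` then `x - r` has distance `< r` from an integer),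
  and always `g ≤ M^4 θ` (`‖S‖ ≤ M`, `cos ≤ 1`). Hence `∑_{p ∈ P} w p g (s p - r) ≤ M^4 θ ∑_{p ∈ P, s p in the arc} w p`.
* `‖S x‖^4 = ∑_{h} c h e (h x)`, `c h = #{(j₁,j₂,j₃,j₄) ∈ [0,M)^4 : j₁+j₂-j₃-j₄ = h}`, `cos (2π x) = (e x + e (-x))/2`. So
  `∑_p w p g (s p - r)` is a combination of sums `∑_p w p e (h s p)` with `|h| ≤ 2M-1`; the total of the absolute values of the coefficients is at most
  `M^4 (1 + 1) = 2 M^4`, and the coefficient of `h = 0` is `c 1 - (1-θ) c 0 = θ c 0 - (c 0 - c 1)`.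
* `c 0 = M (2M²+1)/3`, `c 1 = 2 (M-1) M (M+1)/3`, so `c 0 - c 1 = M` and `c 0 ≥ (2/3) M³`: the coefficient of `h = 0` is `≥ (2/3) M³ · 8 r² - M = (13/3) M`.
  (Proof: `r s = #{(j,k) ∈ [0,M)² : j - k = s} = M - |s|` for `|s| ≤ M`, `c 0 = ∑_s (r s)²`, `c 1 = ∑_s r s * r (1-s) = ∑_s r s * r (s-1)`, so
  `2 (c 0 - c 1) = ∑_s (r s - r (s-1))² = 2M` (the difference is `±1` for `-M < s ≤ M`).  It is convenient to write `‖S x‖² = ∑_{|s|<M} (M-|s|) e (s x)`
  first and to square this: only double sums over `s, s'` with weights `r s * r s'`, total weight `(∑ r s)² = M^4`.)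
So `((13/3) M W - 2 M^4 E) ≤ M^4 θ ∑_{arc} w ≤ 2 π² M² ∑_{arc} w ≤ 20 M² ∑_{arc} w`, i.e. `∑_{arc} w ≥ (13/(60 M)) W - (M²/10) E`.
The statement below has slightly weaker constants (`13/960000 = 1.354e-5`, `M²/10 = 2.56e7`).
-/

open Finset Real
open Pool.Agent.Lib.MP_2a816b_nt (e norm_e conj_e e_add e_neg)

namespace Pool.Agent.Lib.MP_50b5e1_nt

/-- the triangular weights -/
private def TrigLow_r (M : ℕ) (s : ℤ) : ℝ := M - |(s : ℝ)|

/-- the Fejer sum -/
private noncomputable def TrigLow_F (M : ℕ) (x : ℝ) : ℂ :=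
  ∑ s ∈ Ioo (-(M : ℤ)) M, (TrigLow_r M s : ℂ) * e (s * x)

private lemma TrigLow_r_nonneg (M : ℕ) {s : ℤ} (hs : s ∈ Ioo (-(M : ℤ)) M) :
    0 ≤ TrigLow_r M s := by
  rw [mem_Ioo] at hs
  unfold TrigLow_r
  have : |s| ≤ M := by rw [abs_le]; omega
  have : (|s| : ℝ) ≤ M := by exact_mod_cast this
  linarith

private lemma TrigLow_sum_r (M : ℕ) : ∑ s ∈ Ioo (-(M : ℤ)) M, TrigLow_r M s = (M : ℝ) ^ 2 := by
  induction M with
  | zero => simp
  | succ M ih =>
    rcases Nat.eq_zero_or_pos M with rfl | hM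
    · have : Ioo (-((0 + 1 : ℕ) : ℤ)) ((0 + 1 : ℕ) : ℤ) = {0} := by
        ext s
        simp only [mem_Ioo, mem_singleton]
        omega
      rw [this, sum_singleton]
      simp [TrigLow_r]
    · have h1 : Ioo (-((M + 1 : ℕ) : ℤ)) ((M + 1 : ℕ) : ℤ) =
          insert (-(M : ℤ)) (insert (M : ℤ) (Ioo (-(M : ℤ)) M)) := by
        ext s
        simp only [mem_Ioo, mem_insert]
        omega
      have h2 : (-(M : ℤ)) ∉ insert (M : ℤ) (Ioo (-(M : ℤ)) M) := by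
        simp only [mem_Ioo, mem_insert]
        omega
      have h3 : (M : ℤ) ∉ (Ioo (-(M : ℤ)) (M : ℤ)) := by
        simp only [mem_Ioo]
        omega
      rw [h1, sum_insert h2, sum_insert h3]
      have h4 : ∀ s : ℤ, TrigLow_r (M + 1) s = TrigLow_r M s + 1 := by
        intro s
        unfold TrigLow_r
        push_cast
        ring
      simp only [h4, sum_add_distrib, ih, sum_const, Int.card_Ioo, nsmul_eq_mul, mul_one]
      have h5 : ((((M : ℤ) - -(M : ℤ) - 1).toNat : ℕ) : ℝ) = 2 * M - 1 := by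
        have : (M : ℤ) - -(M : ℤ) - 1 = ((2 * M - 1 : ℕ) : ℤ) := by omega
        rw [this, Int.toNat_natCast, Nat.cast_sub (by omega)]
        push_cast
        ring
      rw [h5]
      unfold TrigLow_r
      push_cast
      rw [abs_neg, abs_of_nonneg (show (0 : ℝ) ≤ (M : ℝ) by positivity)]
      ring

private lemma TrigLow_sum_sq (M : ℕ) (hM : 1 ≤ M) :
    (M : ℝ) ^ 3 / 2 ≤ ∑ s ∈ Ioo (-(M : ℤ)) M, TrigLow_r M s ^ 2 := by
  have h := sq_sum_le_card_mul_sum_sq (s := Ioo (-(M : ℤ)) M) (f := TrigLow_r M)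
  rw [TrigLow_sum_r, Int.card_Ioo] at h
  have h5 : ((((M : ℤ) - -(M : ℤ) - 1).toNat : ℕ) : ℝ) = 2 * M - 1 := by
    have : (M : ℤ) - -(M : ℤ) - 1 = ((2 * M - 1 : ℕ) : ℤ) := by omega
    rw [this, Int.toNat_natCast, Nat.cast_sub (by omega)]
    push_cast
    ring
  rw [h5] at h
  have hM' : (1 : ℝ) ≤ M := by exact_mod_cast hM
  have h0 : 0 ≤ ∑ s ∈ Ioo (-(M : ℤ)) M, TrigLow_r M s ^ 2 :=
    Finset.sum_nonneg fun s _ => sq_nonneg _
  have h6 : (M : ℝ) ^ 4 ≤ 2 * M * ∑ s ∈ Ioo (-(M : ℤ)) M, TrigLow_r M s ^ 2 := by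
    nlinarith
  have h7 : (M : ℝ) * ((M : ℝ) ^ 3 / 2) ≤ M * ∑ s ∈ Ioo (-(M : ℤ)) M, TrigLow_r M s ^ 2 := by
    nlinarith
  exact le_of_mul_le_mul_left h7 (by linarith)

private lemma TrigLow_F_conj (M : ℕ) (x : ℝ) :
    (starRingEnd ℂ) (TrigLow_F M x) = TrigLow_F M x := by
  unfold TrigLow_F
  rw [map_sum]
  refine Finset.sum_bij' (fun s _ => -s) (fun s _ => -s) ?_ ?_ ?_ ?_ ?_
  · intro s hs
    rw [mem_Ioo] at hs ⊢
    omega
  · intro s hs
    rw [mem_Ioo] at hs ⊢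
    omega
  · intro s _
    simp
  · intro s _
    simp
  · intro s _
    rw [map_mul, Complex.conj_ofReal, conj_e]
    have h1 : TrigLow_r M (-s) = TrigLow_r M s := by
      unfold TrigLow_r
      push_cast
      rw [abs_neg]
    rw [h1]
    congr 2
    push_cast
    ring

private lemma TrigLow_F_sq (M : ℕ) (x : ℝ) :
    TrigLow_F M x * TrigLow_F M x = ((‖TrigLow_F M x‖ ^ 2 : ℝ) : ℂ) := by
  have h := Complex.mul_conj (TrigLow_F M x)
  rw [TrigLow_F_conj, Complex.normSq_eq_norm_sq] at h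
  exact h

private lemma TrigLow_F_le (M : ℕ) (x : ℝ) : ‖TrigLow_F M x‖ ≤ (M : ℝ) ^ 2 := by
  unfold TrigLow_F
  refine (norm_sum_le _ _).trans ?_
  rw [← TrigLow_sum_r]
  apply le_of_eq
  apply Finset.sum_congr rfl
  intro s hs
  rw [norm_mul, norm_e, mul_one, Complex.norm_real, Real.norm_eq_abs,
    abs_of_nonneg (TrigLow_r_nonneg M hs)]

private lemma TrigLow_cos (x : ℝ) :
    (e x + e (-x)) / 2 = ((Real.cos (2 * π * x) : ℝ) : ℂ) := by
  unfold e
  rw [Complex.ofReal_cos, Complex.cos]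
  congr 3
  · push_cast
    ring
  · push_cast
    ring

/-- evaluation of the inner sums -/
private lemma TrigLow_inner (M : ℕ) (t : ℤ) (ht : |t| ≤ M) :
    ∑ s' ∈ Ioo (-(M : ℤ)) M, TrigLow_r M s' * (if s' = t then 1 else 0) = TrigLow_r M t := by
  simp only [mul_ite, mul_one, mul_zero]
  rw [Finset.sum_ite_eq']
  split_ifs with h
  · rfl
  · rw [mem_Ioo] at h
    have : |t| = M := by
      rw [abs_le] at ht
      rcases abs_cases t with ⟨h1, h2⟩ | ⟨h1, h2⟩ <;> omega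
    unfold TrigLow_r
    have : (|(t : ℝ)|) = M := by exact_mod_cast this
    rw [this]
    ring

private lemma TrigLow_kappa (M : ℕ) (hM : 1 ≤ M) (τ : ℝ) :
    ∑ s ∈ Ioo (-(M : ℤ)) M, ∑ s' ∈ Ioo (-(M : ℤ)) M, TrigLow_r M s * (TrigLow_r M s' *
      (((if s' = -s - 1 then 1 else 0) + (if s' = 1 - s then 1 else 0)) / 2
        - τ * (if s' = -s then 1 else 0))) =
      (1 - τ) * ∑ s ∈ Ioo (-(M : ℤ)) M, TrigLow_r M s ^ 2 - M := by
  have h1 : ∀ s ∈ Ioo (-(M : ℤ)) (M : ℤ), ∑ s' ∈ Ioo (-(M : ℤ)) M, TrigLow_r M s *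
      (TrigLow_r M s' * (((if s' = -s - 1 then 1 else 0) + (if s' = 1 - s then 1 else 0)) / 2
        - τ * (if s' = -s then 1 else 0))) =
      (1 - τ) * TrigLow_r M s ^ 2 - TrigLow_r M s * (if s = 0 then 1 else 0) := by
    intro s hs
    rw [mem_Ioo] at hs
    have e1 := TrigLow_inner M (-s - 1) (by rw [abs_le]; omega)
    have e2 := TrigLow_inner M (1 - s) (by rw [abs_le]; omega)
    have e3 := TrigLow_inner M (-s) (by rw [abs_le]; omega)
    have h2 : ∑ s' ∈ Ioo (-(M : ℤ)) M, TrigLow_r M s *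
        (TrigLow_r M s' * (((if s' = -s - 1 then 1 else 0) + (if s' = 1 - s then 1 else 0)) / 2
          - τ * (if s' = -s then 1 else 0))) =
        TrigLow_r M s * ((∑ s' ∈ Ioo (-(M : ℤ)) M, TrigLow_r M s' *
            (if s' = -s - 1 then 1 else 0)) / 2 +
          (∑ s' ∈ Ioo (-(M : ℤ)) M, TrigLow_r M s' * (if s' = 1 - s then 1 else 0)) / 2 -
          τ * ∑ s' ∈ Ioo (-(M : ℤ)) M, TrigLow_r M s' * (if s' = -s then 1 else 0)) := by
      rw [Finset.sum_div, Finset.sum_div, Finset.mul_sum, ← Finset.sum_add_distrib,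
        ← Finset.sum_sub_distrib, Finset.mul_sum]
      apply Finset.sum_congr rfl
      intro s' _
      ring
    rw [h2, e1, e2, e3]
    have e4 : TrigLow_r M (-s - 1) + TrigLow_r M (1 - s) =
        2 * TrigLow_r M s - 2 * (if s = 0 then 1 else 0) := by
      unfold TrigLow_r
      split_ifs with h0
      · subst h0
        norm_num
        ring
      · rcases lt_or_gt_of_ne h0 with h | h
        · have hs1 : (s : ℝ) ≤ -1 := by
            have : s ≤ -1 := by omega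
            exact_mod_cast this
          push_cast
          rw [abs_of_nonneg (show (0 : ℝ) ≤ -(s : ℝ) - 1 by linarith),
            abs_of_nonneg (show (0 : ℝ) ≤ 1 - (s : ℝ) by linarith),
            abs_of_nonpos (show (s : ℝ) ≤ 0 by linarith)]
          ring
        · have hs1 : (1 : ℝ) ≤ s := by
            have : 1 ≤ s := by omega
            exact_mod_cast this
          push_cast
          rw [abs_of_nonpos (show -(s : ℝ) - 1 ≤ 0 by linarith),
            abs_of_nonpos (show 1 - (s : ℝ) ≤ 0 by linarith),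
            abs_of_nonneg (show (0 : ℝ) ≤ s by linarith)]
          ring
    have e5 : TrigLow_r M (-s) = TrigLow_r M s := by
      unfold TrigLow_r
      push_cast
      rw [abs_neg]
    rw [e5, ← add_div, e4]
    ring
  rw [Finset.sum_congr rfl h1, Finset.sum_sub_distrib, ← Finset.mul_sum,
    TrigLow_inner M 0 (by simp)]
  unfold TrigLow_r
  simp

/-- the main estimate for general `M` -/
private lemma TrigLow_main (M : ℕ) (hM : 1 ≤ M) (P : Finset ℕ) (w x : ℕ → ℝ)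
    (hw : ∀ p ∈ P, 0 ≤ w p) (E : ℝ) (hE0 : 0 ≤ E) (τ : ℝ) (hτ0 : 0 ≤ τ) (hτ1 : τ ≤ 1)
    (hE : ∀ a : ℤ, a ≠ 0 → |a| ≤ 2 * M → ‖∑ p ∈ P, (w p : ℂ) * e (a * x p)‖ ≤ E) :
    ((1 - τ) * ((M : ℝ) ^ 3 / 2) - M) * ∑ p ∈ P, w p - 2 * (M : ℝ) ^ 4 * E ≤
      ∑ p ∈ P, w p * (‖TrigLow_F M (x p)‖ ^ 2 * (Real.cos (2 * π * x p) - τ)) := by
  obtain ⟨A, hA⟩ : ∃ A : ℤ → ℂ, A = fun a : ℤ => ∑ p ∈ P, (w p : ℂ) * e ((a : ℝ) * x p) :=
    ⟨_, rfl⟩
  obtain ⟨W, hW⟩ : ∃ W : ℝ, W = ∑ p ∈ P, w p := ⟨_, rfl⟩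
  have hW0 : 0 ≤ W := by rw [hW]; exact Finset.sum_nonneg hw
  have hA0 : A 0 = (W : ℂ) := by
    rw [hA, hW]
    simp
  obtain ⟨B, hB⟩ : ∃ B : ℤ → ℂ, B = fun a => A a - (if a = 0 then 1 else 0) * (W : ℂ) :=
    ⟨_, rfl⟩
  have hBE : ∀ a : ℤ, |a| ≤ 2 * M → ‖B a‖ ≤ E := by
    intro a ha
    rw [hB]
    simp only
    by_cases h : a = 0
    · subst h
      rw [hA0]
      simpa using hE0
    · rw [if_neg h, zero_mul, sub_zero, hA]
      exact hE a h ha
  have hAB : ∀ a, A a = B a + (if a = 0 then 1 else 0) * (W : ℂ) := by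
    intro a
    rw [hB]
    ring
  -- expansion
  have hexp : ((∑ p ∈ P, w p * (‖TrigLow_F M (x p)‖ ^ 2 * (Real.cos (2 * π * x p) - τ)) : ℝ) : ℂ)
      = ∑ s ∈ Ioo (-(M : ℤ)) M, ∑ s' ∈ Ioo (-(M : ℤ)) M,
        (TrigLow_r M s : ℂ) * ((TrigLow_r M s' : ℂ) *
          ((A (s + s' + 1) + A (s + s' - 1)) / 2 - τ * A (s + s'))) := by
    have h1 : ∀ p, ((w p * (‖TrigLow_F M (x p)‖ ^ 2 * (Real.cos (2 * π * x p) - τ)) : ℝ) : ℂ) =
        ∑ s ∈ Ioo (-(M : ℤ)) M, ∑ s' ∈ Ioo (-(M : ℤ)) M,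
          (TrigLow_r M s : ℂ) * ((TrigLow_r M s' : ℂ) *
          (((w p : ℂ) * e (((s + s' + 1 : ℤ) : ℝ) * x p) +
            (w p : ℂ) * e (((s + s' - 1 : ℤ) : ℝ) * x p)) / 2 -
            τ * ((w p : ℂ) * e (((s + s' : ℤ) : ℝ) * x p)))) := by
      intro p
      have h2 : ((w p * (‖TrigLow_F M (x p)‖ ^ 2 * (Real.cos (2 * π * x p) - τ)) : ℝ) : ℂ) =
          (TrigLow_F M (x p) * TrigLow_F M (x p)) *
            ((w p : ℂ) * ((e (x p) + e (-(x p))) / 2 - τ)) := by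
        rw [TrigLow_F_sq, TrigLow_cos]
        push_cast
        ring
      rw [h2]
      conv_lhs => rw [TrigLow_F, Finset.sum_mul_sum, Finset.sum_mul]
      apply Finset.sum_congr rfl
      intro s _
      rw [Finset.sum_mul]
      apply Finset.sum_congr rfl
      intro s' _
      have e1 : e (((s + s' + 1 : ℤ) : ℝ) * x p) = e (s * x p) * e (s' * x p) * e (x p) := by
        rw [← e_add, ← e_add]
        congr 1
        push_cast
        ring
      have e2 : e (((s + s' - 1 : ℤ) : ℝ) * x p) = e (s * x p) * e (s' * x p) * e (-(x p)) := by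
        rw [← e_add, ← e_add]
        congr 1
        push_cast
        ring
      have e3 : e (((s + s' : ℤ) : ℝ) * x p) = e (s * x p) * e (s' * x p) := by
        rw [← e_add]
        congr 1
        push_cast
        ring
      rw [e1, e2, e3]
      ring
    rw [Complex.ofReal_sum, Finset.sum_congr rfl (fun p _ => h1 p)]
    rw [Finset.sum_comm]
    apply Finset.sum_congr rfl
    intro s _
    rw [Finset.sum_comm]
    apply Finset.sum_congr rfl
    intro s' _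
    rw [← Finset.mul_sum, ← Finset.mul_sum, Finset.sum_sub_distrib, ← Finset.sum_div,
      Finset.sum_add_distrib, ← Finset.mul_sum]
    rw [hA]
  have hexp2 : ((∑ p ∈ P, w p * (‖TrigLow_F M (x p)‖ ^ 2 * (Real.cos (2 * π * x p) - τ)) : ℝ) : ℂ)
      = (((((1 - τ) * ∑ s ∈ Ioo (-(M : ℤ)) M, TrigLow_r M s ^ 2 - M) * W : ℝ)) : ℂ) +
        ∑ s ∈ Ioo (-(M : ℤ)) M, ∑ s' ∈ Ioo (-(M : ℤ)) M,
        (TrigLow_r M s : ℂ) * ((TrigLow_r M s' : ℂ) *
          ((B (s + s' + 1) + B (s + s' - 1)) / 2 - τ * B (s + s'))) := by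
    rw [hexp, ← TrigLow_kappa M hM τ]
    push_cast
    rw [Finset.sum_mul, ← Finset.sum_add_distrib]
    apply Finset.sum_congr rfl
    intro s _
    rw [Finset.sum_mul, ← Finset.sum_add_distrib]
    apply Finset.sum_congr rfl
    intro s' _
    rw [hAB (s + s' + 1), hAB (s + s' - 1), hAB (s + s')]
    have c1 : (s + s' + 1 = 0) ↔ (s' = -s - 1) := by omega
    have c2 : (s + s' - 1 = 0) ↔ (s' = 1 - s) := by omega
    have c3 : (s + s' = 0) ↔ (s' = -s) := by omega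
    simp only [c1, c2, c3]
    split_ifs <;> push_cast <;> ring
  have hR : ‖∑ s ∈ Ioo (-(M : ℤ)) M, ∑ s' ∈ Ioo (-(M : ℤ)) M,
        (TrigLow_r M s : ℂ) * ((TrigLow_r M s' : ℂ) *
          ((B (s + s' + 1) + B (s + s' - 1)) / 2 - τ * B (s + s')))‖ ≤ 2 * (M : ℝ) ^ 4 * E := by
    calc _ ≤ ∑ s ∈ Ioo (-(M : ℤ)) M, ∑ s' ∈ Ioo (-(M : ℤ)) M,
          TrigLow_r M s * (TrigLow_r M s' * (2 * E)) := by
          refine (norm_sum_le _ _).trans (Finset.sum_le_sum fun s hs => ?_)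
          refine (norm_sum_le _ _).trans (Finset.sum_le_sum fun s' hs' => ?_)
          have r1 := TrigLow_r_nonneg M hs
          have r2 := TrigLow_r_nonneg M hs'
          rw [norm_mul, norm_mul, Complex.norm_real, Complex.norm_real, Real.norm_eq_abs,
            Real.norm_eq_abs, abs_of_nonneg r1, abs_of_nonneg r2]
          rw [mem_Ioo] at hs hs'
          have b1 := hBE (s + s' + 1) (by rw [abs_le]; omega)
          have b2 := hBE (s + s' - 1) (by rw [abs_le]; omega)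
          have b3 := hBE (s + s') (by rw [abs_le]; omega)
          have b4 : ‖(B (s + s' + 1) + B (s + s' - 1)) / 2 - τ * B (s + s')‖ ≤ 2 * E := by
            refine (norm_sub_le _ _).trans ?_
            rw [norm_div, norm_mul, Complex.norm_real, Real.norm_eq_abs, abs_of_nonneg hτ0]
            have b5 := norm_add_le (B (s + s' + 1)) (B (s + s' - 1))
            have b6 : ‖(2 : ℂ)‖ = 2 := by simp
            rw [b6]
            have b7 : τ * ‖B (s + s')‖ ≤ 1 * E :=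
              mul_le_mul hτ1 b3 (norm_nonneg _) zero_le_one
            linarith
          exact mul_le_mul_of_nonneg_left (mul_le_mul_of_nonneg_left b4 r2) r1
      _ = 2 * (M : ℝ) ^ 4 * E := by
          have : ∀ s : ℤ, ∑ s' ∈ Ioo (-(M : ℤ)) (M : ℤ),
              TrigLow_r M s * (TrigLow_r M s' * (2 * E)) =
              TrigLow_r M s * ((M : ℝ) ^ 2 * (2 * E)) := by
            intro s
            rw [← Finset.mul_sum, ← Finset.sum_mul, TrigLow_sum_r]
          simp only [this]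
          rw [← Finset.sum_mul, TrigLow_sum_r]
          ring
  have hre := congrArg Complex.re hexp2
  rw [Complex.add_re, Complex.ofReal_re, Complex.ofReal_re] at hre
  have h3 := (Complex.abs_re_le_norm _).trans hR
  have h4 := (abs_le.1 h3).1
  rw [hre, ← hW]
  have h5 := TrigLow_sum_sq M hM
  have h6 : ((1 - τ) * ((M : ℝ) ^ 3 / 2) - M) * W ≤
      ((1 - τ) * ∑ s ∈ Ioo (-(M : ℤ)) M, TrigLow_r M s ^ 2 - M) * W := by
    apply mul_le_mul_of_nonneg_right _ hW0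
    have : (1 - τ) * ((M : ℝ) ^ 3 / 2) ≤ (1 - τ) * ∑ s ∈ Ioo (-(M : ℤ)) M, TrigLow_r M s ^ 2 :=
      mul_le_mul_of_nonneg_left h5 (by linarith)
    linarith
  linarith

/-- outside the arc -/
private lemma TrigLow_arc (r y : ℝ) (hr0 : 0 ≤ r) (hr1 : r ≤ 1 / 2)
    (h : ¬ ∃ n : ℤ, (n : ℝ) < y + r ∧ y + r < n + 2 * r) :
    Real.cos (2 * π * y) ≤ Real.cos (2 * π * r) := by
  by_contra hc
  push Not at hc
  apply h
  refine ⟨round y, ?_⟩
  have h1 : |y - round y| ≤ 1 / 2 := abs_sub_round y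
  have h2 : Real.cos (2 * π * y) = Real.cos (2 * π * |y - round y|) := by
    have : Real.cos (2 * π * |y - round y|) = Real.cos (2 * π * (y - round y)) := by
      rcases abs_cases (y - round y) with ⟨h3, _⟩ | ⟨h3, _⟩
      · rw [h3]
      · rw [h3, mul_neg, Real.cos_neg]
    rw [this]
    have h4 : 2 * π * (y - round y) = 2 * π * y - (round y : ℤ) * (2 * π) := by ring
    rw [h4, Real.cos_sub_int_mul_two_pi]
  have h3 : |y - round y| < r := by
    by_contra h4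
    push Not at h4
    rw [h2] at hc
    have h5 := Real.cos_le_cos_of_nonneg_of_le_pi (x := 2 * π * r) (y := 2 * π * |y - round y|)
      (by positivity) (by nlinarith [Real.pi_pos]) (by
        have := Real.pi_pos
        gcongr)
    linarith
  rw [abs_lt] at h3
  constructor <;> linarith [h3.1, h3.2]

theorem trig_low (P : Finset ℕ) (w s : ℕ → ℝ) (hw : ∀ p ∈ P, 0 ≤ w p) (E : ℝ)
    (hE : ∀ a : ℤ, a ≠ 0 → |a| ≤ 32000 → ‖∑ p ∈ P, (w p : ℂ) * e (a * s p)‖ ≤ E) (Q : Finset ℕ) (hQ : Q ⊆ P)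
    (hPQ : ∀ p ∈ P, (∃ n : ℤ, (n : ℝ) < s p ∧ s p < n + 1 / 8000) → p ∈ Q) :
    (1.3 / 100000) * ∑ p ∈ P, w p ≤ ∑ p ∈ Q, w p + 3 * 10 ^ 7 * E := by
  have hE0 : 0 ≤ E := (norm_nonneg _).trans (hE 1 one_ne_zero (by norm_num))
  obtain ⟨M, hM⟩ : ∃ M : ℕ, M = 16000 := ⟨_, rfl⟩
  have hMr : (M : ℝ) = 16000 := by rw [hM]; norm_num
  obtain ⟨r, hr⟩ : ∃ r : ℝ, r = 1 / 16000 := ⟨_, rfl⟩
  obtain ⟨τ, hτ⟩ : ∃ τ : ℝ, τ = Real.cos (2 * π * r) := ⟨_, rfl⟩
  have hpi := Real.pi_pos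
  have hpi3 := Real.pi_gt_d2
  have hpi4 := Real.pi_lt_d2
  -- bounds for theta = 1 - tau = 2 sin^2 (pi r)
  have hτs : 1 - τ = 2 * Real.sin (π * r) ^ 2 := by
    rw [hτ, show 2 * π * r = 2 * (π * r) by ring, Real.cos_two_mul, Real.cos_sq']
    ring
  have hpr : π * r ≤ 1 := by rw [hr]; linarith
  have hpr0 : 0 < π * r := by rw [hr]; positivity
  have hs1 : Real.sin (π * r) ≤ π * r := Real.sin_le hpr0.le
  have hs2 : π * r - (π * r) ^ 3 / 4 < Real.sin (π * r) := by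
    have h1 := Real.sin_gt_sub_cube hpr0
    have h2 : 0 < (π * r) ^ 3 := by positivity
    linarith
  have hs3 : 3.1 * r ≤ Real.sin (π * r) := by
    have h1 : (π * r) ^ 3 / 4 ≤ (0.01) * r := by
      have h2 : π * r ≤ 4 * r := by
        have : 0 < r := by rw [hr]; norm_num
        nlinarith
      have h3 : (π * r) ^ 3 ≤ (4 * r) ^ 3 := pow_le_pow_left₀ hpr0.le h2 3
      have h4 : (4 * r) ^ 3 / 4 ≤ 0.01 * r := by
        rw [hr]; norm_num
      linarith
    have h5 : 3.14 * r ≤ π * r := by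
      have : 0 < r := by rw [hr]; norm_num
      nlinarith
    have : 0 < r := by rw [hr]; norm_num
    nlinarith
  have hr0 : 0 < r := by rw [hr]; norm_num
  have hθ1 : 19 * r ^ 2 ≤ 1 - τ := by
    rw [hτs]
    have := pow_le_pow_left₀ (by positivity) hs3 2
    nlinarith
  have hθ2 : 1 - τ ≤ 20 * r ^ 2 := by
    rw [hτs]
    have h1 : 0 ≤ Real.sin (π * r) := by linarith [mul_pos (show (0 : ℝ) < 3.1 by norm_num) hr0]
    have h2 := pow_le_pow_left₀ h1 hs1 2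
    have h3 : (π * r) ^ 2 ≤ 10 * r ^ 2 := by
      rw [mul_pow]
      have : π ^ 2 ≤ 10 := by nlinarith
      exact mul_le_mul_of_nonneg_right this (sq_nonneg _)
    linarith
  have hτ1 : τ ≤ 1 := by rw [hτ]; exact Real.cos_le_one _
  have hτ0 : 0 ≤ τ := by
    have : 20 * r ^ 2 ≤ 1 := by rw [hr]; norm_num
    linarith
  have hE' : ∀ a : ℤ, a ≠ 0 → |a| ≤ 2 * M → ‖∑ p ∈ P, (w p : ℂ) * e (a * (s p - r))‖ ≤ E := by
    intro a ha ha'
    have h1 : ∑ p ∈ P, (w p : ℂ) * e (a * (s p - r)) =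
        e (-(a * r)) * ∑ p ∈ P, (w p : ℂ) * e (a * s p) := by
      rw [Finset.mul_sum]
      apply Finset.sum_congr rfl
      intro p _
      rw [show (a : ℝ) * (s p - r) = a * s p + -(a * r) by ring, e_add]
      ring
    rw [h1, norm_mul, norm_e, one_mul]
    apply hE a ha
    rw [hM] at ha'
    push_cast at ha'
    linarith
  have hmain := TrigLow_main M (by omega) P w (fun p => s p - r) hw E hE0 τ hτ0 hτ1 hE'
  have hup : ∑ p ∈ P, w p * (‖TrigLow_F M (s p - r)‖ ^ 2 *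
      (Real.cos (2 * π * (s p - r)) - τ)) ≤ ∑ p ∈ Q, w p * ((M : ℝ) ^ 4 * (1 - τ)) := by
    rw [← Finset.sum_sdiff hQ]
    have h1 : ∑ p ∈ P \ Q, w p * (‖TrigLow_F M (s p - r)‖ ^ 2 *
        (Real.cos (2 * π * (s p - r)) - τ)) ≤ 0 := by
      apply Finset.sum_nonpos
      intro p hp
      rw [mem_sdiff] at hp
      have h2 : Real.cos (2 * π * (s p - r)) ≤ Real.cos (2 * π * r) := by
        apply TrigLow_arc r (s p - r) hr0.le (by rw [hr]; norm_num)
        rintro ⟨n, h3, h4⟩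
        apply hp.2
        apply hPQ p hp.1
        refine ⟨n, by linarith, ?_⟩
        have : s p - r + r < n + 2 * r := h4
        rw [hr] at this
        linarith
      rw [← hτ] at h2
      have h5 : ‖TrigLow_F M (s p - r)‖ ^ 2 * (Real.cos (2 * π * (s p - r)) - τ) ≤ 0 :=
        mul_nonpos_of_nonneg_of_nonpos (by positivity) (by linarith)
      exact mul_nonpos_of_nonneg_of_nonpos (hw p hp.1) h5
    have h2 : ∑ p ∈ Q, w p * (‖TrigLow_F M (s p - r)‖ ^ 2 *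
        (Real.cos (2 * π * (s p - r)) - τ)) ≤ ∑ p ∈ Q, w p * ((M : ℝ) ^ 4 * (1 - τ)) := by
      apply Finset.sum_le_sum
      intro p hp
      apply mul_le_mul_of_nonneg_left _ (hw p (hQ hp))
      have h3 := TrigLow_F_le M (s p - r)
      have h4 : ‖TrigLow_F M (s p - r)‖ ^ 2 ≤ (M : ℝ) ^ 4 := by
        calc ‖TrigLow_F M (s p - r)‖ ^ 2 ≤ ((M : ℝ) ^ 2) ^ 2 :=
              pow_le_pow_left₀ (norm_nonneg _) h3 2
          _ = (M : ℝ) ^ 4 := by ring
      calc ‖TrigLow_F M (s p - r)‖ ^ 2 * (Real.cos (2 * π * (s p - r)) - τ)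
          ≤ ‖TrigLow_F M (s p - r)‖ ^ 2 * (1 - τ) := by
            apply mul_le_mul_of_nonneg_left _ (by positivity)
            linarith [Real.cos_le_one (2 * π * (s p - r))]
        _ ≤ (M : ℝ) ^ 4 * (1 - τ) := mul_le_mul_of_nonneg_right h4 (by linarith)
    linarith
  have hfin := hmain.trans hup
  rw [← Finset.sum_mul] at hfin
  have hW0 : 0 ≤ ∑ p ∈ P, w p := Finset.sum_nonneg hw
  have hQ0 : 0 ≤ ∑ p ∈ Q, w p := Finset.sum_nonneg fun p hp => hw p (hQ hp)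
  rw [hMr] at hfin
  rw [hr] at hθ1 hθ2
  have k1 : (8.5 * 16000) * ∑ p ∈ P, w p ≤
      ((1 - τ) * ((16000 : ℝ) ^ 3 / 2) - 16000) * ∑ p ∈ P, w p := by
    apply mul_le_mul_of_nonneg_right _ hW0
    have : 19 * (1 / 16000) ^ 2 * ((16000 : ℝ) ^ 3 / 2) ≤ (1 - τ) * ((16000 : ℝ) ^ 3 / 2) :=
      mul_le_mul_of_nonneg_right hθ1 (by norm_num)
    norm_num at this ⊢
    linarith
  have k2 : (∑ p ∈ Q, w p) * ((16000 : ℝ) ^ 4 * (1 - τ)) ≤ (∑ p ∈ Q, w p) * (20 * 16000 ^ 2) := by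
    apply mul_le_mul_of_nonneg_left _ hQ0
    have : (16000 : ℝ) ^ 4 * (1 - τ) ≤ (16000 : ℝ) ^ 4 * (20 * (1 / 16000) ^ 2) :=
      mul_le_mul_of_nonneg_left hθ2 (by norm_num)
    norm_num at this ⊢
    linarith
  norm_num at hfin k1 k2 ⊢
  linarith

end Pool.Agent.Lib.MP_50b5e1_nt
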