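import Mathlib
import Pool.Agent.Lib.MP_2a816b_nt.Expo

/-!
# X/TrigUp: an upper bound for the mass in a small square

Proof of `trig_up`.  Let `H = 1000`, `S x = ∑_{h<H} e (h x)`.  If `|x - n| ≤ 1/(2H)` for an integer `n` then `‖S x‖ ≥ 2H/π`: `S x = S (x-n)`, for `x = n` it is `H`, otherwise
`‖S x‖ = |sin (π H t)|/|sin (π t)|` with `t = x - n`, and `|sin (π H t)| ≥ 2 H |t|` (`Real.mul_le_sin`, `|π H t| ≤ π/2`), `|sin (π t)| ≤ π |t|`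
(`‖1 - e (H t)‖ = 2 |sin (π H t)|`, geometric sum).  So for `p ∈ Q`: `1 ≤ (π²/(4 H²))² ‖S (s p)‖² ‖S (t p)‖²`, and
`∑_{p ∈ Q} w p ≤ (π⁴/(16 H⁴)) ∑_{p ∈ P} w p ‖S (s p)‖² ‖S (t p)‖²`
`= (π⁴/(16 H⁴)) ∑_{a,a',b,b' < H} ∑_{p ∈ P} w p e ((a-a') s p + (b-b') t p) ≤ (π⁴/(16 H⁴)) (H² W + H⁴ E)`
(the `H²` terms with `a = a'`, `b = b'` give `W = ∑_{p ∈ P} w p`, the others are `≤ E`).  `π⁴/16 ≤ 6.1`, `H² = 10^6`.
-/

open Finset Real
open Pool.Agent.Lib.MP_2a816b_nt (e norm_e conj_e e_add e_neg)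

namespace Pool.Agent.Lib.MP_50b5e1_nt

open Pool.Agent.Lib.MP_2a816b_nt (D D_mul norm_e_sub_one e_sub_int e_zero e_nat_mul)

private lemma TrigUp_sq (H : ℕ) (x : ℝ) : ((‖D H x‖ ^ 2 : ℝ) : ℂ) =
    ∑ u ∈ range H ×ˢ range H, e ((((u.1 : ℤ) - (u.2 : ℤ) : ℤ) : ℝ) * x) := by
  rw [← Complex.normSq_eq_norm_sq, ← Complex.mul_conj]
  unfold D
  rw [map_sum, sum_mul_sum, sum_product]
  refine sum_congr rfl fun a _ => sum_congr rfl fun b _ => ?_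
  rw [conj_e, ← e_add]
  congr 1
  push_cast
  ring

private lemma TrigUp_ind (H : ℕ) (W : ℝ) :
    ∑ u ∈ range H ×ˢ range H, ∑ v ∈ range H ×ˢ range H,
      (if u.1 = u.2 ∧ v.1 = v.2 then W else 0) = (H : ℝ) ^ 2 * W := by
  have h1 : ∀ c : ℝ, ∑ u ∈ range H ×ˢ range H, (if u.1 = u.2 then c else 0) = H * c := by
    intro c
    rw [sum_product]
    have h2 : ∀ a ∈ range H, ∑ b ∈ range H, (if a = b then c else 0) = c := by
      intro a ha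
      rw [sum_ite_eq, if_pos ha]
    rw [sum_congr rfl h2, sum_const, card_range, nsmul_eq_mul]
  have h3 : ∀ u ∈ range H ×ˢ range H, ∑ v ∈ range H ×ˢ range H,
      (if u.1 = u.2 ∧ v.1 = v.2 then W else 0) = if u.1 = u.2 then H * W else 0 := by
    intro u _
    by_cases hu : u.1 = u.2
    · simp only [hu, true_and, if_true]
      exact h1 W
    · simp [hu]
  rw [sum_congr rfl h3, h1]
  ring

private lemma TrigUp_main (H : ℕ) (P : Finset ℕ) (w s t : ℕ → ℝ) (hw : ∀ p ∈ P, 0 ≤ w p) (E : ℝ)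
    (hE0 : 0 ≤ E) (hE : ∀ a b : ℤ, (a ≠ 0 ∨ b ≠ 0) → |a| ≤ H → |b| ≤ H →
      ‖∑ p ∈ P, (w p : ℂ) * e (a * s p + b * t p)‖ ≤ E) :
    ∑ p ∈ P, w p * (‖D H (s p)‖ ^ 2 * ‖D H (t p)‖ ^ 2) ≤
      (H : ℝ) ^ 2 * ∑ p ∈ P, w p + (H : ℝ) ^ 4 * E := by
  have hW0 : 0 ≤ ∑ p ∈ P, w p := sum_nonneg hw
  have h1 : ((∑ p ∈ P, w p * (‖D H (s p)‖ ^ 2 * ‖D H (t p)‖ ^ 2) : ℝ) : ℂ) =
      ∑ u ∈ range H ×ˢ range H, ∑ v ∈ range H ×ˢ range H,
        ∑ p ∈ P, (w p : ℂ) * e ((((u.1 : ℤ) - (u.2 : ℤ) : ℤ) : ℝ) * s p +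
          (((v.1 : ℤ) - (v.2 : ℤ) : ℤ) : ℝ) * t p) := by
    rw [Complex.ofReal_sum]
    have h2 : ∀ p ∈ P, ((w p * (‖D H (s p)‖ ^ 2 * ‖D H (t p)‖ ^ 2) : ℝ) : ℂ) =
        ∑ u ∈ range H ×ˢ range H, ∑ v ∈ range H ×ˢ range H,
          (w p : ℂ) * e ((((u.1 : ℤ) - (u.2 : ℤ) : ℤ) : ℝ) * s p +
          (((v.1 : ℤ) - (v.2 : ℤ) : ℤ) : ℝ) * t p) := by
      intro p _
      rw [Complex.ofReal_mul, Complex.ofReal_mul, TrigUp_sq, TrigUp_sq, sum_mul_sum, mul_sum]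
      refine sum_congr rfl fun u _ => ?_
      rw [mul_sum]
      refine sum_congr rfl fun v _ => ?_
      rw [e_add]
    rw [sum_congr rfl h2, sum_comm]
    refine sum_congr rfl fun u _ => ?_
    rw [sum_comm]
  have h3 : ∑ p ∈ P, w p * (‖D H (s p)‖ ^ 2 * ‖D H (t p)‖ ^ 2) =
      ‖((∑ p ∈ P, w p * (‖D H (s p)‖ ^ 2 * ‖D H (t p)‖ ^ 2) : ℝ) : ℂ)‖ := by
    rw [Complex.norm_real, Real.norm_eq_abs, abs_of_nonneg]
    exact sum_nonneg fun p hp => mul_nonneg (hw p hp) (by positivity)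
  rw [h3, h1]
  have h4 : ∀ u ∈ range H ×ˢ range H, ∀ v ∈ range H ×ˢ range H,
      ‖∑ p ∈ P, (w p : ℂ) * e ((((u.1 : ℤ) - (u.2 : ℤ) : ℤ) : ℝ) * s p +
          (((v.1 : ℤ) - (v.2 : ℤ) : ℤ) : ℝ) * t p)‖ ≤
        (if u.1 = u.2 ∧ v.1 = v.2 then ∑ p ∈ P, w p else 0) + E := by
    intro u hu v hv
    rw [mem_product, mem_range, mem_range] at hu hv
    by_cases hc : u.1 = u.2 ∧ v.1 = v.2
    · rw [if_pos hc]
      have h5 : ‖∑ p ∈ P, (w p : ℂ) * e ((((u.1 : ℤ) - (u.2 : ℤ) : ℤ) : ℝ) * s p +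
          (((v.1 : ℤ) - (v.2 : ℤ) : ℤ) : ℝ) * t p)‖ ≤ ∑ p ∈ P, w p := by
        refine (norm_sum_le _ _).trans (sum_le_sum fun p hp => ?_)
        rw [norm_mul, norm_e, mul_one, Complex.norm_real, Real.norm_eq_abs, abs_of_nonneg (hw p hp)]
      linarith
    · rw [if_neg hc, zero_add]
      refine hE _ _ ?_ ?_ ?_
      · by_contra hn
        push Not at hn
        exact hc ⟨by omega, by omega⟩
      · rw [abs_le]
        constructor <;> omega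
      · rw [abs_le]
        constructor <;> omega
  refine (norm_sum_le _ _).trans ?_
  refine (sum_le_sum fun u hu => (norm_sum_le _ _).trans (sum_le_sum fun v hv => h4 u hu v hv)).trans ?_
  simp only [sum_add_distrib]
  rw [TrigUp_ind]
  refine le_of_eq ?_
  congr 1
  simp only [sum_const, card_product, card_range, nsmul_eq_mul]
  push_cast
  ring

private lemma TrigUp_low (x : ℝ) (h : ∃ n : ℤ, |x - n| ≤ 1 / 2000) :
    2000 / π ≤ ‖D 1000 x‖ := by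
  obtain ⟨n, hn⟩ := h
  have hπ := pi_pos
  set τ := x - n with hτ
  have hm := D_mul 1000 x
  have h1 : e x = e τ := (e_sub_int x n).symm
  have h2 : e (((1000 : ℕ) : ℝ) * x) = e (1000 * τ) := by
    have h3 := e_sub_int (1000 * x) (1000 * n)
    rw [hτ, mul_sub]
    push_cast at h3 ⊢
    exact h3.symm
  rw [h1, h2] at hm
  have hnorm : ‖D 1000 x‖ * (2 * |sin (π * τ)|) = 2 * |sin (π * (1000 * τ))| := by
    rw [← norm_e_sub_one, ← norm_e_sub_one, ← norm_mul, hm]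
  rcases eq_or_ne τ 0 with h0 | h0
  · have h4 : D 1000 x = 1000 := by
      unfold D
      have h5 : ∀ u ∈ range 1000, e ((u : ℝ) * x) = 1 := by
        intro u _
        rw [e_nat_mul, h1, h0, e_zero, one_pow]
      rw [sum_congr rfl h5, sum_const, card_range]
      simp
    rw [h4]
    have h6 : ‖(1000 : ℂ)‖ = 1000 := by norm_num
    rw [h6, div_le_iff₀ hπ]
    have := pi_gt_three
    linarith
  · have hτ0 : 0 < |τ| := abs_pos.2 h0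
    have h5 : |π * (1000 * τ)| ≤ π / 2 := by
      rw [abs_mul, abs_mul, abs_of_pos hπ, abs_of_pos (by norm_num : (0 : ℝ) < 1000)]
      nlinarith
    have h6 := mul_abs_le_abs_sin h5
    have h7 : 2 / π * |π * (1000 * τ)| = 2000 * |τ| := by
      rw [abs_mul, abs_mul, abs_of_pos hπ, abs_of_pos (by norm_num : (0 : ℝ) < 1000)]
      field_simp
      ring
    rw [h7] at h6
    have h8 : |sin (π * τ)| ≤ π * |τ| := by
      have := abs_sin_le_abs (x := π * τ)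
      rwa [abs_mul, abs_of_pos hπ] at this
    have h9 : 2 * (2000 * |τ|) ≤ ‖D 1000 x‖ * (2 * (π * |τ|)) := by
      calc 2 * (2000 * |τ|) ≤ 2 * |sin (π * (1000 * τ))| := by linarith
        _ = ‖D 1000 x‖ * (2 * |sin (π * τ)|) := hnorm.symm
        _ ≤ ‖D 1000 x‖ * (2 * (π * |τ|)) :=
          mul_le_mul_of_nonneg_left (mul_le_mul_of_nonneg_left h8 (by norm_num)) (norm_nonneg _)
    rw [div_le_iff₀ hπ]
    have h10 : 2000 * (2 * |τ|) ≤ (‖D 1000 x‖ * π) * (2 * |τ|) := by linarith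
    exact le_of_mul_le_mul_right h10 (by positivity)

theorem trig_up (P : Finset ℕ) (w s t : ℕ → ℝ) (hw : ∀ p ∈ P, 0 ≤ w p) (E : ℝ) (hE0 : 0 ≤ E)
    (hE : ∀ a b : ℤ, (a ≠ 0 ∨ b ≠ 0) → |a| ≤ 1000 → |b| ≤ 1000 →
      ‖∑ p ∈ P, (w p : ℂ) * e (a * s p + b * t p)‖ ≤ E) (Q : Finset ℕ) (hQ : Q ⊆ P)
    (hs : ∀ p ∈ Q, ∃ n : ℤ, |s p - n| ≤ 1 / 2000) (ht : ∀ p ∈ Q, ∃ n : ℤ, |t p - n| ≤ 1 / 2000) :
    ∑ p ∈ Q, w p ≤ (6.1 / 1000000) * ∑ p ∈ P, w p + 7 * E := by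
  have hπ := pi_pos
  have hW0 : 0 ≤ ∑ p ∈ P, w p := sum_nonneg hw
  have h1 := TrigUp_main 1000 P w s t hw E hE0 (fun a b hab ha hb => hE a b hab
    (by simpa using ha) (by simpa using hb))
  have h2 : ∀ p ∈ Q, w p ≤ (π / 2000) ^ 4 * (w p * (‖D 1000 (s p)‖ ^ 2 * ‖D 1000 (t p)‖ ^ 2)) := by
    intro p hp
    have h3 := TrigUp_low (s p) (hs p hp)
    have h4 := TrigUp_low (t p) (ht p hp)
    have h5 : (2000 / π) ^ 2 ≤ ‖D 1000 (s p)‖ ^ 2 := pow_le_pow_left₀ (by positivity) h3 2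
    have h6 : (2000 / π) ^ 2 ≤ ‖D 1000 (t p)‖ ^ 2 := pow_le_pow_left₀ (by positivity) h4 2
    have h7 : (2000 / π) ^ 2 * (2000 / π) ^ 2 ≤ ‖D 1000 (s p)‖ ^ 2 * ‖D 1000 (t p)‖ ^ 2 :=
      mul_le_mul h5 h6 (sq_nonneg _) (sq_nonneg _)
    have h8 : (π / 2000) ^ 4 * ((2000 / π) ^ 2 * (2000 / π) ^ 2) = 1 := by
      have h81 : (π / 2000) * (2000 / π) = 1 := by field_simp
      have h82 : (π / 2000) ^ 4 * ((2000 / π) ^ 2 * (2000 / π) ^ 2) =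
          ((π / 2000) * (2000 / π)) ^ 4 := by ring
      rw [h82, h81, one_pow]
    have hwp := hw p (hQ hp)
    calc w p = w p * ((π / 2000) ^ 4 * ((2000 / π) ^ 2 * (2000 / π) ^ 2)) := by rw [h8, mul_one]
      _ ≤ w p * ((π / 2000) ^ 4 * (‖D 1000 (s p)‖ ^ 2 * ‖D 1000 (t p)‖ ^ 2)) :=
          mul_le_mul_of_nonneg_left (mul_le_mul_of_nonneg_left h7 (by positivity)) hwp
      _ = _ := by ring
  have h3 : ∑ p ∈ Q, w p ≤ (π / 2000) ^ 4 *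
      ∑ p ∈ P, w p * (‖D 1000 (s p)‖ ^ 2 * ‖D 1000 (t p)‖ ^ 2) := by
    refine (sum_le_sum h2).trans ?_
    rw [← mul_sum]
    refine mul_le_mul_of_nonneg_left ?_ (by positivity)
    exact sum_le_sum_of_subset_of_nonneg hQ fun p hp _ => mul_nonneg (hw p hp) (by positivity)
  have h4 : (π / 2000) ^ 4 ≤ 6.1 / 10 ^ 12 := by
    have h5 : π / 2000 ≤ 3.1416 / 2000 := by
      have := pi_lt_d4
      linarith
    have h6 : (π / 2000) ^ 4 ≤ (3.1416 / 2000) ^ 4 := pow_le_pow_left₀ (by positivity) h5 4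
    refine h6.trans ?_
    norm_num
  have h5 : (π / 2000) ^ 4 * ∑ p ∈ P, w p * (‖D 1000 (s p)‖ ^ 2 * ‖D 1000 (t p)‖ ^ 2) ≤
      6.1 / 10 ^ 12 * (((1000 : ℕ) : ℝ) ^ 2 * ∑ p ∈ P, w p + ((1000 : ℕ) : ℝ) ^ 4 * E) := by
    refine mul_le_mul h4 h1 (sum_nonneg fun p hp => mul_nonneg (hw p hp) (by positivity))
      (by positivity)
  refine (h3.trans h5).trans ?_
  push_cast
  have h6 : (6.1 : ℝ) / 10 ^ 12 * (1000 ^ 2 * ∑ p ∈ P, w p + 1000 ^ 4 * E) =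
      6.1 / 1000000 * ∑ p ∈ P, w p + 6.1 * E := by ring
  rw [h6]
  linarith

end Pool.Agent.Lib.MP_50b5e1_nt
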