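import Mathlib

/-!
# X/Dif: iterated differences of `1/x`

`vv s [h₁,…,h_j] x` is the iterated difference of `x ↦ x^(-s)` (with signs making it positive).
-/

open Finset Real

namespace Pool.Agent.Lib.MP_50b5e1_nt

/-- iterated differences of `x ↦ 1 / x ^ s` -/
noncomputable def vv (s : ℕ) : List ℕ → ℝ → ℝ
  | [], x => 1 / x ^ s
  | h :: l, x => vv s l x - vv s l (x + h)

private theorem Dif_deriv (l : List ℕ) : ∀ (s : ℕ), 1 ≤ s → ∀ x : ℝ, 0 < x →
    HasDerivAt (vv s l) (-(s * vv (s + 1) l x)) x := by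
  induction l with
  | nil =>
    intro s hs x hx
    have h1 : HasDerivAt (fun y : ℝ => (y ^ s)⁻¹) (-(s * x ^ (s - 1)) / (x ^ s) ^ 2) x :=
      (hasDerivAt_pow s x).inv (by positivity)
    have h2 : vv s [] = fun y : ℝ => (y ^ s)⁻¹ := by
      funext y
      simp [vv]
    rw [h2]
    convert h1 using 1
    show -(s * (1 / x ^ (s + 1))) = _
    obtain ⟨k, rfl⟩ : ∃ k, s = k + 1 := ⟨s - 1, by omega⟩
    rw [Nat.add_sub_cancel]
    field_simp
    ring
  | cons h l ih =>
    intro s hs x hx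
    have h1 := ih s hs x hx
    have h2 := ih s hs (x + h) (by positivity)
    have h3 : HasDerivAt (fun y : ℝ => vv s l (y + h)) (-(s * vv (s + 1) l (x + h))) x :=
      h2.comp_add_const x (h : ℝ)
    have h4 : HasDerivAt (fun y : ℝ => vv s l y - vv s l (y + h))
        (-(s * vv (s + 1) l x) - -(s * vv (s + 1) l (x + h))) x := h1.sub h3
    have h5 : vv s (h :: l) = fun y => vv s l y - vv s l (y + h) := rfl
    have h6 : -((s : ℝ) * vv (s + 1) l x) - -(s * vv (s + 1) l (x + h)) =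
        -(s * vv (s + 1) (h :: l) x) := by
      show _ = -(s * (vv (s + 1) l x - vv (s + 1) l (x + h)))
      ring
    rw [h5, ← h6]
    exact h4

private theorem Dif_mvt (l : List ℕ) (h : ℕ) (hh : 1 ≤ h) (s : ℕ) (hs : 1 ≤ s) (x : ℝ)
    (hx : 0 < x) : ∃ ξ : ℝ, x ≤ ξ ∧ ξ ≤ x + h ∧
      vv s (h :: l) x = h * (s * vv (s + 1) l ξ) := by
  have hpos : (0 : ℝ) < h := by exact_mod_cast hh
  obtain ⟨ξ, hξ, he⟩ := exists_hasDerivAt_eq_slope (vv s l) (fun y => -(s * vv (s + 1) l y))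
    (a := x) (b := x + h) (by linarith)
    (fun y hy => (Dif_deriv l s hs y (hx.trans_le hy.1)).continuousAt.continuousWithinAt)
    (fun y hy => Dif_deriv l s hs y (hx.trans hy.1))
  refine ⟨ξ, hξ.1.le, hξ.2.le, ?_⟩
  have h1 : x + (h : ℝ) - x = h := by ring
  rw [h1, eq_div_iff hpos.ne'] at he
  show vv s l x - vv s l (x + h) = _
  linear_combination he

/-- Proof: induction on `l` (for all `s ≥ 1`, `x > 0`).  `l = []` is clear.  For `h :: l`: `vv s l` is differentiable on `(0,∞)` with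
derivative `-s * vv (s+1) l x` (a separate induction on `l`: `HasDerivAt (vv s l) (-(s * vv (s+1) l x)) x` for `x > 0`), so by the mean value
theorem on `[x, x+h]` there is `ξ ∈ (x, x+h)` with `vv s (h::l) x = vv s l x - vv s l (x+h) = h * s * vv (s+1) l ξ`; insert the bounds for
`vv (s+1) l ξ`, `x ≤ ξ ≤ x+h`, and `s * (s+1).ascFactorial j = s.ascFactorial (j+1)` (`Nat.ascFactorial_succ`, `Nat.succ_ascFactorial`;
`s.ascFactorial j = s (s+1) ⋯ (s+j-1)`). -/
theorem vv_bounds (l : List ℕ) (hl : ∀ h ∈ l, 1 ≤ h) : ∀ (s : ℕ), 1 ≤ s → ∀ x : ℝ, 0 < x →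
    ((l.prod : ℕ) : ℝ) * (s.ascFactorial l.length : ℕ) / (x + (l.sum : ℕ)) ^ (s + l.length) ≤ vv s l x ∧
    vv s l x ≤ ((l.prod : ℕ) : ℝ) * (s.ascFactorial l.length : ℕ) / x ^ (s + l.length) := by
  induction l with
  | nil =>
    intro s hs x hx
    simp [vv]
  | cons h l ih =>
    intro s hs x hx
    have hl' : ∀ h ∈ l, 1 ≤ h := fun k hk => hl k (List.mem_cons_of_mem _ hk)
    have hh : 1 ≤ h := hl h List.mem_cons_self
    obtain ⟨ξ, hξ1, hξ2, hξ⟩ := Dif_mvt l h hh s hs x hx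
    have hξ0 : 0 < ξ := hx.trans_le hξ1
    obtain ⟨b1, b2⟩ := ih hl' (s + 1) (by omega) ξ hξ0
    have hasc : ((s.ascFactorial (l.length + 1) : ℕ) : ℝ) =
        s * ((s + 1).ascFactorial l.length : ℕ) := by
      have := Nat.succ_ascFactorial s l.length
      rw [Nat.ascFactorial_succ, ← this]
      push_cast
      ring
    have hlen : s + (h :: l).length = s + 1 + l.length := by
      rw [List.length_cons]
      ring
    have hprod : (((h :: l).prod : ℕ) : ℝ) = h * (l.prod : ℕ) := by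
      rw [List.prod_cons]
      push_cast
      ring
    have hsum : (((h :: l).sum : ℕ) : ℝ) = h + (l.sum : ℕ) := by
      rw [List.sum_cons]
      push_cast
      ring
    rw [hξ, hlen, hprod, hsum, List.length_cons, hasc]
    have hs0 : (0 : ℝ) ≤ (h : ℝ) * s := by positivity
    constructor
    · have h1 : ((l.prod : ℕ) : ℝ) * ((s + 1).ascFactorial l.length : ℕ) /
          (x + (h + (l.sum : ℕ))) ^ (s + 1 + l.length) ≤ vv (s + 1) l ξ := by
        refine le_trans ?_ b1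
        apply div_le_div_of_nonneg_left (by positivity) (by positivity)
        apply pow_le_pow_left₀ (by positivity)
        linarith
      have h2 := mul_le_mul_of_nonneg_left h1 hs0
      refine le_trans (le_of_eq ?_) (h2.trans (le_of_eq ?_))
      · ring
      · ring
    · have h1 : vv (s + 1) l ξ ≤ ((l.prod : ℕ) : ℝ) * ((s + 1).ascFactorial l.length : ℕ) /
          x ^ (s + 1 + l.length) := by
        refine b2.trans ?_
        apply div_le_div_of_nonneg_left (by positivity) (by positivity)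
        exact pow_le_pow_left₀ hx.le hξ1 _
      have h2 := mul_le_mul_of_nonneg_left h1 hs0
      refine le_trans (le_of_eq ?_) (h2.trans (le_of_eq ?_))
      · ring
      · ring

theorem vv_pos (l : List ℕ) (hl : ∀ h ∈ l, 1 ≤ h) (s : ℕ) (hs : 1 ≤ s) (x : ℝ) (hx : 0 < x) : 0 < vv s l x := by
  refine lt_of_lt_of_le ?_ (vv_bounds l hl s hs x hx).1
  have h1 : 0 < l.prod := List.prod_pos (fun h hh => hl h hh)
  have h2 : 0 < s.ascFactorial l.length := by
    obtain ⟨k, rfl⟩ : ∃ k, s = k + 1 := ⟨s - 1, by omega⟩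
    exact Nat.ascFactorial_pos _ _
  have h3 : (0 : ℝ) < (l.prod : ℕ) := by exact_mod_cast h1
  have h4 : (0 : ℝ) < (s.ascFactorial l.length : ℕ) := by exact_mod_cast h2
  positivity

/-- Differences of consecutive values of `vv 1 l`: `vv 1 l n - vv 1 l (n+1) = vv 1 (1 :: l) n`; apply `vv_bounds` to `1 :: l`. -/
theorem vv_step (l : List ℕ) (hl : ∀ h ∈ l, 1 ≤ h) (x : ℝ) (hx : 0 < x) :
    ((l.prod : ℕ) : ℝ) * ((l.length + 1).factorial : ℕ) / (x + 1 + (l.sum : ℕ)) ^ (l.length + 2) ≤ vv 1 l x - vv 1 l (x + 1) ∧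
    vv 1 l x - vv 1 l (x + 1) ≤ ((l.prod : ℕ) : ℝ) * ((l.length + 1).factorial : ℕ) / x ^ (l.length + 2) := by
  have h1 := vv_bounds (1 :: l) (by
    intro h hh
    rcases List.mem_cons.1 hh with h2 | h2
    · exact h2.ge
    · exact hl h h2) 1 le_rfl x hx
  have h2 : vv 1 (1 :: l) x = vv 1 l x - vv 1 l (x + 1) := by
    show vv 1 l x - vv 1 l (x + ((1 : ℕ) : ℝ)) = _
    rw [Nat.cast_one]
  have h3 : (1 : ℕ).ascFactorial (l.length + 1) = (l.length + 1).factorial :=
    Nat.one_ascFactorial _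
  rw [h2, List.length_cons, List.prod_cons, one_mul, List.sum_cons, h3] at h1
  have h4 : 1 + (l.length + 1) = l.length + 2 := by ring
  have h5 : x + ((1 + l.sum : ℕ) : ℝ) = x + 1 + (l.sum : ℕ) := by
    push_cast
    ring
  rw [h4, h5] at h1
  exact h1

/-- second differences are positive: apply `vv_pos` to `1 :: 1 :: l`. -/
theorem vv_convex (l : List ℕ) (hl : ∀ h ∈ l, 1 ≤ h) (x : ℝ) (hx : 0 < x) :
    vv 1 l (x + 1) - vv 1 l (x + 2) ≤ vv 1 l x - vv 1 l (x + 1) := by
  have h1 := vv_pos (1 :: 1 :: l) (by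
    intro h hh
    rcases List.mem_cons.1 hh with h2 | h2
    · exact h2.ge
    · rcases List.mem_cons.1 h2 with h3 | h3
      · exact h3.ge
      · exact hl h h3) 1 le_rfl x hx
  have h2 : vv 1 (1 :: 1 :: l) x = (vv 1 l x - vv 1 l (x + 1)) -
      (vv 1 l (x + 1) - vv 1 l (x + 2)) := by
    show (vv 1 l x - vv 1 l (x + ((1 : ℕ) : ℝ))) -
      (vv 1 l (x + ((1 : ℕ) : ℝ)) - vv 1 l (x + ((1 : ℕ) : ℝ) + ((1 : ℕ) : ℝ))) = _
    rw [Nat.cast_one]
    have h3 : x + 1 + 1 = x + 2 := by ring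
    rw [h3]
  rw [h2] at h1
  linarith

end Pool.Agent.Lib.MP_50b5e1_nt
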