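import Mathlib
import Pool.Agent.Lib.MP_2a816b_nt.Expo

/-!
# X/KL: the Kusmin-Landau inequality

Proof of `kusmin_landau`.  Let `δ n = F (n+1) - F n ∈ [θ,1/2]` for `a ≤ n`, `n+1 < b`, nonincreasing.  If `b ≤ a+1` the sum has
at most one term, and `1 ≤ 2/θ`.  Let `b ≥ a+2`, `c n = 1/(1 - e (δ n)) = (1 + i cot (π δ n))/2`.  Then `e (F n) = (e (F n) - e (F (n+1))) c n`, so
by partial summation
`∑_{n=a}^{b-1} e (F n) = e (F (b-1)) + e (F a) c a - e (F (b-1)) c (b-2) + ∑_{n=a+1}^{b-2} e (F n) (c n - c (n-1))`.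
`|1 - e δ| = 2 sin (π δ) ≥ 4 δ ≥ 4 θ`, so `‖c n‖ ≤ 1/(4θ)`.  `c n - c (n-1) = i (cot (π δ n) - cot (π δ (n-1)))/2` has norm
`(cot (π δ n) - cot (π δ (n-1)))/2` (`cot` is decreasing on `(0,π/2]` and `δ` is nonincreasing), and these numbers telescope to at most
`cot (π δ (b-2))/2 ≤ 1/(2 π θ) ≤ 1/(4 θ)` (`0 ≤ cot (π δ) ≤ 1/(π δ)` on `(0,1/2]`, from `tan x ≥ x`).
Total: `1 + 3/(4θ) ≤ 2/θ` since `1 ≤ 1/(2θ)`.
-/

open Finset Real
open Pool.Agent.Lib.MP_2a816b_nt (e norm_e conj_e e_add e_neg)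

namespace Pool.Agent.Lib.MP_50b5e1_nt

/-- cotangent of `π x` -/
private noncomputable def KLcot (x : ℝ) : ℝ := cos (π * x) / sin (π * x)

private theorem KL_sin_pos (x : ℝ) (h0 : 0 < x) (h1 : x ≤ 1 / 2) : 0 < sin (π * x) := by
  apply sin_pos_of_pos_of_lt_pi
  · exact mul_pos pi_pos h0
  · nlinarith [pi_pos]

private theorem KL_alg (S C : ℝ) (hS : S ≠ 0) (h : S ^ 2 + C ^ 2 = 1) :
    (1 - (((C ^ 2 - S ^ 2 : ℝ) : ℂ) + ((2 * S * C : ℝ) : ℂ) * Complex.I)) *
      (1 / 2 + ((C / S / 2 : ℝ) : ℂ) * Complex.I) = 1 := by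
  have h2 : (1 : ℂ) / 2 + ((C / S / 2 : ℝ) : ℂ) * Complex.I =
      ((1 / 2 : ℝ) : ℂ) + ((C / S / 2 : ℝ) : ℂ) * Complex.I := by
    push_cast
    ring
  rw [h2]
  have h3 : (1 - (C ^ 2 - S ^ 2)) * (1 / 2) + 2 * S * C * (C / S / 2) = 1 := by
    field_simp
    linear_combination h
  have h4 : (1 - (C ^ 2 - S ^ 2)) * (C / S / 2) - 2 * S * C * (1 / 2) = 0 := by
    field_simp
    linear_combination (-C) * h
  apply Complex.ext
  · simp only [Complex.mul_re, Complex.sub_re, Complex.one_re, Complex.add_re, Complex.ofReal_re,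
      Complex.mul_im, Complex.sub_im, Complex.one_im, Complex.add_im, Complex.ofReal_im,
      Complex.I_re, Complex.I_im, mul_zero, mul_one, zero_mul, sub_zero, add_zero, zero_add]
    linear_combination h3
  · simp only [Complex.mul_re, Complex.sub_re, Complex.one_re, Complex.add_re, Complex.ofReal_re,
      Complex.mul_im, Complex.sub_im, Complex.one_im, Complex.add_im, Complex.ofReal_im,
      Complex.I_re, Complex.I_im, mul_zero, mul_one, zero_mul, sub_zero, add_zero, zero_add]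
    linear_combination h4

private theorem KL_inv (x : ℝ) (h0 : 0 < x) (h1 : x ≤ 1 / 2) :
    (1 : ℂ) / (1 - e x) = 1 / 2 + (KLcot x / 2 : ℝ) * Complex.I := by
  have hs := KL_sin_pos x h0 h1
  have he : e x = ((cos (π * x) ^ 2 - sin (π * x) ^ 2 : ℝ) : ℂ) +
      ((2 * sin (π * x) * cos (π * x) : ℝ) : ℂ) * Complex.I := by
    rw [← cos_two_mul', ← sin_two_mul]
    unfold Pool.Agent.Lib.MP_2a816b_nt.e
    rw [Complex.exp_mul_I]
    push_cast
    ring_nf
  have h2 : (1 - e x) * (1 / 2 + (KLcot x / 2 : ℝ) * Complex.I) = 1 := by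
    rw [he]
    exact KL_alg _ _ hs.ne' (sin_sq_add_cos_sq (π * x))
  have h3 : (1 - e x) ≠ 0 := by
    intro h
    rw [h, zero_mul] at h2
    exact zero_ne_one h2
  rw [div_eq_iff h3, mul_comm]
  exact h2.symm

private theorem KL_anti (x y : ℝ) (h0 : 0 < x) (hxy : x ≤ y) (h1 : y ≤ 1 / 2) :
    KLcot y ≤ KLcot x := by
  have hsx := KL_sin_pos x h0 (hxy.trans h1)
  have hsy := KL_sin_pos y (h0.trans_le hxy) h1
  unfold KLcot
  rw [div_le_div_iff₀ hsy hsx]
  have h2 : 0 ≤ sin (π * y - π * x) := by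
    apply sin_nonneg_of_nonneg_of_le_pi
    · nlinarith [pi_pos]
    · nlinarith [pi_pos]
  rw [sin_sub] at h2
  linarith

private theorem KL_cot_nonneg (x : ℝ) (h0 : 0 < x) (h1 : x ≤ 1 / 2) : 0 ≤ KLcot x := by
  have hs := KL_sin_pos x h0 h1
  unfold KLcot
  apply div_nonneg _ hs.le
  apply cos_nonneg_of_neg_pi_div_two_le_of_le
  · nlinarith [pi_pos]
  · nlinarith [pi_pos]

private theorem KL_cot_le (x : ℝ) (h0 : 0 < x) (h1 : x ≤ 1 / 2) : KLcot x ≤ 1 / (2 * x) := by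
  have hs := KL_sin_pos x h0 h1
  unfold KLcot
  rw [div_le_div_iff₀ hs (by positivity), one_mul]
  have h2 : 2 / π * (π * x) ≤ sin (π * x) :=
    mul_le_sin (by positivity) (by nlinarith [pi_pos])
  have h3 : 2 / π * (π * x) = 2 * x := by
    field_simp
  rw [h3] at h2
  have h4 := cos_le_one (π * x)
  nlinarith

private theorem KL_norm (x θ : ℝ) (hθ : 0 < θ) (h0 : θ ≤ x) (h1 : x ≤ 1 / 2) :
    ‖(1 : ℂ) / (1 - e x)‖ ≤ 1 / (4 * θ) := by
  have hx : 0 < x := hθ.trans_le h0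
  rw [norm_div, norm_one, ← norm_neg, neg_sub, Pool.Agent.Lib.MP_2a816b_nt.norm_e_sub_one,
    abs_of_pos (KL_sin_pos x hx h1)]
  apply one_div_le_one_div_of_le (by positivity)
  have h2 : 2 / π * (π * x) ≤ sin (π * x) :=
    mul_le_sin (by positivity) (by nlinarith [pi_pos])
  have h3 : 2 / π * (π * x) = 2 * x := by
    field_simp
  rw [h3] at h2
  linarith

private theorem KL_diff (x y : ℝ) (h0 : 0 < x) (hxy : x ≤ y) (h1 : y ≤ 1 / 2) :
    ‖(1 : ℂ) / (1 - e x) - 1 / (1 - e y)‖ = (KLcot x - KLcot y) / 2 := by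
  rw [KL_inv x h0 (hxy.trans h1), KL_inv y (h0.trans_le hxy) h1]
  have h2 : (1 / 2 + ((KLcot x / 2 : ℝ) : ℂ) * Complex.I -
      (1 / 2 + ((KLcot y / 2 : ℝ) : ℂ) * Complex.I)) =
      (((KLcot x - KLcot y) / 2 : ℝ) : ℂ) * Complex.I := by
    push_cast
    ring
  rw [h2, norm_mul, Complex.norm_I, mul_one, Complex.norm_real, Real.norm_eq_abs, abs_of_nonneg]
  have := KL_anti x y h0 hxy h1
  linarith

/-- the partially summed expression -/
private theorem KL_T (f : ℕ → ℝ) (m : ℕ) (θ : ℝ) (hθ : 0 < θ)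
    (hlow : ∀ k, k < m + 1 → θ ≤ f (k + 1) - f k)
    (hup : ∀ k, k < m + 1 → f (k + 1) - f k ≤ 1 / 2)
    (hmono : ∀ k, k < m → f (k + 2) - f (k + 1) ≤ f (k + 1) - f k) :
    ‖∑ k ∈ range (m + 2), e (f k) - e (f (m + 1)) +
      e (f (m + 1)) * (1 / (1 - e (f (m + 1) - f m)))‖ ≤
      1 / (4 * θ) + (KLcot (f (m + 1) - f m) - KLcot (f 1 - f 0)) / 2 := by
  have hne : ∀ k, k < m + 1 → (1 - e (f (k + 1) - f k)) ≠ 0 := by
    intro k hk h
    have h1 := KL_inv (f (k + 1) - f k) (hθ.trans_le (hlow k hk)) (hup k hk)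
    have h2 : ‖(1 : ℂ) - e (f (k + 1) - f k)‖ ≠ 0 := by
      rw [← norm_neg, neg_sub, Pool.Agent.Lib.MP_2a816b_nt.norm_e_sub_one]
      have := KL_sin_pos (f (k + 1) - f k) (hθ.trans_le (hlow k hk)) (hup k hk)
      positivity
    rw [h, norm_zero] at h2
    exact h2 rfl
  have hstep : ∀ k, k < m + 1 → e (f k) = (e (f k) - e (f (k + 1))) *
      (1 / (1 - e (f (k + 1) - f k))) := by
    intro k hk
    have h1 : e (f (k + 1)) = e (f k) * e (f (k + 1) - f k) := by
      rw [← e_add]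
      congr 1
      ring
    rw [h1]
    have h2 := hne k hk
    field_simp
  induction m with
  | zero =>
    rw [sum_range_succ, sum_range_one]
    have h1 := hstep 0 (by norm_num)
    have h2 : e (f 0) + e (f (0 + 1)) - e (f (0 + 1)) +
        e (f (0 + 1)) * (1 / (1 - e (f (0 + 1) - f 0))) =
        e (f 0) * (1 / (1 - e (f (0 + 1) - f 0))) := by
      have h3 : e (f 0) = (e (f 0) - e (f (0 + 1))) * (1 / (1 - e (f (0 + 1) - f 0))) := h1
      linear_combination h3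
    rw [h2, norm_mul, norm_e, one_mul]
    have h3 := KL_norm (f (0 + 1) - f 0) θ hθ (hlow 0 (by norm_num)) (hup 0 (by norm_num))
    simp only [zero_add, sub_self, zero_div, add_zero] at h3 ⊢
    exact h3
  | succ m ih =>
    have ih' := ih (fun k hk => hlow k (by omega)) (fun k hk => hup k (by omega))
      (fun k hk => hmono k (by omega)) (fun k hk => hne k (by omega))
      (fun k hk => hstep k (by omega))
    have h1 : ∑ k ∈ range (m + 1 + 2), e (f k) - e (f (m + 1 + 1)) +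
        e (f (m + 1 + 1)) * (1 / (1 - e (f (m + 1 + 1) - f (m + 1)))) =
        (∑ k ∈ range (m + 2), e (f k) - e (f (m + 1)) +
          e (f (m + 1)) * (1 / (1 - e (f (m + 1) - f m)))) +
        e (f (m + 1)) * (1 / (1 - e (f (m + 1 + 1) - f (m + 1))) -
          1 / (1 - e (f (m + 1) - f m))) := by
      rw [sum_range_succ _ (m + 2)]
      have h3 := hstep (m + 1) (by omega)
      have e1 : f (m + 2) = f (m + 1 + 1) := rfl
      rw [e1]
      linear_combination h3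
    rw [h1]
    refine (norm_add_le _ _).trans ?_
    rw [norm_mul, norm_e, one_mul]
    have h2 := KL_diff (f (m + 1 + 1) - f (m + 1)) (f (m + 1) - f m)
      (hθ.trans_le (hlow (m + 1) (by omega))) (hmono m (by omega)) (hup m (by omega))
    rw [h2]
    linarith

/-- Kusmin-Landau -/
theorem kusmin_landau (F : ℕ → ℝ) (a b : ℕ) (θ : ℝ) (hθ : 0 < θ) (hθ2 : θ ≤ 1 / 2)
    (hlow : ∀ n, a ≤ n → n + 1 < b → θ ≤ F (n + 1) - F n)
    (hup : ∀ n, a ≤ n → n + 1 < b → F (n + 1) - F n ≤ 1 / 2)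
    (hmono : ∀ n, a ≤ n → n + 2 < b → F (n + 2) - F (n + 1) ≤ F (n + 1) - F n) :
    ‖∑ n ∈ Ico a b, e (F n)‖ ≤ 2 / θ := by
  have h1θ : 1 ≤ 1 / (2 * θ) := by
    rw [le_div_iff₀ (by positivity)]
    linarith
  have h2θ : 2 / θ = 4 * (1 / (2 * θ)) := by
    field_simp
    norm_num
  rcases Nat.lt_or_ge (a + 1) b with hb | hb
  · obtain ⟨m, rfl⟩ : ∃ m, b = a + (m + 2) := ⟨b - a - 2, by omega⟩
    have hs : ∑ n ∈ Ico a (a + (m + 2)), e (F n) = ∑ k ∈ range (m + 2), e (F (a + k)) := by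
      rw [sum_Ico_eq_sum_range, Nat.add_sub_cancel_left]
    rw [hs]
    have hlow' : ∀ k, k < m + 1 → θ ≤ F (a + (k + 1)) - F (a + k) := fun k hk =>
      hlow (a + k) (by omega) (by omega)
    have hup' : ∀ k, k < m + 1 → F (a + (k + 1)) - F (a + k) ≤ 1 / 2 := fun k hk =>
      hup (a + k) (by omega) (by omega)
    have hT := KL_T (fun k => F (a + k)) m θ hθ hlow' hup'
      (fun k hk => hmono (a + k) (by omega) (by omega))
    have h3 := KL_norm (F (a + (m + 1)) - F (a + m)) θ hθ (hlow' m (by omega)) (hup' m (by omega))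
    have h4 := KL_cot_le (F (a + (m + 1)) - F (a + m)) (hθ.trans_le (hlow' m (by omega)))
      (hup' m (by omega))
    have h5 := KL_cot_nonneg (F (a + 1) - F (a + 0))
      (hθ.trans_le (hlow' 0 (by omega))) (hup' 0 (by omega))
    have h6 : 1 / (2 * (F (a + (m + 1)) - F (a + m))) ≤ 1 / (2 * θ) := by
      apply one_div_le_one_div_of_le (by positivity)
      have := hlow' m (by omega)
      linarith
    have h7 : 1 / (4 * θ) = (1 / (2 * θ)) / 2 := by
      field_simp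
      norm_num
    rw [h7] at hT h3
    have h8 : ∑ k ∈ range (m + 2), e (F (a + k)) =
        (∑ k ∈ range (m + 2), e (F (a + k)) - e (F (a + (m + 1))) +
          e (F (a + (m + 1))) * (1 / (1 - e (F (a + (m + 1)) - F (a + m))))) +
        e (F (a + (m + 1))) -
          e (F (a + (m + 1))) * (1 / (1 - e (F (a + (m + 1)) - F (a + m)))) := by
      ring
    rw [h8, h2θ]
    refine (norm_sub_le _ _).trans ?_
    rw [norm_mul (e (F (a + (m + 1)))), norm_e, one_mul]
    have h9 := norm_add_le (∑ k ∈ range (m + 2), e (F (a + k)) - e (F (a + (m + 1))) +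
          e (F (a + (m + 1))) * (1 / (1 - e (F (a + (m + 1)) - F (a + m)))))
          (e (F (a + (m + 1))))
    rw [norm_e] at h9
    linarith
  · have h3 : (Ico a b).card ≤ 1 := by
      rw [Nat.card_Ico]
      omega
    have h4 : ‖∑ n ∈ Ico a b, e (F n)‖ ≤ (Ico a b).card := by
      refine (norm_sum_le _ _).trans ?_
      rw [sum_congr rfl fun n _ => norm_e (F n), sum_const, nsmul_eq_mul, mul_one]
    have h5 : ((Ico a b).card : ℝ) ≤ 1 := by exact_mod_cast h3
    rw [h2θ]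
    linarith

end Pool.Agent.Lib.MP_50b5e1_nt
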