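import Mathlib
import Pool.Agent.Lib.MP_2a816b_nt.Expo

/-!
# X/VdC: van der Corput's inequality

Proof of `vdc_ineq`.  Extend `z` by `0` outside `[a,b)`.  Every `z n` occurs exactly `H` times in the double sum
`∑_m ∑_{k<H} z (m+k)`, where `m` runs over the `N+H-1` integers from `a-(H-1)` to `b-1` (`N = b-a`).  So
`H * ∑ z = ∑_m ∑_k z (m+k)`, and by Cauchy-Schwarz `H² ‖∑ z‖² ≤ (N+H-1) ∑_m ‖∑_k z (m+k)‖²`
`= (N+H-1) ∑_{k,k'<H} ∑_m z (m+k) conj (z (m+k'))`.  For `k = k'` the inner sum is `∑ ‖z n‖² `, for `k ≠ k'` its norm is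
`‖∑_{n, n+h ∈ [a,b)} z (n+h) conj (z n)‖` with `h = |k-k'|`; for given `h ∈ [1,H)` there are at most `2H` such pairs `(k,k')`.
As `N+H-1 ≤ 2N` the claim follows.  (To avoid negative numbers index by `m ∈ range (N+H-1)` and use
`w m k = if H-1 ≤ m+k ∧ m+k < H-1+N then z (a+m+k-(H-1)) else 0`, or work with `ℤ`.)
-/

open Finset Real
open Pool.Agent.Lib.MP_2a816b_nt (e norm_e conj_e e_add e_neg)

namespace Pool.Agent.Lib.MP_50b5e1_nt

/-- `z` shifted and extended by zero -/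
private noncomputable def VdC_u (z : ℕ → ℂ) (a N P : ℕ) (j : ℕ) : ℂ :=
  if P ≤ j ∧ j < P + N then z (a + (j - P)) else 0

private lemma VdC_sum (g : ℕ → ℂ) (P N k M : ℕ) (hk : k ≤ P) (hM : P + N ≤ k + M)
    (hg : ∀ j, ¬ (P ≤ j ∧ j < P + N) → g j = 0) :
    ∑ m ∈ range M, g (m + k) = ∑ i ∈ range N, g (P + i) := by
  have h1 : ∑ m ∈ range M, g (m + k) = ∑ j ∈ Ico k (k + M), g j := by
    rw [Finset.sum_Ico_eq_sum_range]
    have : k + M - k = M := by omega
    rw [this]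
    exact Finset.sum_congr rfl fun m _ => by rw [add_comm]
  have h2 : ∑ i ∈ range N, g (P + i) = ∑ j ∈ Ico P (P + N), g j := by
    rw [Finset.sum_Ico_eq_sum_range]
    have : P + N - P = N := by omega
    rw [this]
  rw [h1, h2]
  symm
  apply Finset.sum_subset
  · intro j hj
    rw [mem_Ico] at hj ⊢
    omega
  · intro j _ hj
    apply hg
    rwa [mem_Ico] at hj

private lemma VdC_T (z : ℕ → ℂ) (a N P k h M : ℕ) (hk : k ≤ P) (hM : P + N ≤ k + M)
    (hh : h ≤ N) :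
    ∑ m ∈ range M, VdC_u z a N P (m + (k + h)) * (starRingEnd ℂ) (VdC_u z a N P (m + k)) =
      ∑ n ∈ Ico a (a + N - h), z (n + h) * (starRingEnd ℂ) (z n) := by
  have h1 := VdC_sum (fun j => VdC_u z a N P (j + h) * (starRingEnd ℂ) (VdC_u z a N P j))
    P (N - h) k M hk (by omega) (by
      intro j hj
      simp only [VdC_u]
      by_cases h1 : P ≤ j ∧ j < P + N
      · have h2 : ¬ (P ≤ j + h ∧ j + h < P + N) := by omega
        rw [if_neg h2, zero_mul]
      · rw [if_neg h1, map_zero, mul_zero])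
  have h2 : ∑ m ∈ range M, VdC_u z a N P (m + (k + h)) * (starRingEnd ℂ) (VdC_u z a N P (m + k))
      = ∑ m ∈ range M, (fun j => VdC_u z a N P (j + h) *
        (starRingEnd ℂ) (VdC_u z a N P j)) (m + k) := by
    apply Finset.sum_congr rfl
    intro m _
    simp only [add_assoc]
  rw [h2, h1, Finset.sum_Ico_eq_sum_range]
  have h3 : a + N - h - a = N - h := by omega
  rw [h3]
  apply Finset.sum_congr rfl
  intro i hi
  rw [mem_range] at hi
  simp only [VdC_u]
  rw [if_pos (by omega), if_pos (by omega)]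
  have e1 : a + (P + i + h - P) = a + i + h := by omega
  have e2 : a + (P + i - P) = a + i := by omega
  rw [e1, e2]

/-- van der Corput's inequality -/
theorem vdc_ineq (z : ℕ → ℂ) (a b H : ℕ) (hab : a ≤ b) (hH : 1 ≤ H) (hHN : H ≤ b - a) :
    ‖∑ n ∈ Ico a b, z n‖ ^ 2 ≤ 2 * ((b : ℝ) - a) / H *
      (∑ n ∈ Ico a b, ‖z n‖ ^ 2 +
        2 * ∑ h ∈ Ico 1 H, ‖∑ n ∈ Ico a (b - h), z (n + h) * (starRingEnd ℂ) (z n)‖) := by
  obtain ⟨N, rfl⟩ : ∃ N, b = a + N := ⟨b - a, by omega⟩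
  have hHN' : H ≤ N := by omega
  obtain ⟨P, rfl⟩ : ∃ P, H = P + 1 := ⟨H - 1, by omega⟩
  obtain ⟨M, hM⟩ : ∃ M, M = N + P := ⟨_, rfl⟩
  obtain ⟨u, hu⟩ : ∃ u : ℕ → ℂ, u = VdC_u z a N P := ⟨_, rfl⟩
  obtain ⟨C, hC⟩ : ∃ C : ℕ → ℝ, C = fun h =>
    ‖∑ n ∈ Ico a (a + N - h), z (n + h) * (starRingEnd ℂ) (z n)‖ := ⟨_, rfl⟩
  have hC0 : ∀ h, 0 ≤ C h := fun h => by rw [hC]; exact norm_nonneg _
  -- the diagonal term
  have hC00 : C 0 = ∑ n ∈ Ico a (a + N), ‖z n‖ ^ 2 := by
    rw [hC]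
    simp only [Nat.sub_zero, add_zero]
    have : ∑ n ∈ Ico a (a + N), z n * (starRingEnd ℂ) (z n) =
        ((∑ n ∈ Ico a (a + N), ‖z n‖ ^ 2 : ℝ) : ℂ) := by
      push_cast
      apply Finset.sum_congr rfl
      intro n _
      rw [Complex.mul_conj, Complex.normSq_eq_norm_sq]
      push_cast
      rfl
    rw [this, Complex.norm_real, Real.norm_eq_abs, abs_of_nonneg]
    exact Finset.sum_nonneg fun n _ => by positivity
  -- the sum as an average
  have hS : ∀ k ∈ range (P + 1), ∑ m ∈ range M, u (m + k) = ∑ n ∈ Ico a (a + N), z n := by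
    intro k hk
    rw [mem_range] at hk
    rw [VdC_sum u P N k M (by omega) (by omega) (by
      intro j hj
      rw [hu]
      simp only [VdC_u]
      rw [if_neg hj]), Finset.sum_Ico_eq_sum_range]
    have h3 : a + N - a = N := by omega
    rw [h3]
    apply Finset.sum_congr rfl
    intro i hi
    rw [mem_range] at hi
    rw [hu]
    simp only [VdC_u]
    rw [if_pos (by omega)]
    congr 1
    omega
  have hHS : (((P + 1 : ℕ) : ℂ)) * ∑ n ∈ Ico a (a + N), z n =
      ∑ m ∈ range M, ∑ k ∈ range (P + 1), u (m + k) := by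
    rw [Finset.sum_comm, Finset.sum_congr rfl hS, Finset.sum_const, card_range, nsmul_eq_mul]
  have hCS : (((P + 1 : ℕ) : ℝ)) ^ 2 * ‖∑ n ∈ Ico a (a + N), z n‖ ^ 2 ≤
      M * ∑ m ∈ range M, ‖∑ k ∈ range (P + 1), u (m + k)‖ ^ 2 := by
    have h1 : ((P + 1 : ℕ) : ℝ) * ‖∑ n ∈ Ico a (a + N), z n‖ ≤
        ∑ m ∈ range M, ‖∑ k ∈ range (P + 1), u (m + k)‖ := by
      have h2 : ((P + 1 : ℕ) : ℝ) * ‖∑ n ∈ Ico a (a + N), z n‖ =
          ‖(((P + 1 : ℕ) : ℂ)) * ∑ n ∈ Ico a (a + N), z n‖ := by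
        rw [norm_mul, Complex.norm_natCast]
      rw [h2, hHS]
      exact norm_sum_le _ _
    have h3 := sq_sum_le_card_mul_sum_sq (s := range M)
      (f := fun m => ‖∑ k ∈ range (P + 1), u (m + k)‖)
    rw [card_range] at h3
    rw [← mul_pow]
    exact (pow_le_pow_left₀ (by positivity) h1 2).trans h3
  -- expansion of the squares
  have hEx : ((∑ m ∈ range M, ‖∑ k ∈ range (P + 1), u (m + k)‖ ^ 2 : ℝ) : ℂ) =
      ∑ k ∈ range (P + 1), ∑ k' ∈ range (P + 1),
        ∑ m ∈ range M, u (m + k) * (starRingEnd ℂ) (u (m + k')) := by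
    have h1 : ((∑ m ∈ range M, ‖∑ k ∈ range (P + 1), u (m + k)‖ ^ 2 : ℝ) : ℂ) =
        ∑ m ∈ range M, ∑ k ∈ range (P + 1), ∑ k' ∈ range (P + 1),
          u (m + k) * (starRingEnd ℂ) (u (m + k')) := by
      push_cast
      apply Finset.sum_congr rfl
      intro m _
      have : (‖∑ k ∈ range (P + 1), u (m + k)‖ : ℂ) ^ 2 =
          (∑ k ∈ range (P + 1), u (m + k)) *
            (starRingEnd ℂ) (∑ k ∈ range (P + 1), u (m + k)) := by
        rw [Complex.mul_conj, Complex.normSq_eq_norm_sq]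
        push_cast
        rfl
      rw [this, map_sum, Finset.sum_mul_sum]
    rw [h1, Finset.sum_comm]
    apply Finset.sum_congr rfl
    intro k _
    rw [Finset.sum_comm]
  have hT : ∀ k ∈ range (P + 1), ∀ k' ∈ range (P + 1),
      ‖∑ m ∈ range M, u (m + k) * (starRingEnd ℂ) (u (m + k'))‖ =
        if k' ≤ k then C (k - k') else C (k' - k) := by
    intro k hk k' hk'
    rw [mem_range] at hk hk'
    split_ifs with hle
    · have := VdC_T z a N P k' (k - k') M (by omega) (by omega) (by omega)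
      rw [← hu] at this
      have e1 : k' + (k - k') = k := by omega
      rw [e1] at this
      rw [this, hC]
    · have := VdC_T z a N P k (k' - k) M (by omega) (by omega) (by omega)
      rw [← hu] at this
      have e1 : k + (k' - k) = k' := by omega
      rw [e1] at this
      rw [hC]
      simp only
      rw [← this]
      have e2 : (starRingEnd ℂ) (∑ m ∈ range M, u (m + k') * (starRingEnd ℂ) (u (m + k))) =
          ∑ m ∈ range M, u (m + k) * (starRingEnd ℂ) (u (m + k')) := by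
        rw [map_sum]
        apply Finset.sum_congr rfl
        intro m _
        rw [map_mul, Complex.conj_conj, mul_comm]
      rw [← e2, RCLike.norm_conj]
  have hrow : ∀ k ∈ range (P + 1), ∑ k' ∈ range (P + 1),
      (if k' ≤ k then C (k - k') else C (k' - k)) ≤ C 0 + 2 * ∑ h ∈ Ico 1 (P + 1), C h := by
    intro k hk
    rw [mem_range] at hk
    have hsplit : ∑ k' ∈ range (P + 1), (if k' ≤ k then C (k - k') else C (k' - k)) =
        ∑ k' ∈ range (k + 1), C (k - k') + ∑ k' ∈ Ico (k + 1) (P + 1), C (k' - k) := by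
      rw [← Finset.sum_range_add_sum_Ico _ (show k + 1 ≤ P + 1 by omega)]
      congr 1
      · apply Finset.sum_congr rfl
        intro j hj
        rw [mem_range] at hj
        rw [if_pos (by omega)]
      · apply Finset.sum_congr rfl
        intro j hj
        rw [mem_Ico] at hj
        rw [if_neg (by omega)]
    have h1 : ∑ k' ∈ range (k + 1), C (k - k') = ∑ j ∈ range (k + 1), C j := by
      have := Finset.sum_range_reflect C (k + 1)
      rw [← this]
      apply Finset.sum_congr rfl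
      intro j _
      congr 1
    have h2 : ∑ j ∈ range (k + 1), C j ≤ C 0 + ∑ h ∈ Ico 1 (P + 1), C h := by
      rw [Finset.range_eq_Ico, Finset.sum_eq_sum_Ico_succ_bot (by omega)]
      have : ∑ j ∈ Ico (0 + 1) (k + 1), C j ≤ ∑ h ∈ Ico 1 (P + 1), C h := by
        apply Finset.sum_le_sum_of_subset_of_nonneg
        · intro j hj
          rw [mem_Ico] at hj ⊢
          omega
        · intro j _ _
          exact hC0 j
      linarith
    have h3 : ∑ k' ∈ Ico (k + 1) (P + 1), C (k' - k) ≤ ∑ h ∈ Ico 1 (P + 1), C h := by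
      have : ∑ k' ∈ Ico (k + 1) (P + 1), C (k' - k) = ∑ h ∈ Ico 1 (P + 1 - k), C h := by
        rw [Finset.sum_Ico_eq_sum_range, Finset.sum_Ico_eq_sum_range]
        have e : P + 1 - (k + 1) = P + 1 - k - 1 := by omega
        rw [e]
        apply Finset.sum_congr rfl
        intro j _
        congr 1
        omega
      rw [this]
      apply Finset.sum_le_sum_of_subset_of_nonneg
      · intro j hj
        rw [mem_Ico] at hj ⊢
        omega
      · intro j _ _
        exact hC0 j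
    rw [hsplit, h1]
    linarith
  have hbound : ∑ m ∈ range M, ‖∑ k ∈ range (P + 1), u (m + k)‖ ^ 2 ≤
      ((P + 1 : ℕ) : ℝ) * (C 0 + 2 * ∑ h ∈ Ico 1 (P + 1), C h) := by
    have hnn : 0 ≤ ∑ m ∈ range M, ‖∑ k ∈ range (P + 1), u (m + k)‖ ^ 2 :=
      Finset.sum_nonneg fun m _ => by positivity
    calc ∑ m ∈ range M, ‖∑ k ∈ range (P + 1), u (m + k)‖ ^ 2
        = ‖((∑ m ∈ range M, ‖∑ k ∈ range (P + 1), u (m + k)‖ ^ 2 : ℝ) : ℂ)‖ := by
          rw [Complex.norm_real, Real.norm_eq_abs, abs_of_nonneg hnn]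
      _ ≤ ∑ k ∈ range (P + 1), ∑ k' ∈ range (P + 1),
            ‖∑ m ∈ range M, u (m + k) * (starRingEnd ℂ) (u (m + k'))‖ := by
          rw [hEx]
          refine (norm_sum_le _ _).trans ?_
          exact Finset.sum_le_sum fun k _ => norm_sum_le _ _
      _ = ∑ k ∈ range (P + 1), ∑ k' ∈ range (P + 1),
            (if k' ≤ k then C (k - k') else C (k' - k)) := by
          apply Finset.sum_congr rfl
          intro k hk
          apply Finset.sum_congr rfl
          intro k' hk'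
          exact hT k hk k' hk'
      _ ≤ ∑ k ∈ range (P + 1), (C 0 + 2 * ∑ h ∈ Ico 1 (P + 1), C h) :=
          Finset.sum_le_sum hrow
      _ = ((P + 1 : ℕ) : ℝ) * (C 0 + 2 * ∑ h ∈ Ico 1 (P + 1), C h) := by
          rw [Finset.sum_const, card_range, nsmul_eq_mul]
  have hD0 : 0 ≤ C 0 + 2 * ∑ h ∈ Ico 1 (P + 1), C h := by
    have := Finset.sum_nonneg fun h (_ : h ∈ Ico 1 (P + 1)) => hC0 h
    have := hC0 0
    positivity
  have hMN : (M : ℝ) ≤ 2 * N := by
    have : M ≤ 2 * N := by omega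
    exact_mod_cast this
  have hfin : (((P + 1 : ℕ) : ℝ)) ^ 2 * ‖∑ n ∈ Ico a (a + N), z n‖ ^ 2 ≤
      (2 * N) * (((P + 1 : ℕ) : ℝ) * (C 0 + 2 * ∑ h ∈ Ico 1 (P + 1), C h)) := by
    refine hCS.trans ?_
    exact mul_le_mul hMN hbound (Finset.sum_nonneg fun m _ => by positivity) (by positivity)
  have hP : (0 : ℝ) < ((P + 1 : ℕ) : ℝ) := by positivity
  rw [← hC00]
  have hCh : ∀ h, C h = ‖∑ n ∈ Ico a (a + N - h), z (n + h) * (starRingEnd ℂ) (z n)‖ := by
    intro h
    rw [hC]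
  simp only [← hCh]
  have hNN : ((a + N : ℕ) : ℝ) - a = N := by push_cast; ring
  rw [hNN, div_mul_eq_mul_div, le_div_iff₀ hP]
  have h1 : (((P + 1 : ℕ) : ℝ)) * (‖∑ n ∈ Ico a (a + N), z n‖ ^ 2 * ((P + 1 : ℕ) : ℝ)) ≤
      ((P + 1 : ℕ) : ℝ) * (2 * N * (C 0 + 2 * ∑ h ∈ Ico 1 (P + 1), C h)) := by
    calc _ = (((P + 1 : ℕ) : ℝ)) ^ 2 * ‖∑ n ∈ Ico a (a + N), z n‖ ^ 2 := by ring
      _ ≤ _ := hfin
      _ = _ := by ring
  exact le_of_mul_le_mul_left h1 hP

/-- the case of unimodular numbers: immediate from `vdc_ineq` (`conj_e`, `e_add`, `norm_e`) -/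
theorem vdc (F : ℕ → ℝ) (a b H : ℕ) (hab : a ≤ b) (hH : 1 ≤ H) (hHN : H ≤ b - a) :
    ‖∑ n ∈ Ico a b, e (F n)‖ ^ 2 ≤ 2 * ((b : ℝ) - a) / H *
      (((b : ℝ) - a) + 2 * ∑ h ∈ Ico 1 H, ‖∑ n ∈ Ico a (b - h), e (F (n + h) - F n)‖) := by
  have h := vdc_ineq (fun n => e (F n)) a b H hab hH hHN
  have h1 : ∑ n ∈ Ico a b, ‖e (F n)‖ ^ 2 = (b : ℝ) - a := by
    simp only [norm_e, one_pow, Finset.sum_const, Nat.card_Ico, nsmul_eq_mul, mul_one]
    rw [Nat.cast_sub hab]
  rw [h1] at h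
  have h2 : ∀ h n, e (F (n + h)) * (starRingEnd ℂ) (e (F n)) = e (F (n + h) - F n) := by
    intro h n
    rw [conj_e, ← e_add, sub_eq_add_neg]
  simp only [h2] at h
  exact h

end Pool.Agent.Lib.MP_50b5e1_nt
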