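import Mathlib
import Pool.Agent.Lib.MP_50b5e1_nt.X.Iter

/-!
# X/Weyl: power saving for `∑ e (y/n)`

Proof.  We may assume `c ≤ 1/4` (a smaller `c` is a weaker hypothesis on `y`) and `y > 0` (conjugation: `conj_e`).  Let `Q = ⌈2A⌉₊`, `η = c / 2^(Q+1)` (`≤ 1/4`).
Trivial bound: `‖∑‖ ≤ 16 G` (at most `16 G` terms), so we may assume `G ≥ G₀(Q)` (the finitely many `G < G₀` go into the constant `C ≥ 16 G₀`).
Let `y = G^Y` (`Y = log y / log G`, `1 + c ≤ Y ≤ A`), `q = ⌊2 (Y - 1 - c)⌋₊ ≤ Q`, so `q/2 + 1 + c ≤ Y < q/2 + 3/2 + c ≤ q/2 + 7/4`, and `H = Nat.sqrt G`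
(`H * H ≤ G`, `2 H ≥ √G`, `H ≥ 1`).
* `q * H ≤ G`: `G ≥ Q²`.
* `y (q+1)! H^q ≤ (q+1)! G^(q/2 + 7/4 + q/2) = (q+1)! G^(q+2) / G^(1/4) ≤ G^(q+2)/2` if `G^(1/4) ≥ 2 (Q+1)!`.
So `iter_bound` applies; with `1 + log H ≤ 1 + log G`, `1/H ≤ 2 G^(-1/2)`:
`17^(q+2) G^(q+1)/y ((1+log H)/H)^q ≤ 17^(Q+2) 2^Q (1+log G)^Q G^(q+1-Y-q/2) ≤ 17^(Q+2) 2^Q (1+log G)^Q G^(-c)`, and
`1/H + … ≤ C' G^(-c/2)` with `C' ≥ 1` (`(1+log G)^Q ≤ C'' G^(c/2)`, e.g. `isLittleO_log_rpow_rpow_atTop` or `Real.log_le_rpow_div`; this may again need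
`G ≥ G₀`). Taking `2^q`-th roots: `‖∑‖ ≤ 256 G (C' G^(-c/2))^(1/2^q) ≤ 256 C' G^(1 - c/2^(q+1)) ≤ 256 C' G^(1-η)`.
-/

open Finset Real
open Pool.Agent.Lib.MP_2a816b_nt (e norm_e conj_e e_add e_neg)

namespace Pool.Agent.Lib.MP_50b5e1_nt

/-- The eventual inequalities for `G` large. -/
private lemma weyl_large (Q : ℕ) (c : ℝ) (hc : 0 < c) :
    ∃ x₀ : ℝ, 2 ≤ x₀ ∧ ∀ x : ℝ, x₀ ≤ x →
      2 * ((Q + 1).factorial : ℝ) ≤ x ^ (1 / 4 : ℝ) ∧ (Q : ℝ) * Q ≤ x ∧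
      17 ^ (Q + 2) * 2 ^ Q * (1 + Real.log x) ^ Q ≤ x ^ (c / 2) := by
  have h1 : ∀ᶠ x : ℝ in Filter.atTop, 2 * ((Q + 1).factorial : ℝ) ≤ x ^ (1 / 4 : ℝ) :=
    (tendsto_rpow_atTop (by norm_num : (0 : ℝ) < 1 / 4)).eventually_ge_atTop _
  have h2 : ∀ᶠ x : ℝ in Filter.atTop, (Q : ℝ) * Q ≤ x := Filter.eventually_ge_atTop _
  have h3 : ∀ᶠ x : ℝ in Filter.atTop,
      17 ^ (Q + 2) * 2 ^ Q * (1 + Real.log x) ^ Q ≤ x ^ (c / 2) := by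
    have hlo := isLittleO_log_rpow_rpow_atTop (Q : ℝ) (half_pos hc)
    have hK : (0 : ℝ) < (17 ^ (Q + 2) * 2 ^ Q * 2 ^ Q)⁻¹ := by positivity
    have h := hlo.def hK
    filter_upwards [h, Filter.eventually_ge_atTop (Real.exp 1)] with x hx hx1
    have hx0 : 0 < x := lt_of_lt_of_le (Real.exp_pos 1) hx1
    have hlog : 1 ≤ Real.log x := by
      rw [Real.le_log_iff_exp_le hx0]; exact hx1
    have hlog0 : 0 ≤ Real.log x := by linarith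
    rw [Real.rpow_natCast, Real.norm_of_nonneg (by positivity),
      Real.norm_of_nonneg (by positivity)] at hx
    have h5 : (1 + Real.log x) ^ Q ≤ (2 * Real.log x) ^ Q :=
      pow_le_pow_left₀ (by linarith) (by linarith) Q
    calc 17 ^ (Q + 2) * 2 ^ Q * (1 + Real.log x) ^ Q
        ≤ 17 ^ (Q + 2) * 2 ^ Q * (2 * Real.log x) ^ Q := by gcongr
      _ = (17 ^ (Q + 2) * 2 ^ Q * 2 ^ Q) * Real.log x ^ Q := by rw [mul_pow]; ring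
      _ ≤ (17 ^ (Q + 2) * 2 ^ Q * 2 ^ Q) * ((17 ^ (Q + 2) * 2 ^ Q * 2 ^ Q)⁻¹ * x ^ (c / 2)) := by
          gcongr
      _ = x ^ (c / 2) := by
          rw [← mul_assoc, mul_inv_cancel₀ (by positivity), one_mul]
  obtain ⟨x₀, hx₀⟩ := Filter.eventually_atTop.1 (h1.and (h2.and h3))
  refine ⟨max 2 x₀, le_max_left _ _, fun x hx => ?_⟩
  exact hx₀ x (le_trans (le_max_right _ _) hx)

/-- Trivial bound. -/
private lemma weyl_trivial (G : ℕ) (y : ℝ) (a b : ℕ) (hb : b ≤ 16 * G) :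
    ‖∑ n ∈ Ico a b, e (y / n)‖ ≤ 16 * (G : ℝ) := by
  refine (norm_sum_le _ _).trans ?_
  simp only [norm_e, sum_const, Nat.card_Ico, nsmul_eq_mul, mul_one]
  have : b - a ≤ 16 * G := le_trans (Nat.sub_le _ _) hb
  exact_mod_cast this

/-- Conjugation. -/
private lemma weyl_abs (y : ℝ) (a b : ℕ) :
    ‖∑ n ∈ Ico a b, e (y / n)‖ = ‖∑ n ∈ Ico a b, e (|y| / n)‖ := by
  rcases abs_choice y with h | h
  · rw [h]
  · rw [h]
    have : (∑ n ∈ Ico a b, e (-y / n)) = (starRingEnd ℂ) (∑ n ∈ Ico a b, e (y / n)) := by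
      rw [map_sum]
      refine sum_congr rfl fun n _ => ?_
      rw [conj_e, neg_div]
    rw [this, RCLike.norm_conj]

/-- The main case. -/
private lemma weyl_core (Q : ℕ) (c : ℝ) (hc : 0 < c) (hc4 : c ≤ 1 / 4) (G q : ℕ) (y : ℝ)
    (hG2 : 2 ≤ (G : ℝ)) (hqQ : q ≤ Q)
    (h1 : 2 * ((Q + 1).factorial : ℝ) ≤ (G : ℝ) ^ (1 / 4 : ℝ)) (h2 : (Q : ℝ) * Q ≤ G)
    (h3 : 17 ^ (Q + 2) * 2 ^ Q * (1 + Real.log G) ^ Q ≤ (G : ℝ) ^ (c / 2))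
    (hy1 : (G : ℝ) ^ ((q : ℝ) / 2 + 1 + c) ≤ y) (hy2 : y ≤ (G : ℝ) ^ ((q : ℝ) / 2 + 7 / 4))
    (a b : ℕ) (ha : G ≤ a) (hb : b ≤ 16 * G) :
    ‖∑ n ∈ Ico a b, e (y / n)‖ ≤ 768 * (G : ℝ) ^ (1 - c / 2 ^ (Q + 1)) := by
  have hG0 : (0 : ℝ) < G := by linarith
  have hG1 : (1 : ℝ) ≤ G := by linarith
  have hGn : 1 ≤ G := by exact_mod_cast hG1
  have hy : 0 < y := lt_of_lt_of_le (Real.rpow_pos_of_pos hG0 _) hy1
  set H : ℕ := Nat.sqrt G with hHdef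
  have hHH : H * H ≤ G := Nat.sqrt_le G
  have hH1 : 1 ≤ H := by
    rw [hHdef]; exact Nat.sqrt_pos.2 (by omega)
  have hQH : Q ≤ H := by
    rw [hHdef, Nat.le_sqrt]
    exact_mod_cast h2
  have hqH : q * H ≤ G := le_trans (Nat.mul_le_mul (le_trans hqQ hQH) le_rfl) hHH
  have hHpos : (0 : ℝ) < H := by exact_mod_cast hH1
  -- `H ≤ G^(1/2)`
  have hHle : (H : ℝ) ≤ (G : ℝ) ^ (1 / 2 : ℝ) := by
    rw [← Real.sqrt_eq_rpow]
    apply Real.le_sqrt_of_sq_le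
    rw [sq]; exact_mod_cast hHH
  -- `G^(1/2) ≤ 2 H`
  have hHge : (G : ℝ) ^ (1 / 2 : ℝ) ≤ 2 * H := by
    rw [← Real.sqrt_eq_rpow]
    apply Real.sqrt_le_iff.2
    refine ⟨by positivity, ?_⟩
    have h5 : G < (H + 1) * (H + 1) := Nat.lt_succ_sqrt G
    have h6 : (H + 1) * (H + 1) ≤ (2 * H) * (2 * H) := Nat.mul_le_mul (by omega) (by omega)
    have h7 : G ≤ (2 * H) * (2 * H) := by omega
    have h8 : (G : ℝ) ≤ (2 * H) * (2 * H) := by exact_mod_cast h7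
    nlinarith
  have hHleG : (H : ℝ) ≤ G := by
    have : H ≤ G := Nat.sqrt_le_self G
    exact_mod_cast this
  -- powers of `H`
  have hHq : (H : ℝ) ^ q ≤ (G : ℝ) ^ ((q : ℝ) / 2) := by
    calc (H : ℝ) ^ q ≤ ((G : ℝ) ^ (1 / 2 : ℝ)) ^ q := pow_le_pow_left₀ hHpos.le hHle q
      _ = (G : ℝ) ^ ((q : ℝ) / 2) := by
        rw [← Real.rpow_natCast, ← Real.rpow_mul hG0.le]; congr 1; ring
  -- hypothesis of `iter_bound`
  have hfac : ((q + 1).factorial : ℝ) ≤ ((Q + 1).factorial : ℝ) := by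
    exact_mod_cast Nat.factorial_le (by omega)
  have hA : y * ((q + 1).factorial : ℕ) * (H : ℝ) ^ q ≤ (G : ℝ) ^ (q + 2) / 2 := by
    have e1 : (G : ℝ) ^ (q + 2) = (G : ℝ) ^ ((q : ℝ) / 2 + 7 / 4) * (G : ℝ) ^ (1 / 4 : ℝ) *
        (G : ℝ) ^ ((q : ℝ) / 2) := by
      rw [← Real.rpow_add hG0, ← Real.rpow_add hG0, ← Real.rpow_natCast]
      congr 1; push_cast; ring
    rw [e1]
    have h9 : ((q + 1).factorial : ℝ) ≤ (G : ℝ) ^ (1 / 4 : ℝ) / 2 := by linarith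
    calc y * ((q + 1).factorial : ℕ) * (H : ℝ) ^ q
        ≤ (G : ℝ) ^ ((q : ℝ) / 2 + 7 / 4) * ((G : ℝ) ^ (1 / 4 : ℝ) / 2) *
          (G : ℝ) ^ ((q : ℝ) / 2) := by
          gcongr
      _ = _ := by ring
  have key := iter_bound q G H y hy hGn hH1 hHH hqH hA a b ha hb
  -- estimates
  have hlogG : 0 ≤ Real.log G := Real.log_nonneg hG1
  have hlogH : 0 ≤ Real.log H := Real.log_nonneg (by exact_mod_cast hH1)
  have hlogHG : Real.log H ≤ Real.log G := Real.log_le_log hHpos hHleG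
  have hinv : 1 / (H : ℝ) ≤ 2 * (G : ℝ) ^ (-(1 / 2 : ℝ)) := by
    rw [Real.rpow_neg hG0.le, div_le_iff₀ hHpos]
    have hp : 0 < (G : ℝ) ^ (1 / 2 : ℝ) := Real.rpow_pos_of_pos hG0 _
    rw [mul_assoc, mul_comm ((G : ℝ) ^ (1 / 2 : ℝ))⁻¹, ← mul_assoc, ← div_eq_mul_inv,
      le_div_iff₀ hp]
    linarith
  have hsecond : 17 ^ (q + 2) * (G : ℝ) ^ (q + 1) / y * ((1 + Real.log H) / H) ^ q ≤
      (G : ℝ) ^ (-(c / 2)) := by
    have f1 : (G : ℝ) ^ (q + 1) / y ≤ (G : ℝ) ^ ((q : ℝ) / 2 - c) := by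
      rw [div_le_iff₀ hy]
      calc (G : ℝ) ^ (q + 1) = (G : ℝ) ^ ((q : ℝ) / 2 - c) * (G : ℝ) ^ ((q : ℝ) / 2 + 1 + c) := by
            rw [← Real.rpow_add hG0, ← Real.rpow_natCast]; congr 1; push_cast; ring
        _ ≤ _ := by gcongr
    have f2 : ((1 + Real.log H) / H) ^ q ≤ (1 + Real.log G) ^ Q * 2 ^ Q * (G : ℝ) ^ (-((q : ℝ) / 2)) := by
      have g1 : (1 + Real.log H) / H ≤ (1 + Real.log G) * (2 * (G : ℝ) ^ (-(1 / 2 : ℝ))) := by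
        rw [div_eq_mul_one_div]
        gcongr
      calc ((1 + Real.log H) / H) ^ q
          ≤ ((1 + Real.log G) * (2 * (G : ℝ) ^ (-(1 / 2 : ℝ)))) ^ q :=
            pow_le_pow_left₀ (by positivity) g1 q
        _ = (1 + Real.log G) ^ q * 2 ^ q * ((G : ℝ) ^ (-(1 / 2 : ℝ))) ^ q := by
            rw [mul_pow, mul_pow]; ring
        _ = (1 + Real.log G) ^ q * 2 ^ q * (G : ℝ) ^ (-((q : ℝ) / 2)) := by
            congr 1
            rw [← Real.rpow_natCast, ← Real.rpow_mul hG0.le]; congr 1; ring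
        _ ≤ _ := by
            have g2 : (1 + Real.log G) ^ q ≤ (1 + Real.log G) ^ Q :=
              pow_le_pow_right₀ (by linarith) hqQ
            have g3 : (2 : ℝ) ^ q ≤ 2 ^ Q := pow_le_pow_right₀ (by norm_num) hqQ
            gcongr
    have f3 : (17 : ℝ) ^ (q + 2) ≤ 17 ^ (Q + 2) := pow_le_pow_right₀ (by norm_num) (by omega)
    have f4 : (0 : ℝ) ≤ ((1 + Real.log H) / H) ^ q := by positivity
    calc 17 ^ (q + 2) * (G : ℝ) ^ (q + 1) / y * ((1 + Real.log H) / H) ^ q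
        = 17 ^ (q + 2) * ((G : ℝ) ^ (q + 1) / y) * ((1 + Real.log H) / H) ^ q := by ring
      _ ≤ 17 ^ (Q + 2) * (G : ℝ) ^ ((q : ℝ) / 2 - c) *
          ((1 + Real.log G) ^ Q * 2 ^ Q * (G : ℝ) ^ (-((q : ℝ) / 2))) := by
          gcongr
      _ = (17 ^ (Q + 2) * 2 ^ Q * (1 + Real.log G) ^ Q) *
          ((G : ℝ) ^ ((q : ℝ) / 2 - c) * (G : ℝ) ^ (-((q : ℝ) / 2))) := by ring
      _ ≤ (G : ℝ) ^ (c / 2) * ((G : ℝ) ^ ((q : ℝ) / 2 - c) * (G : ℝ) ^ (-((q : ℝ) / 2))) := by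
          gcongr
      _ = (G : ℝ) ^ (-(c / 2)) := by
          rw [← Real.rpow_add hG0, ← Real.rpow_add hG0]; congr 1; ring
  have htot : 1 / (H : ℝ) + 17 ^ (q + 2) * (G : ℝ) ^ (q + 1) / y * ((1 + Real.log H) / H) ^ q ≤
      3 * (G : ℝ) ^ (-(c / 2)) := by
    have : (G : ℝ) ^ (-(1 / 2 : ℝ)) ≤ (G : ℝ) ^ (-(c / 2)) :=
      Real.rpow_le_rpow_of_exponent_le hG1 (by linarith)
    linarith
  set η : ℝ := c / 2 ^ (Q + 1) with hη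
  have hηq : η * 2 ^ q ≤ c / 2 := by
    rw [hη, div_mul_eq_mul_div, div_le_div_iff₀ (by positivity) (by norm_num)]
    have : (2 : ℝ) ^ q ≤ 2 ^ Q := pow_le_pow_right₀ (by norm_num) hqQ
    rw [pow_succ]
    nlinarith
  have hfin : ‖∑ n ∈ Ico a b, e (y / n)‖ ^ (2 ^ q) ≤ (768 * (G : ℝ) ^ (1 - η)) ^ (2 ^ q) := by
    refine key.trans ?_
    calc (256 * (G : ℝ)) ^ (2 ^ q) *
        (1 / H + 17 ^ (q + 2) * (G : ℝ) ^ (q + 1) / y * ((1 + Real.log H) / H) ^ q)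
        ≤ (256 * (G : ℝ)) ^ (2 ^ q) * (3 * (G : ℝ) ^ (-(c / 2))) := by gcongr
      _ ≤ (256 * (G : ℝ)) ^ (2 ^ q) * (3 ^ (2 ^ q) * ((G : ℝ) ^ (-η)) ^ (2 ^ q)) := by
          have g1 : (3 : ℝ) ≤ 3 ^ (2 ^ q) := by
            calc (3 : ℝ) = 3 ^ 1 := by norm_num
              _ ≤ 3 ^ (2 ^ q) := pow_le_pow_right₀ (by norm_num) Nat.one_le_two_pow
          have g2 : (G : ℝ) ^ (-(c / 2)) ≤ ((G : ℝ) ^ (-η)) ^ (2 ^ q) := by
            rw [← Real.rpow_natCast ((G : ℝ) ^ (-η)), ← Real.rpow_mul hG0.le]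
            apply Real.rpow_le_rpow_of_exponent_le hG1
            push_cast
            linarith
          gcongr
      _ = (768 * (G : ℝ) ^ (1 - η)) ^ (2 ^ q) := by
          rw [← mul_pow, ← mul_pow]
          congr 1
          rw [sub_eq_add_neg, Real.rpow_add hG0, Real.rpow_one]
          ring
  exact le_of_pow_le_pow_left₀ (by positivity) (by positivity) hfin

theorem weyl (c A : ℝ) (hc : 0 < c) (hA : 1 + c ≤ A) :
    ∃ η : ℝ, 0 < η ∧ η ≤ 1 / 4 ∧ ∃ C : ℝ, 1 ≤ C ∧ ∀ (G : ℕ) (y : ℝ), 1 ≤ G →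
      (G : ℝ) ^ (1 + c) ≤ |y| → |y| ≤ (G : ℝ) ^ A → ∀ a b : ℕ, G ≤ a → b ≤ 16 * G →
      ‖∑ n ∈ Ico a b, e (y / n)‖ ≤ C * (G : ℝ) ^ (1 - η) := by
  set c' : ℝ := min c (1 / 4) with hc'def
  have hc' : 0 < c' := lt_min hc (by norm_num)
  have hc'4 : c' ≤ 1 / 4 := min_le_right _ _
  have hc'c : c' ≤ c := min_le_left _ _
  set Q : ℕ := ⌈2 * A⌉₊ with hQ
  obtain ⟨x₀, hx₀2, hx₀⟩ := weyl_large Q c' hc'
  have hη : 0 < c' / 2 ^ (Q + 1) := by positivity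
  have hη4 : c' / 2 ^ (Q + 1) ≤ 1 / 4 := by
    refine le_trans (div_le_self hc'.le ?_) hc'4
    exact one_le_pow₀ (by norm_num)
  refine ⟨c' / 2 ^ (Q + 1), hη, hη4, max 768 (16 * x₀), le_trans (by norm_num) (le_max_left _ _), ?_⟩
  intro G y hG hy1 hy2 a b ha hb
  have hG1 : (1 : ℝ) ≤ G := by exact_mod_cast hG
  have hG0 : (0 : ℝ) < G := by linarith
  rcases lt_or_ge (G : ℝ) x₀ with hlt | hge
  · -- small `G`
    refine (weyl_trivial G y a b hb).trans ?_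
    have h1 : (1 : ℝ) ≤ (G : ℝ) ^ (1 - c' / 2 ^ (Q + 1)) :=
      Real.one_le_rpow hG1 (by linarith)
    calc 16 * (G : ℝ) ≤ 16 * x₀ := by linarith
      _ ≤ max 768 (16 * x₀) := le_max_right _ _
      _ = max 768 (16 * x₀) * 1 := by rw [mul_one]
      _ ≤ _ := by gcongr
  · have hG2 : (2 : ℝ) ≤ G := le_trans hx₀2 hge
    obtain ⟨h1, h2, h3⟩ := hx₀ (G : ℝ) hge
    rw [weyl_abs]
    have hypos : 0 < |y| := lt_of_lt_of_le (Real.rpow_pos_of_pos hG0 _) hy1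
    have hb1 : (1 : ℝ) < G := by linarith
    set Y : ℝ := Real.logb G |y| with hY
    have hyY : (G : ℝ) ^ Y = |y| := Real.rpow_logb hG0 (by linarith) hypos
    have hY1 : 1 + c ≤ Y := by
      rw [hY, Real.le_logb_iff_rpow_le hb1 hypos]; exact hy1
    have hY2 : Y ≤ A := by
      rw [hY, Real.logb_le_iff_le_rpow hb1 hypos]; exact hy2
    set q : ℕ := ⌊2 * (Y - 1 - c')⌋₊ with hq
    have hq0 : 0 ≤ 2 * (Y - 1 - c') := by linarith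
    have hq1 : (q : ℝ) ≤ 2 * (Y - 1 - c') := Nat.floor_le hq0
    have hq2 : 2 * (Y - 1 - c') < q + 1 := Nat.lt_floor_add_one _
    have hqQ : q ≤ Q := by
      have h5 : (q : ℝ) ≤ Q := by
        have : 2 * A ≤ Q := Nat.le_ceil _
        linarith
      exact_mod_cast h5
    have hcore := weyl_core Q c' hc' hc'4 G q |y| hG2 hqQ h1 h2 h3
      (by rw [← hyY]; exact Real.rpow_le_rpow_of_exponent_le hG1 (by linarith))
      (by rw [← hyY]; exact Real.rpow_le_rpow_of_exponent_le hG1 (by linarith)) a b ha hb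
    refine hcore.trans ?_
    gcongr
    exact le_max_left _ _

end Pool.Agent.Lib.MP_50b5e1_nt
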