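import Mathlib
import Pool.Agent.Lib.MP_50b5e1_nt.X.Weyl

/-!
# X/KerDef: the kernel, and its type I sums

Proof of `typeI`.  Let `m ≥ 1` (for `m = 0` all terms are `kap K y 0 = 0`), `N = 4K`.  The nonzero terms are those `d < t` with `K < m d ≤ 4K`, i.e.
`d ∈ Ico (K/m + 1) (min t (4*K/m + 1))` (natural division), and then `e (y/(m d)) = e ((y/m)/d)`.
* If `m^4 ≤ K` and `K ≥ 16`: `G = K/m` (natural division), `G ≥ 1`; `K/m + 1 ≥ G` and `4*K/m + 1 ≤ 4 G + 4 ≤ 8 G ≤ 16 G`. Apply `weyl (1/2) (2A)` to `y/m`: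
  `|y/m| ≥ K^1.9 / K^(1/4) = K^1.65 ≥ G^(3/2)`, and `K < m (G+1) ≤ 2 m G ≤ 2 K^(1/4) G`, so `G ≥ K^(3/4)/2 ≥ K^(1/2)` (as `K^(1/4) ≥ 2`) and
  `|y/m| ≤ K^A ≤ G^(2A)`.  Result `≤ C G^(1-η) ≤ C K^(1-η)`.
* If `m^4 > K`: the number of terms is at most `4K/m ≤ 4 K^(3/4) ≤ 4 K^(1-η)`.
* If `K < 16`: at most `4K ≤ 64` nonzero terms, `64 ≤ 64 K^(1-η)`.
-/

open Finset Real
open Pool.Agent.Lib.MP_2a816b_nt (e norm_e conj_e e_add e_neg)

namespace Pool.Agent.Lib.MP_50b5e1_nt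

/-- the kernel `e (y/n)` on `(K, 4K]` -/
noncomputable def kap (K : ℕ) (y : ℝ) (n : ℕ) : ℂ := if K < n ∧ n ≤ 4 * K then e (y / n) else 0

theorem kap_zero (K : ℕ) (y : ℝ) : kap K y 0 = 0 := by simp [kap]

theorem norm_kap_le (K : ℕ) (y : ℝ) (n : ℕ) : ‖kap K y n‖ ≤ 1 := by
  unfold kap
  split_ifs
  · rw [norm_e]
  · simp

private theorem KerDef_sum (K : ℕ) (y : ℝ) {m : ℕ} (hm : 0 < m) (t : ℕ) :
    ∑ d ∈ range t, kap K y (m * d) =
      ∑ d ∈ Ico (K / m + 1) (min t (4 * K / m + 1)), e (y / m / d) := by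
  have h1 : ∀ d ∈ range t, kap K y (m * d) =
      if K / m + 1 ≤ d ∧ d < 4 * K / m + 1 then e (y / m / d) else 0 := by
    intro d _
    unfold kap
    have e1 : (K < m * d) ↔ (K / m + 1 ≤ d) := by
      rw [Nat.add_one_le_iff, Nat.div_lt_iff_lt_mul hm, mul_comm]
    have e2 : (m * d ≤ 4 * K) ↔ (d < 4 * K / m + 1) := by
      rw [Nat.lt_add_one_iff, Nat.le_div_iff_mul_le hm, mul_comm]
    have e3 : y / ((m * d : ℕ) : ℝ) = y / m / d := by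
      push_cast
      rw [div_div]
    rw [e3]
    simp only [e1, e2]
  rw [sum_congr rfl h1, ← sum_filter]
  apply sum_congr _ fun _ _ => rfl
  ext d
  simp only [mem_filter, mem_range, mem_Ico]
  omega

private theorem KerDef_triv (y : ℝ) (a b : ℕ) : ‖∑ d ∈ Ico a b, e (y / d)‖ ≤ ((b - a : ℕ) : ℝ) := by
  calc ‖∑ d ∈ Ico a b, e (y / d)‖ ≤ ∑ d ∈ Ico a b, ‖e (y / d)‖ := norm_sum_le _ _
    _ = ∑ _d ∈ Ico a b, (1 : ℝ) := sum_congr rfl fun d _ => norm_e _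
    _ = ((b - a : ℕ) : ℝ) := by simp

private theorem KerDef_sub (t a b : ℕ) : min t (a + 1) - (b + 1) ≤ a := by omega

theorem typeI (A : ℝ) (hA : 2 ≤ A) : ∃ η : ℝ, 0 < η ∧ η ≤ 1 / 4 ∧ ∃ C : ℝ, 1 ≤ C ∧
    ∀ (K : ℕ) (y : ℝ), 1 ≤ K → (K : ℝ) ^ (1.9 : ℝ) ≤ |y| → |y| ≤ (K : ℝ) ^ A → ∀ m t : ℕ,
      ‖∑ d ∈ range t, kap K y (m * d)‖ ≤ C * (K : ℝ) ^ (1 - η) := by
  obtain ⟨η, hη0, hη1, C, hC, hW⟩ := weyl (1 / 2) (2 * A) (by norm_num) (by linarith)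
  refine ⟨η, hη0, hη1, C + 64, by linarith, ?_⟩
  intro K y hK hy1 hy2 m t
  have hK1 : (1 : ℝ) ≤ (K : ℝ) := by exact_mod_cast hK
  have hK0 : (0 : ℝ) < (K : ℝ) := by linarith
  have hKη : (1 : ℝ) ≤ (K : ℝ) ^ (1 - η) := Real.one_le_rpow hK1 (by linarith)
  have hKη0 : (0 : ℝ) ≤ (K : ℝ) ^ (1 - η) := by linarith
  rcases Nat.eq_zero_or_pos m with hm | hm
  · have h0 : ∑ d ∈ range t, kap K y (m * d) = 0 := by
      apply sum_eq_zero
      intro d _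
      rw [hm, Nat.zero_mul, kap_zero]
    rw [h0, norm_zero]
    positivity
  rw [KerDef_sum K y hm t]
  have hm1 : (1 : ℝ) ≤ (m : ℝ) := by exact_mod_cast hm
  have hm0 : (0 : ℝ) < (m : ℝ) := by linarith
  by_cases hK16 : K < 16
  · have h1 : (min t (4 * K / m + 1) - (K / m + 1) : ℕ) ≤ 64 := by
      have h2 : 4 * K / m ≤ 4 * K := Nat.div_le_self _ _
      exact (KerDef_sub _ _ _).trans (h2.trans (by omega))
    have h3 : ((min t (4 * K / m + 1) - (K / m + 1) : ℕ) : ℝ) ≤ 64 := by exact_mod_cast h1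
    calc ‖∑ d ∈ Ico (K / m + 1) (min t (4 * K / m + 1)), e (y / m / d)‖ ≤
          ((min t (4 * K / m + 1) - (K / m + 1) : ℕ) : ℝ) := KerDef_triv (y / m) _ _
      _ ≤ 64 := h3
      _ ≤ (C + 64) * (K : ℝ) ^ (1 - η) := by
          have h4 : 0 ≤ C * (K : ℝ) ^ (1 - η) := mul_nonneg (by linarith) hKη0
          nlinarith
  by_cases hm4 : m ^ 4 ≤ K
  · -- the Weyl bound
    have hK16' : 16 ≤ K := not_lt.mp hK16
    have hmK : m ≤ K := le_trans (Nat.le_self_pow (by norm_num) m) hm4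
    set G : ℕ := K / m with hG
    have hG1 : 1 ≤ G := by
      rw [hG, Nat.le_div_iff_mul_le hm, one_mul]
      exact hmK
    have hG1' : (1 : ℝ) ≤ (G : ℝ) := by exact_mod_cast hG1
    have hKlt : K < m * (G + 1) := by
      have h1 := Nat.lt_mul_div_succ K hm
      exact h1
    have hGm : G * m ≤ K := Nat.div_mul_le_self K m
    have hGK : G ≤ K := Nat.div_le_self K m
    have hGK' : (G : ℝ) ≤ (K : ℝ) := by exact_mod_cast hGK
    have hGKm : (G : ℝ) ≤ (K : ℝ) / m := by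
      rw [le_div_iff₀ hm0]
      exact_mod_cast hGm
    have hb : min t (4 * K / m + 1) ≤ 16 * G := by
      have h1 : 4 * K / m < 4 * (G + 1) := by
        rw [Nat.div_lt_iff_lt_mul hm]
        nlinarith
      omega
    have hyabs : |y / m| = |y| / m := by
      rw [abs_div, abs_of_pos hm0]
    -- K ≤ G ^ 2
    have hKG : K ≤ G * G := by
      have h1 : K ≤ 2 * m * G := by nlinarith
      have h2 : 4 * m ^ 2 ≤ K := by
        have h3 : (4 * m ^ 2) ^ 2 ≤ K ^ 2 := by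
          calc (4 * m ^ 2) ^ 2 = 16 * m ^ 4 := by ring
            _ ≤ K * K := Nat.mul_le_mul hK16' hm4
            _ = K ^ 2 := by ring
        exact (Nat.pow_le_pow_iff_left (by norm_num)).mp h3
      have h4 : K * K ≤ K * (G * G) := by
        calc K * K ≤ (2 * m * G) * (2 * m * G) := Nat.mul_le_mul h1 h1
          _ = (4 * m ^ 2) * (G * G) := by ring
          _ ≤ K * (G * G) := Nat.mul_le_mul_right _ h2
      exact Nat.le_of_mul_le_mul_left h4 (by omega)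
    have hKG' : (K : ℝ) ≤ (G : ℝ) ^ (2 : ℝ) := by
      rw [Real.rpow_two, sq]
      exact_mod_cast hKG
    have c1 : (G : ℝ) ^ (1 + 1 / 2 : ℝ) ≤ |y / m| := by
      rw [hyabs, le_div_iff₀ hm0]
      have h1 : (G : ℝ) ^ (1 + 1 / 2 : ℝ) = (G : ℝ) * (G : ℝ) ^ (1 / 2 : ℝ) := by
        rw [Real.rpow_add (by linarith), Real.rpow_one]
      have h2 : (G : ℝ) ^ (1 / 2 : ℝ) ≤ (K : ℝ) ^ (0.9 : ℝ) :=
        (Real.rpow_le_rpow (by linarith) hGK' (by norm_num)).trans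
          (Real.rpow_le_rpow_of_exponent_le hK1 (by norm_num))
      have h3 : (G : ℝ) * m ≤ K := by exact_mod_cast hGm
      have h4 : (K : ℝ) ^ (1.9 : ℝ) = (K : ℝ) * (K : ℝ) ^ (0.9 : ℝ) := by
        have h5 : (1.9 : ℝ) = 1 + 0.9 := by norm_num
        rw [h5, Real.rpow_add hK0, Real.rpow_one]
      calc (G : ℝ) ^ (1 + 1 / 2 : ℝ) * m = ((G : ℝ) * m) * (G : ℝ) ^ (1 / 2 : ℝ) := by
            rw [h1]
            ring
        _ ≤ (K : ℝ) * (K : ℝ) ^ (0.9 : ℝ) :=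
            mul_le_mul h3 h2 (Real.rpow_nonneg (by linarith) _) hK0.le
        _ = (K : ℝ) ^ (1.9 : ℝ) := h4.symm
        _ ≤ |y| := hy1
    have c2 : |y / m| ≤ (G : ℝ) ^ (2 * A) := by
      rw [hyabs]
      calc |y| / m ≤ |y| := div_le_self (abs_nonneg y) hm1
        _ ≤ (K : ℝ) ^ A := hy2
        _ ≤ ((G : ℝ) ^ (2 : ℝ)) ^ A := Real.rpow_le_rpow hK0.le hKG' (by linarith)
        _ = (G : ℝ) ^ (2 * A) := by rw [← Real.rpow_mul (by linarith)]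
    have h := hW G (y / m) hG1 c1 c2 (G + 1) (min t (4 * K / m + 1)) (Nat.le_succ G) hb
    calc ‖∑ d ∈ Ico (G + 1) (min t (4 * K / m + 1)), e (y / m / d)‖ ≤ C * (G : ℝ) ^ (1 - η) := h
      _ ≤ C * (K : ℝ) ^ (1 - η) :=
          mul_le_mul_of_nonneg_left (Real.rpow_le_rpow (by linarith) hGK' (by linarith))
            (by linarith)
      _ ≤ (C + 64) * (K : ℝ) ^ (1 - η) := by nlinarith
  · -- few terms
    have hm4' : K < m ^ 4 := not_le.mp hm4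
    have h1 : (min t (4 * K / m + 1) - (K / m + 1) : ℕ) ≤ 4 * K / m := KerDef_sub _ _ _
    have h2 : ((4 * K / m : ℕ) : ℝ) ≤ 4 * K / m := by
      have h3 := Nat.cast_div_le (α := ℝ) (m := 4 * K) (n := m)
      push_cast at h3
      exact h3
    have h4 : (K : ℝ) ^ (1 / 4 : ℝ) ≤ m := by
      have h5 : (K : ℝ) ≤ (m : ℝ) ^ (4 : ℝ) := by
        have h6 : (K : ℝ) ≤ (m : ℝ) ^ (4 : ℕ) := by exact_mod_cast hm4'.le
        rw [← Real.rpow_natCast] at h6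
        exact_mod_cast h6
      calc (K : ℝ) ^ (1 / 4 : ℝ) ≤ ((m : ℝ) ^ (4 : ℝ)) ^ (1 / 4 : ℝ) :=
            Real.rpow_le_rpow hK0.le h5 (by norm_num)
        _ = m := by
            rw [← Real.rpow_mul hm0.le]
            norm_num
    have h7 : (K : ℝ) / m ≤ (K : ℝ) ^ (1 - η) := by
      have h8 : (K : ℝ) ^ (3 / 4 : ℝ) * (K : ℝ) ^ (1 / 4 : ℝ) = K := by
        rw [← Real.rpow_add hK0]
        norm_num
      have h9 : (K : ℝ) ^ (3 / 4 : ℝ) ≤ (K : ℝ) ^ (1 - η) :=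
        Real.rpow_le_rpow_of_exponent_le hK1 (by linarith)
      have h10 : (0 : ℝ) ≤ (K : ℝ) ^ (3 / 4 : ℝ) := Real.rpow_nonneg hK0.le _
      rw [div_le_iff₀ hm0]
      calc (K : ℝ) = (K : ℝ) ^ (3 / 4 : ℝ) * (K : ℝ) ^ (1 / 4 : ℝ) := h8.symm
        _ ≤ (K : ℝ) ^ (3 / 4 : ℝ) * m := mul_le_mul_of_nonneg_left h4 h10
        _ ≤ (K : ℝ) ^ (1 - η) * m := mul_le_mul_of_nonneg_right h9 hm0.le
    calc ‖∑ d ∈ Ico (K / m + 1) (min t (4 * K / m + 1)), e (y / m / d)‖ ≤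
          ((min t (4 * K / m + 1) - (K / m + 1) : ℕ) : ℝ) := KerDef_triv (y / m) _ _
      _ ≤ ((4 * K / m : ℕ) : ℝ) := by exact_mod_cast h1
      _ ≤ 4 * K / m := h2
      _ = 4 * (K / m) := by ring
      _ ≤ 4 * (K : ℝ) ^ (1 - η) := by linarith
      _ ≤ (C + 64) * (K : ℝ) ^ (1 - η) := by nlinarith

end Pool.Agent.Lib.MP_50b5e1_nt
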