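import Mathlib
import Pool.Agent.Lib.MP_50b5e1_nt.X.KerDef

/-!
# X/Corr: correlations of the kernel

Proof of `corr`.  By symmetry (complex conjugation) let `m < m'`; let `N = 4K`.  If no `n < t` has `K < m n` and `m' n ≤ 4K` the sum is `0`.  Otherwise `m' < 4 m`
(as `m' n ≤ 4K < 4 m n`), the nonzero terms are those of `n ∈ Ico (K/m + 1) (min t (4*K/m' + 1))` (natural division) and they are
`e (y/(m n)) conj (e (y/(m' n))) = e (y'/n)`, `y' = y (1/m - 1/m') = y (m'-m)/(m m')`.  Let `G = K/m` (natural division).  `m² ≤ 16 K`, `K ≥ K₀` give `m ≤ 4√K`, `G ≥ 1`, even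
`G ≥ √K/4 - 1 ≥ K^(1/3)`; `K/m + 1 ≥ G`, `4*K/m' + 1 ≤ 4*K/m + 1 ≤ 4G + 4 ≤ 16 G`.
`|y'| ≥ |y|/(m m') ≥ K^1.9/(4 m²)`, and `G ≤ K/m`, so `G^(1.1) ≤ (K/m)^(1.1) ≤ K^1.9/(4 m²)` is equivalent to `4 m^(0.9) ≤ K^(0.8)`, which follows from
`m ≤ 4 K^(1/2)`: `4 m^0.9 ≤ 16 K^0.45 ≤ K^0.8` for `K ≥ K₀`.  `|y'| ≤ |y| ≤ K^A ≤ G^(3A)`.
Apply `weyl (1/10) (3A)`: the sum is `≤ C G^(1-η) ≤ C (K/m)^(1-η)`; replace `m` by `min m m'`.
For `K < K₀` use the trivial bound: every sum has at most `4K` nonzero terms, and `(K / min m m')^(1-η) ≥ …`: if the sum is nonempty then `min m m' * n ≤ 4K` for some `n ≥ 1`, so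
`K / min m m' ≥ 1/4`; take `C ≥ 16 K₀`.
-/

open Finset Real
open Pool.Agent.Lib.MP_2a816b_nt (e norm_e conj_e e_add e_neg)

namespace Pool.Agent.Lib.MP_50b5e1_nt

private theorem Corr_zero {K m m' n : ℕ} {y : ℝ} (hmm : m < m')
    (h : ¬ (K < m * n ∧ m' * n ≤ 4 * K)) :
    kap K y (m * n) * (starRingEnd ℂ) (kap K y (m' * n)) = 0 := by
  by_cases h1 : K < m * n
  · have h2 : ¬ (m' * n ≤ 4 * K) := fun h2 => h ⟨h1, h2⟩
    have h3 : kap K y (m' * n) = 0 := by
      unfold kap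
      rw [if_neg]
      rintro ⟨_, h4⟩
      exact h2 h4
    rw [h3]
    simp
  · have h3 : kap K y (m * n) = 0 := by
      unfold kap
      rw [if_neg]
      rintro ⟨h4, _⟩
      exact h1 h4
    rw [h3]
    simp

private theorem Corr_term {K m m' n : ℕ} {y : ℝ} (hm : 1 ≤ m) (hmm : m < m')
    (h1 : K < m * n) (h2 : m' * n ≤ 4 * K) :
    kap K y (m * n) * (starRingEnd ℂ) (kap K y (m' * n)) =
      e (y * (1 / (m : ℝ) - 1 / (m' : ℝ)) / n) := by
  have hn : 0 < n := by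
    rcases Nat.eq_zero_or_pos n with h | h
    · rw [h] at h1
      simp at h1
    · exact h
  have h3 : m * n < m' * n := Nat.mul_lt_mul_of_pos_right hmm hn
  have k1 : kap K y (m * n) = e (y / ((m * n : ℕ) : ℝ)) := by
    unfold kap
    rw [if_pos ⟨h1, by omega⟩]
  have k2 : kap K y (m' * n) = e (y / ((m' * n : ℕ) : ℝ)) := by
    unfold kap
    rw [if_pos ⟨by omega, h2⟩]
  rw [k1, k2, conj_e, ← e_add]
  congr 1
  have hm0 : (m : ℝ) ≠ 0 := by
    have : (0 : ℝ) < m := by exact_mod_cast hm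
    exact this.ne'
  have hm0' : (m' : ℝ) ≠ 0 := by
    have : (0 : ℝ) < m' := by exact_mod_cast (by omega : 0 < m')
    exact this.ne'
  have hn0 : (n : ℝ) ≠ 0 := by
    have : (0 : ℝ) < n := by exact_mod_cast hn
    exact this.ne'
  push_cast
  field_simp
  ring

private theorem Corr_norm {K m m' n : ℕ} {y : ℝ} :
    ‖kap K y (m * n) * (starRingEnd ℂ) (kap K y (m' * n))‖ ≤ 1 := by
  rw [norm_mul, RCLike.norm_conj]
  have h1 := norm_kap_le K y (m * n)
  have h2 := norm_kap_le K y (m' * n)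
  have h3 := norm_nonneg (kap K y (m * n))
  have h4 := norm_nonneg (kap K y (m' * n))
  nlinarith

/-- trivial bound -/
private theorem Corr_trivial {K m m' t : ℕ} {y : ℝ} (hm : 1 ≤ m) (hmm : m < m') :
    ‖∑ n ∈ range t, kap K y (m * n) * (starRingEnd ℂ) (kap K y (m' * n))‖ ≤
      4 * ((K : ℝ) / m) := by
  have h1 : ∑ n ∈ range t, kap K y (m * n) * (starRingEnd ℂ) (kap K y (m' * n)) =
      ∑ n ∈ (range t).filter (fun n => K < m * n ∧ m' * n ≤ 4 * K),
        kap K y (m * n) * (starRingEnd ℂ) (kap K y (m' * n)) := by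
    rw [sum_filter]
    apply sum_congr rfl
    intro n _
    split_ifs with h
    · rfl
    · exact Corr_zero hmm h
  rw [h1]
  have hm0 : (0 : ℝ) < m := by exact_mod_cast hm
  have h2 : (range t).filter (fun n => K < m * n ∧ m' * n ≤ 4 * K) ⊆ Ioc 0 (4 * K / m) := by
    intro n hn
    rw [mem_filter] at hn
    rw [mem_Ioc]
    refine ⟨?_, ?_⟩
    · rcases Nat.eq_zero_or_pos n with h | h
      · rw [h] at hn
        simp at hn
      · exact h
    · rw [Nat.le_div_iff_mul_le hm]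
      have h3 : m * n ≤ m' * n := Nat.mul_le_mul_right n hmm.le
      have h4 : n * m = m * n := Nat.mul_comm _ _
      omega
  calc ‖∑ n ∈ (range t).filter (fun n => K < m * n ∧ m' * n ≤ 4 * K),
        kap K y (m * n) * (starRingEnd ℂ) (kap K y (m' * n))‖
      ≤ ∑ n ∈ (range t).filter (fun n => K < m * n ∧ m' * n ≤ 4 * K),
        ‖kap K y (m * n) * (starRingEnd ℂ) (kap K y (m' * n))‖ := norm_sum_le _ _
    _ ≤ ∑ _n ∈ (range t).filter (fun n => K < m * n ∧ m' * n ≤ 4 * K), (1 : ℝ) :=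
        sum_le_sum (fun n _ => Corr_norm)
    _ = (((range t).filter (fun n => K < m * n ∧ m' * n ≤ 4 * K)).card : ℝ) := by simp
    _ ≤ ((4 * K / m : ℕ) : ℝ) := by
        have := card_le_card h2
        rw [Nat.card_Ioc, Nat.sub_zero] at this
        exact_mod_cast this
    _ ≤ ((4 * K : ℕ) : ℝ) / m := Nat.cast_div_le
    _ = 4 * ((K : ℝ) / m) := by push_cast; ring

private theorem Corr_core (A : ℝ) (hA : 2 ≤ A) : ∃ η : ℝ, 0 < η ∧ η ≤ 1 / 4 ∧ ∃ C : ℝ, 1 ≤ C ∧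
    ∀ (K : ℕ) (y : ℝ), 1 ≤ K → (K : ℝ) ^ (1.9 : ℝ) ≤ |y| → |y| ≤ (K : ℝ) ^ A → ∀ m m' t : ℕ,
      1 ≤ m → m < m' → m ^ 2 ≤ 16 * K →
      ‖∑ n ∈ range t, kap K y (m * n) * (starRingEnd ℂ) (kap K y (m' * n))‖ ≤
        C * ((K : ℝ) / (m : ℕ)) ^ (1 - η) := by
  obtain ⟨η, hη, hη4, C0, hC0, hw⟩ := weyl (1 / 10) (3 * A) (by norm_num) (by linarith)
  refine ⟨η, hη, hη4, C0 + 4 * 16777216, by linarith, ?_⟩
  intro K y hK hy1 hy2 m m' t hm hmm hm2
  have hm0 : (0 : ℝ) < m := by exact_mod_cast hm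
  have hK0 : (0 : ℝ) < K := by exact_mod_cast hK
  have hx0 : 0 < (K : ℝ) / m := div_pos hK0 hm0
  have hpow0 : 0 < ((K : ℝ) / m) ^ (1 - η) := rpow_pos_of_pos hx0 _
  rcases Nat.lt_or_ge K 16777216 with hsmall | hbig
  · -- small `K`
    refine (Corr_trivial hm hmm).trans ?_
    have h1 : (K : ℝ) / m = ((K : ℝ) / m) ^ (1 - η) * ((K : ℝ) / m) ^ η := by
      rw [← rpow_add hx0]
      norm_num
    have hm1 : (1 : ℝ) ≤ m := by exact_mod_cast hm
    have h2 : (K : ℝ) / m ≤ 16777216 := by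
      have h3 : (K : ℝ) / m ≤ K := div_le_self hK0.le hm1
      have h4 : (K : ℝ) ≤ 16777216 := by exact_mod_cast hsmall.le
      linarith
    have h3 : ((K : ℝ) / m) ^ η ≤ 16777216 := by
      calc ((K : ℝ) / m) ^ η ≤ (16777216 : ℝ) ^ η := rpow_le_rpow hx0.le h2 hη.le
        _ ≤ (16777216 : ℝ) ^ (1 : ℝ) :=
            rpow_le_rpow_of_exponent_le (by norm_num) (by linarith)
        _ = 16777216 := rpow_one _
    calc 4 * ((K : ℝ) / m) = 4 * (((K : ℝ) / m) ^ (1 - η) * ((K : ℝ) / m) ^ η) := by rw [← h1]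
      _ ≤ 4 * (((K : ℝ) / m) ^ (1 - η) * 16777216) := by
          have := mul_le_mul_of_nonneg_left h3 hpow0.le
          linarith
      _ ≤ (C0 + 4 * 16777216) * ((K : ℝ) / m) ^ (1 - η) := by nlinarith
  · -- large `K`
    set s : ℝ := Real.sqrt K with hs
    have hs2 : s ^ 2 = K := Real.sq_sqrt hK0.le
    have hs0 : 0 ≤ s := Real.sqrt_nonneg _
    have hs4096 : 4096 ≤ s := by
      apply Real.le_sqrt_of_sq_le
      have : (16777216 : ℝ) ≤ K := by exact_mod_cast hbig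
      linarith
    have hms : (m : ℝ) ≤ 4 * s := by
      have h1 : (m : ℝ) ^ 2 ≤ 16 * K := by exact_mod_cast hm2
      have h2 : (m : ℝ) ^ 2 ≤ (4 * s) ^ 2 := by
        rw [mul_pow, hs2]
        linarith
      exact (sq_le_sq₀ hm0.le (by positivity)).1 h2
    have hxs : s / 4 ≤ (K : ℝ) / m := by
      rw [le_div_iff₀ hm0]
      nlinarith
    set G : ℕ := K / m with hG
    have hGx : (G : ℝ) ≤ (K : ℝ) / m := Nat.cast_div_le
    have hGx1 : (K : ℝ) / m < G + 1 := by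
      rw [div_lt_iff₀ hm0]
      have h1 : K < (K / m + 1) * m := by
        have := Nat.lt_div_mul_add (a := K) (b := m) hm
        nlinarith
      exact_mod_cast h1
    have hGs : s / 8 ≤ G := by linarith
    have hG1 : 1 ≤ G := by
      have : (1 : ℝ) ≤ G := by linarith
      exact_mod_cast this
    have hG0 : (0 : ℝ) < G := by exact_mod_cast hG1
    have hGK : (K : ℝ) ≤ (G : ℝ) ^ 3 := by
      have h1 : (s / 8) ^ 3 ≤ (G : ℝ) ^ 3 := pow_le_pow_left₀ (by positivity) hGs 3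
      have h2 : (K : ℝ) ≤ (s / 8) ^ 3 := by
        rw [← hs2]
        have h3 : (s / 8) ^ 3 - s ^ 2 = s ^ 2 * (s / 512 - 1) := by ring
        have h4 : 0 ≤ s ^ 2 * (s / 512 - 1) := by
          apply mul_nonneg (sq_nonneg s)
          linarith
        linarith
      linarith
    by_cases h4m : 4 * m ≤ m'
    · -- all terms vanish
      have h0 : ∑ n ∈ range t, kap K y (m * n) * (starRingEnd ℂ) (kap K y (m' * n)) = 0 := by
        apply sum_eq_zero
        intro n _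
        apply Corr_zero hmm
        rintro ⟨h1, h2⟩
        have h3 : 4 * m * n ≤ m' * n := Nat.mul_le_mul_right n h4m
        have h5 : 4 * m * n = 4 * (m * n) := by ring
        omega
      rw [h0, norm_zero]
      positivity
    · have h4m' : m' < 4 * m := not_le.1 h4m
      have hm0' : (0 : ℝ) < m' := by exact_mod_cast (by omega : 0 < m')
      set y' : ℝ := y * (1 / (m : ℝ) - 1 / (m' : ℝ)) with hy'
      have h1 : ∑ n ∈ range t, kap K y (m * n) * (starRingEnd ℂ) (kap K y (m' * n)) =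
          ∑ n ∈ Ico (G + 1) (min t (4 * K / m' + 1)), e (y' / n) := by
        have h2 : Ico (G + 1) (min t (4 * K / m' + 1)) =
            (range t).filter (fun n => K < m * n ∧ m' * n ≤ 4 * K) := by
          ext n
          rw [mem_Ico, mem_filter, mem_range, lt_min_iff]
          have e1 : G + 1 ≤ n ↔ K < m * n := by
            rw [hG, Nat.succ_le_iff, Nat.div_lt_iff_lt_mul hm, Nat.mul_comm n m]
          have e2 : n < 4 * K / m' + 1 ↔ m' * n ≤ 4 * K := by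
            rw [Nat.lt_succ_iff, Nat.le_div_iff_mul_le (by omega), Nat.mul_comm n m']
          rw [e1, e2]
          tauto
        rw [h2, sum_filter]
        apply sum_congr rfl
        intro n _
        split_ifs with h
        · rw [hy']
          exact Corr_term hm hmm h.1 h.2
        · exact Corr_zero hmm h
      rw [h1]
      -- size of `y'`
      have hd0 : 0 ≤ 1 / (m : ℝ) - 1 / (m' : ℝ) := by
        rw [sub_nonneg]
        apply one_div_le_one_div_of_le hm0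
        exact_mod_cast hmm.le
      have hd1 : 1 / (m : ℝ) - 1 / (m' : ℝ) ≤ 1 := by
        have h2 : 1 / (m : ℝ) ≤ 1 := by
          rw [div_le_one hm0]
          exact_mod_cast hm
        have h3 : 0 ≤ 1 / (m' : ℝ) := by positivity
        linarith
      have hd2 : 1 / (4 * (m : ℝ) ^ 2) ≤ 1 / (m : ℝ) - 1 / (m' : ℝ) := by
        have h2 : 1 / (m : ℝ) - 1 / (m' : ℝ) = ((m' : ℝ) - m) / (m * m') := by
          field_simp
        rw [h2, div_le_div_iff₀ (by positivity) (by positivity)]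
        have h3 : (1 : ℝ) ≤ (m' : ℝ) - m := by
          have : (m : ℝ) + 1 ≤ m' := by exact_mod_cast hmm
          linarith
        have h5 : (m' : ℝ) ≤ 4 * m := by exact_mod_cast h4m'.le
        have h6 : (m : ℝ) * m' ≤ 4 * (m : ℝ) ^ 2 := by nlinarith
        nlinarith [sq_nonneg (m : ℝ)]
      have hyabs : |y'| = |y| * (1 / (m : ℝ) - 1 / (m' : ℝ)) := by
        rw [hy', abs_mul, abs_of_nonneg hd0]
      have hup : |y'| ≤ (G : ℝ) ^ (3 * A) := by
        rw [hyabs]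
        calc |y| * (1 / (m : ℝ) - 1 / (m' : ℝ)) ≤ |y| * 1 :=
              mul_le_mul_of_nonneg_left hd1 (abs_nonneg _)
          _ = |y| := mul_one _
          _ ≤ (K : ℝ) ^ A := hy2
          _ ≤ ((G : ℝ) ^ 3) ^ A := rpow_le_rpow hK0.le hGK (by linarith)
          _ = (G : ℝ) ^ (3 * A) := by
              rw [← rpow_natCast, ← rpow_mul hG0.le]
              norm_num
      have hlow : (G : ℝ) ^ (1 + 1 / 10 : ℝ) ≤ |y'| := by
        rw [hyabs]
        have h2 : (K : ℝ) ^ (1.9 : ℝ) * (1 / (4 * (m : ℝ) ^ 2)) ≤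
            |y| * (1 / (m : ℝ) - 1 / (m' : ℝ)) :=
          mul_le_mul hy1 hd2 (by positivity) (abs_nonneg _)
        refine le_trans ?_ h2
        have h3 : (G : ℝ) ^ (1 + 1 / 10 : ℝ) ≤ ((K : ℝ) / m) ^ (1 + 1 / 10 : ℝ) :=
          rpow_le_rpow hG0.le hGx (by norm_num)
        refine h3.trans ?_
        rw [div_rpow hK0.le hm0.le, mul_one_div, div_le_div_iff₀ (by positivity) (by positivity)]
        -- `K^1.1 * (4 m²) ≤ K^1.9 * m^1.1`
        have hsp : (0 : ℝ) < s := by linarith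
        have e1 : (K : ℝ) ^ (1.9 : ℝ) = (K : ℝ) ^ (1 + 1 / 10 : ℝ) * (K : ℝ) ^ (0.8 : ℝ) := by
          rw [← rpow_add hK0]
          norm_num
        have e2 : (m : ℝ) ^ 2 = (m : ℝ) ^ (1 + 1 / 10 : ℝ) * (m : ℝ) ^ (0.9 : ℝ) := by
          rw [← rpow_add hm0, ← rpow_natCast]
          norm_num
        have e3 : (m : ℝ) ^ (0.9 : ℝ) ≤ (4 * s) ^ (0.9 : ℝ) := rpow_le_rpow hm0.le hms (by norm_num)
        have e4 : (4 * s) ^ (0.9 : ℝ) = 4 ^ (0.9 : ℝ) * s ^ (0.9 : ℝ) :=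
          mul_rpow (by norm_num) hs0
        have e5 : (4 : ℝ) ^ (0.9 : ℝ) ≤ 4 := by
          calc (4 : ℝ) ^ (0.9 : ℝ) ≤ (4 : ℝ) ^ (1 : ℝ) :=
                rpow_le_rpow_of_exponent_le (by norm_num) (by norm_num)
            _ = 4 := rpow_one _
        have e6 : (K : ℝ) ^ (0.8 : ℝ) = s ^ (1.6 : ℝ) := by
          rw [← hs2, ← rpow_natCast, ← rpow_mul hs0]
          norm_num
        have e7 : s ^ (1.6 : ℝ) = s ^ (0.9 : ℝ) * s ^ (0.7 : ℝ) := by
          rw [← rpow_add hsp]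
          norm_num
        have e8 : (16 : ℝ) ≤ s ^ (0.7 : ℝ) := by
          calc (16 : ℝ) ≤ (4096 : ℝ) ^ (0.5 : ℝ) := by
                have h9 : (4096 : ℝ) ^ (0.5 : ℝ) = 64 := by
                  rw [show (4096 : ℝ) = 64 ^ (2 : ℝ) by norm_num, ← rpow_mul (by norm_num)]
                  norm_num
                rw [h9]
                norm_num
            _ ≤ (4096 : ℝ) ^ (0.7 : ℝ) :=
                rpow_le_rpow_of_exponent_le (by norm_num) (by norm_num)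
            _ ≤ s ^ (0.7 : ℝ) := rpow_le_rpow (by norm_num) hs4096 (by norm_num)
        have p1 : 0 < (K : ℝ) ^ (1 + 1 / 10 : ℝ) := rpow_pos_of_pos hK0 _
        have p2 : 0 < (m : ℝ) ^ (1 + 1 / 10 : ℝ) := rpow_pos_of_pos hm0 _
        have p3 : 0 < s ^ (0.9 : ℝ) := rpow_pos_of_pos hsp _
        have q1 : 4 * (m : ℝ) ^ (0.9 : ℝ) ≤ (K : ℝ) ^ (0.8 : ℝ) := by
          rw [e6, e7]
          rw [e4] at e3
          have q2 : 4 ^ (0.9 : ℝ) * s ^ (0.9 : ℝ) ≤ 4 * s ^ (0.9 : ℝ) :=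
            mul_le_mul_of_nonneg_right e5 p3.le
          have q3 : s ^ (0.9 : ℝ) * 16 ≤ s ^ (0.9 : ℝ) * s ^ (0.7 : ℝ) :=
            mul_le_mul_of_nonneg_left e8 p3.le
          linarith
        calc (K : ℝ) ^ (1 + 1 / 10 : ℝ) * (4 * (m : ℝ) ^ 2)
            = (K : ℝ) ^ (1 + 1 / 10 : ℝ) * (m : ℝ) ^ (1 + 1 / 10 : ℝ) *
              (4 * (m : ℝ) ^ (0.9 : ℝ)) := by rw [e2]; ring
          _ ≤ (K : ℝ) ^ (1 + 1 / 10 : ℝ) * (m : ℝ) ^ (1 + 1 / 10 : ℝ) * (K : ℝ) ^ (0.8 : ℝ) :=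
              mul_le_mul_of_nonneg_left q1 (by positivity)
          _ = (K : ℝ) ^ (1.9 : ℝ) * (m : ℝ) ^ (1 + 1 / 10 : ℝ) := by rw [e1]; ring
      have hb : min t (4 * K / m' + 1) ≤ 16 * G := by
        have h2 : 4 * K / m' ≤ 4 * K / m := Nat.div_le_div_left hmm.le hm
        have h3 : 4 * K / m < 4 * (G + 1) := by
          rw [Nat.div_lt_iff_lt_mul hm]
          have h5 : K < (G + 1) * m := by
            have h6 : (K : ℝ) < (G + 1) * m := by
              rwa [div_lt_iff₀ hm0] at hGx1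
            exact_mod_cast h6
          nlinarith
        have h5 := min_le_right t (4 * K / m' + 1)
        omega
      have hW := hw G y' hG1 hlow hup (G + 1) (min t (4 * K / m' + 1)) (by omega) hb
      refine hW.trans ?_
      have h2 : (G : ℝ) ^ (1 - η) ≤ ((K : ℝ) / m) ^ (1 - η) :=
        rpow_le_rpow hG0.le hGx (by linarith)
      have h3 : C0 * (G : ℝ) ^ (1 - η) ≤ C0 * ((K : ℝ) / m) ^ (1 - η) :=
        mul_le_mul_of_nonneg_left h2 (by linarith)
      nlinarith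

/-- correlations; `m² ≤ 16 K` (not needed for `m'`) -/
theorem corr (A : ℝ) (hA : 2 ≤ A) : ∃ η : ℝ, 0 < η ∧ η ≤ 1 / 4 ∧ ∃ C : ℝ, 1 ≤ C ∧
    ∀ (K : ℕ) (y : ℝ), 1 ≤ K → (K : ℝ) ^ (1.9 : ℝ) ≤ |y| → |y| ≤ (K : ℝ) ^ A → ∀ m m' t : ℕ,
      1 ≤ m → 1 ≤ m' → m ≠ m' → m ^ 2 ≤ 16 * K → m' ^ 2 ≤ 16 * K →
      ‖∑ n ∈ range t, kap K y (m * n) * (starRingEnd ℂ) (kap K y (m' * n))‖ ≤
        C * ((K : ℝ) / (min m m' : ℕ)) ^ (1 - η) := by
  obtain ⟨η, hη, hη4, C, hC, hw⟩ := Corr_core A hA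
  refine ⟨η, hη, hη4, C, hC, ?_⟩
  intro K y hK hy1 hy2 m m' t hm hm' hne hm2 hm2'
  rcases Nat.lt_or_ge m m' with h | h
  · rw [min_eq_left h.le]
    exact hw K y hK hy1 hy2 m m' t hm h hm2
  · have h' : m' < m := lt_of_le_of_ne h (Ne.symm hne)
    rw [min_eq_right h]
    have h1 := hw K y hK hy1 hy2 m' m t hm' h' hm2'
    have h2 : ∑ n ∈ range t, kap K y (m * n) * (starRingEnd ℂ) (kap K y (m' * n)) =
        (starRingEnd ℂ) (∑ n ∈ range t, kap K y (m' * n) * (starRingEnd ℂ) (kap K y (m * n))) := by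
      rw [map_sum]
      apply sum_congr rfl
      intro n _
      rw [map_mul, Complex.conj_conj]
      ring
    rw [h2, RCLike.norm_conj]
    exact h1

end Pool.Agent.Lib.MP_50b5e1_nt
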