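import Mathlib
import Pool.Agent.Lib.MP_2a816b_nt.Trunc

/-!
# X/TT: Schur test for `K K*`

Proof of `opB_of_rows`.  By Cauchy-Schwarz (`Finset.sum_comm`, then over `n`)
`‖∑_m ∑_n x m y n K m n‖² ≤ (∑ ‖y n‖²) ∑_n ‖∑_m x m K m n‖²`, and
`∑_n ‖∑_m x m K m n‖² = ∑_{m,m'} x m conj (x m') ∑_n K m n conj (K m' n) ≤ ∑_{m,m'} (‖x m‖² + ‖x m'‖²)/2 * g m m'`,
`g m m' = ‖∑_n K m n conj (K m' n)‖` symmetric, `≤ B² ∑ ‖x m‖²`.  `opB_of_cols` is the same with the variables exchanged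
(or apply `opB_of_rows` to the transposed kernel).
-/

open Finset Real
open Pool.Agent.Lib.MP_2a816b_nt (OpB)

namespace Pool.Agent.Lib.MP_50b5e1_nt

private lemma TT_sq (k : ℕ → ℕ → ℂ) (M N : ℕ) (B : ℝ)
    (h : ∀ m ∈ range M, ∑ m' ∈ range M, ‖∑ n ∈ range N, k m n * (starRingEnd ℂ) (k m' n)‖ ≤ B ^ 2)
    (x : ℕ → ℂ) :
    ∑ n ∈ range N, ‖∑ m ∈ range M, x m * k m n‖ ^ 2 ≤ B ^ 2 * ∑ m ∈ range M, ‖x m‖ ^ 2 := by
  set g : ℕ → ℕ → ℝ := fun m m' => ‖∑ n ∈ range N, k m n * (starRingEnd ℂ) (k m' n)‖ with hg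
  have hsymm : ∀ m m', g m m' = g m' m := by
    intro m m'
    simp only [hg]
    rw [← Complex.norm_conj]
    congr 1
    rw [map_sum]
    refine sum_congr rfl fun n _ => ?_
    rw [map_mul, Complex.conj_conj, mul_comm]
  have hg0 : ∀ m m', 0 ≤ g m m' := fun m m' => norm_nonneg _
  have h1 : ((∑ n ∈ range N, ‖∑ m ∈ range M, x m * k m n‖ ^ 2 : ℝ) : ℂ) =
      ∑ m ∈ range M, ∑ m' ∈ range M, x m * (starRingEnd ℂ) (x m') *
        ∑ n ∈ range N, k m n * (starRingEnd ℂ) (k m' n) := by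
    rw [Complex.ofReal_sum]
    have h2 : ∀ n, ((‖∑ m ∈ range M, x m * k m n‖ ^ 2 : ℝ) : ℂ) =
        ∑ m ∈ range M, ∑ m' ∈ range M, x m * (starRingEnd ℂ) (x m') *
          (k m n * (starRingEnd ℂ) (k m' n)) := by
      intro n
      rw [← Complex.normSq_eq_norm_sq, ← Complex.mul_conj, map_sum, sum_mul_sum]
      refine sum_congr rfl fun m _ => sum_congr rfl fun m' _ => ?_
      rw [map_mul]
      ring
    rw [sum_congr rfl fun n _ => h2 n, sum_comm]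
    refine sum_congr rfl fun m _ => ?_
    rw [sum_comm]
    refine sum_congr rfl fun m' _ => ?_
    rw [mul_sum]
  have h3 : ∑ n ∈ range N, ‖∑ m ∈ range M, x m * k m n‖ ^ 2 ≤
      ∑ m ∈ range M, ∑ m' ∈ range M, ‖x m‖ * ‖x m'‖ * g m m' := by
    have h4 : ∑ n ∈ range N, ‖∑ m ∈ range M, x m * k m n‖ ^ 2 =
        ‖((∑ n ∈ range N, ‖∑ m ∈ range M, x m * k m n‖ ^ 2 : ℝ) : ℂ)‖ := by
      rw [Complex.norm_real, Real.norm_eq_abs, abs_of_nonneg (sum_nonneg fun n _ => by positivity)]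
    rw [h4, h1]
    refine (norm_sum_le _ _).trans (sum_le_sum fun m _ => ?_)
    refine (norm_sum_le _ _).trans (sum_le_sum fun m' _ => ?_)
    rw [norm_mul, norm_mul, Complex.norm_conj]
  refine h3.trans ?_
  have h5 : ∑ m ∈ range M, ∑ m' ∈ range M, ‖x m‖ * ‖x m'‖ * g m m' ≤
      ∑ m ∈ range M, ∑ m' ∈ range M, (‖x m‖ ^ 2 / 2 * g m m' + ‖x m'‖ ^ 2 / 2 * g m' m) := by
    refine sum_le_sum fun m _ => sum_le_sum fun m' _ => ?_
    rw [hsymm m' m, ← add_mul]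
    refine mul_le_mul_of_nonneg_right ?_ (hg0 m m')
    nlinarith [sq_nonneg (‖x m‖ - ‖x m'‖)]
  refine h5.trans ?_
  have h6 : ∑ m ∈ range M, ∑ m' ∈ range M, (‖x m‖ ^ 2 / 2 * g m m' + ‖x m'‖ ^ 2 / 2 * g m' m) =
      ∑ m ∈ range M, ‖x m‖ ^ 2 * ∑ m' ∈ range M, g m m' := by
    simp only [sum_add_distrib]
    rw [sum_comm (f := fun m m' => ‖x m'‖ ^ 2 / 2 * g m' m), ← sum_add_distrib]
    refine sum_congr rfl fun m _ => ?_
    rw [← mul_sum]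
    ring
  rw [h6, mul_sum]
  refine sum_le_sum fun m hm => ?_
  rw [mul_comm (B ^ 2)]
  exact mul_le_mul_of_nonneg_left (h m hm) (by positivity)

theorem opB_of_rows (k : ℕ → ℕ → ℂ) (M N : ℕ) (B : ℝ) (hB : 0 ≤ B)
    (h : ∀ m ∈ range M, ∑ m' ∈ range M, ‖∑ n ∈ range N, k m n * (starRingEnd ℂ) (k m' n)‖ ≤ B ^ 2) :
    OpB k M N B := by
  intro x y
  have h1 : ∑ m ∈ range M, ∑ n ∈ range N, x m * y n * k m n =
      ∑ n ∈ range N, y n * ∑ m ∈ range M, x m * k m n := by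
    rw [sum_comm]
    refine sum_congr rfl fun n _ => ?_
    rw [mul_sum]
    refine sum_congr rfl fun m _ => ?_
    ring
  rw [h1]
  have h2 : ‖∑ n ∈ range N, y n * ∑ m ∈ range M, x m * k m n‖ ≤
      ∑ n ∈ range N, ‖y n‖ * ‖∑ m ∈ range M, x m * k m n‖ := by
    refine (norm_sum_le _ _).trans (le_of_eq (sum_congr rfl fun n _ => norm_mul _ _))
  refine h2.trans ((Real.sum_mul_le_sqrt_mul_sqrt _ _ _).trans ?_)
  have h3 : √(∑ n ∈ range N, ‖∑ m ∈ range M, x m * k m n‖ ^ 2) ≤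
      B * √(∑ m ∈ range M, ‖x m‖ ^ 2) := by
    have h4 := Real.sqrt_le_sqrt (TT_sq k M N B h x)
    rwa [Real.sqrt_mul (sq_nonneg B), Real.sqrt_sq hB] at h4
  calc √(∑ n ∈ range N, ‖y n‖ ^ 2) * √(∑ n ∈ range N, ‖∑ m ∈ range M, x m * k m n‖ ^ 2) ≤
      √(∑ n ∈ range N, ‖y n‖ ^ 2) * (B * √(∑ m ∈ range M, ‖x m‖ ^ 2)) :=
        mul_le_mul_of_nonneg_left h3 (Real.sqrt_nonneg _)
    _ = B * (√(∑ m ∈ range M, ‖x m‖ ^ 2) * √(∑ n ∈ range N, ‖y n‖ ^ 2)) := by ring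

theorem opB_of_cols (k : ℕ → ℕ → ℂ) (M N : ℕ) (B : ℝ) (hB : 0 ≤ B)
    (h : ∀ n ∈ range N, ∑ n' ∈ range N, ‖∑ m ∈ range M, k m n * (starRingEnd ℂ) (k m n')‖ ≤ B ^ 2) :
    OpB k M N B := by
  intro x y
  have h1 := opB_of_rows (fun n m => k m n) N M B hB h y x
  rw [sum_comm] at h1
  have h2 : ∑ m ∈ range M, ∑ n ∈ range N, x m * y n * k m n =
      ∑ m ∈ range M, ∑ n ∈ range N, y n * x m * k m n :=
    sum_congr rfl fun m _ => sum_congr rfl fun n _ => by ring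
  rw [h2]
  refine h1.trans (le_of_eq ?_)
  ring

end Pool.Agent.Lib.MP_50b5e1_nt
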