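import Mathlib
import Pool.Agent.Lib.MP_50b5e1_nt.X.Corr
import Pool.Agent.Lib.MP_50b5e1_nt.X.TT

/-!
# X/Block: one dyadic block of the type II sums

Proof of `block`.  Let `η₀, C₀` be the constants of `corr`, `η = η₀/4`, `P = 2^i`, `M = 2^(i+1)`, `N' = 4*K/2^i + 1 ≤ 8K/P` (as `P ≤ 4K`).
The sums below are `0` unless there are `m < M`, `n < N'` with `K < m n` (`kap` vanishes otherwise), hence `m > P/4` and `n > K/(2P)`.

Case `4^i ≤ 4K` (`P ≤ √(4K)`, `(2P)² ≤ 16K`): `opB_of_rows`.  Row `m = 0`: all terms `0`.  For `m ≥ 1`: `m' = 0`: `0`; `m' = m`: at most `N' ≤ 8K/P` (`norm_kap_le`);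
`m' ≠ m`: `0`, or `m, m' > P/4` and `corr` gives `≤ C₀ (K / min m m')^(1-η₀) ≤ C₀ (4K/P)^(1-η₀)`.
So `B² = 8K/P + 2P C₀ (4K/P)^(1-η₀)` works and (`√P √(2·4K/P) = √(8K)`)
`T² = 8K B² = 64 K²/P + 64 K² C₀ (4K/P)^(-η₀) ≤ 128 K²/U + 64 C₀ K² K^(-η₀/2)` (`P ≥ U/2`, `4K/P ≥ √(4K) ≥ √K`).

Case `4^i > 4K`: `opB_of_cols` (`n < N'` means `n ≤ 4K/P < √(4K)`, so `n² ≤ 16K`), and `kap K y (m*n) = kap K y (n*m)`: diagonal `≤ M = 2P`, off-diagonal
`0`, or `n, n' > K/(2P)` and `≤ C₀ (K / min n n')^(1-η₀) ≤ C₀ (2P)^(1-η₀)`.  So `B² = 2P + (8K/P) C₀ (2P)^(1-η₀)`,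
`T² = 8K B² = 16 K P + 128 K² C₀ (2P)^(-η₀) ≤ 64 K²/U + 128 C₀ K² K^(-η₀/2)` (`P U ≤ 4K`, `2P ≥ √K`).

In both cases `T ≤ 12 K/√U + 12 √C₀ K^(1-η₀/4) ≤ C (K/√U + K^(1-η))` with `C = 12 C₀`.
-/

open Finset Real
open Pool.Agent.Lib.MP_2a816b_nt (e norm_e conj_e e_add e_neg OpB)

namespace Pool.Agent.Lib.MP_50b5e1_nt

private lemma block_fin (K U P C₀ η₀ Q : ℝ) (hK : 1 ≤ K) (hU : 1 ≤ U) (hP : 0 < P) (hC : 1 ≤ C₀)
    (hQ : 0 ≤ Q) (h : 8 * K * Q ≤ 128 * K ^ 2 / U + 128 * C₀ * K ^ (2 - η₀ / 2)) :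
    √Q * (√P * √(2 * (4 * K) / P)) ≤ 12 * C₀ * (K / √U + K ^ (1 - η₀ / 4)) := by
  have hK0 : 0 < K := by linarith
  have hU0 : 0 < U := by linarith
  have e1 : √Q * (√P * √(2 * (4 * K) / P)) = √(8 * K * Q) := by
    rw [← Real.sqrt_mul hP.le, ← Real.sqrt_mul hQ]
    congr 1
    field_simp
    ring
  rw [e1]
  apply Real.sqrt_le_iff.2
  constructor
  · positivity
  · have s1 : √U ^ 2 = U := Real.sq_sqrt hU0.le
    have s2 : (K ^ (1 - η₀ / 4)) ^ 2 = K ^ (2 - η₀ / 2) := by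
      rw [← Real.rpow_natCast, ← Real.rpow_mul hK0.le]
      congr 1
      push_cast
      ring
    have ha2 : (K / √U) ^ 2 = K ^ 2 / U := by rw [div_pow, s1]
    have ha : 0 ≤ K / √U := by positivity
    have hb : 0 ≤ K ^ (1 - η₀ / 4) := by positivity
    rw [← s2] at h
    have h2 : 8 * K * Q ≤ 128 * (K / √U) ^ 2 + 128 * C₀ * (K ^ (1 - η₀ / 4)) ^ 2 := by
      rw [ha2]
      calc _ ≤ _ := h
        _ = _ := by ring
    generalize K / √U = a at ha h2 ⊢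
    generalize K ^ (1 - η₀ / 4) = b at hb h2 ⊢
    have hC2 : 1 ≤ C₀ ^ 2 := by nlinarith
    have hC3 : C₀ ≤ C₀ ^ 2 := by nlinarith
    have ha' : 0 ≤ a ^ 2 := sq_nonneg a
    have hb' : 0 ≤ b ^ 2 := sq_nonneg b
    have hab : 0 ≤ a * b := mul_nonneg ha hb
    have t1 : a ^ 2 ≤ C₀ ^ 2 * a ^ 2 := by nlinarith
    have t2 : C₀ * b ^ 2 ≤ C₀ ^ 2 * b ^ 2 := by nlinarith
    have t3 : 0 ≤ C₀ ^ 2 * (a * b) := by positivity
    have t4 : 0 ≤ C₀ ^ 2 * b ^ 2 := by positivity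
    have t5 : 0 ≤ C₀ ^ 2 * a ^ 2 := by positivity
    nlinarith

private lemma block_off (K : ℕ) (y : ℝ) (C₀ η₀ R : ℝ) (hC : 1 ≤ C₀) (hη : η₀ ≤ 1 / 4) (hR : 0 < R)
    (hK : 1 ≤ K) (t : ℕ) (ht : ∀ n < t, (n : ℝ) ≤ R) (m m' : ℕ)
    (hcorr : 1 ≤ m → 1 ≤ m' →
      ‖∑ n ∈ range t, kap K y (m * n) * (starRingEnd ℂ) (kap K y (m' * n))‖ ≤
        C₀ * ((K : ℝ) / (min m m' : ℕ)) ^ (1 - η₀)) :
    ‖∑ n ∈ range t, kap K y (m * n) * (starRingEnd ℂ) (kap K y (m' * n))‖ ≤ C₀ * R ^ (1 - η₀) := by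
  have hpos : 0 ≤ C₀ * R ^ (1 - η₀) := by positivity
  by_cases hz : ((min m m' : ℕ) : ℝ) * R ≤ K
  · have : ∑ n ∈ range t, kap K y (m * n) * (starRingEnd ℂ) (kap K y (m' * n)) = 0 := by
      apply sum_eq_zero
      intro n hn
      rw [mem_range] at hn
      have hnR := ht n hn
      have h1 : ((min m m' : ℕ) : ℝ) * n ≤ K := by
        refine le_trans ?_ hz
        gcongr
      have h2 : (min m m') * n ≤ K := by exact_mod_cast h1
      rcases le_total m m' with hm | hm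
      · rw [min_eq_left hm] at h2
        have : kap K y (m * n) = 0 := by
          unfold kap
          rw [if_neg]
          omega
        rw [this, zero_mul]
      · rw [min_eq_right hm] at h2
        have : kap K y (m' * n) = 0 := by
          unfold kap
          rw [if_neg]
          omega
        rw [this, map_zero, mul_zero]
    rw [this, norm_zero]
    exact hpos
  · push Not at hz
    have hK0 : (0 : ℝ) < K := by exact_mod_cast hK
    have hmin : 0 < min m m' := by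
      rcases Nat.eq_zero_or_pos (min m m') with h | h
      · rw [h] at hz
        simp only [Nat.cast_zero, zero_mul] at hz
        linarith
      · exact h
    have h1 : 1 ≤ m := by omega
    have h2 : 1 ≤ m' := by omega
    refine (hcorr h1 h2).trans ?_
    have h3 : (K : ℝ) / (min m m' : ℕ) ≤ R := by
      have : (0 : ℝ) < (min m m' : ℕ) := by exact_mod_cast hmin
      rw [div_le_iff₀ this]
      linarith
    have h4 : 0 ≤ 1 - η₀ := by linarith
    gcongr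

private lemma block_row (K : ℕ) (y : ℝ) (C₀ η₀ R : ℝ) (hC : 1 ≤ C₀) (hη : η₀ ≤ 1 / 4) (hR : 0 < R)
    (hK : 1 ≤ K) (M t : ℕ) (ht : ∀ n < t, (n : ℝ) ≤ R)
    (hcorr : ∀ m m' : ℕ, m < M → m' < M → 1 ≤ m → 1 ≤ m' → m ≠ m' →
      ‖∑ n ∈ range t, kap K y (m * n) * (starRingEnd ℂ) (kap K y (m' * n))‖ ≤
        C₀ * ((K : ℝ) / (min m m' : ℕ)) ^ (1 - η₀)) (m : ℕ) (hm : m < M) :
    ∑ m' ∈ range M, ‖∑ n ∈ range t, kap K y (m * n) * (starRingEnd ℂ) (kap K y (m' * n))‖ ≤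
      t + M * (C₀ * R ^ (1 - η₀)) := by
  have hpos : 0 ≤ C₀ * R ^ (1 - η₀) := by positivity
  calc ∑ m' ∈ range M, ‖∑ n ∈ range t, kap K y (m * n) * (starRingEnd ℂ) (kap K y (m' * n))‖
      ≤ ∑ m' ∈ range M, ((if m' = m then (t : ℝ) else 0) + C₀ * R ^ (1 - η₀)) := by
        apply sum_le_sum
        intro m' hm'
        rw [mem_range] at hm'
        by_cases h : m' = m
        · rw [if_pos h]
          have : ‖∑ n ∈ range t, kap K y (m * n) * (starRingEnd ℂ) (kap K y (m' * n))‖ ≤ t := by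
            refine (norm_sum_le _ _).trans ?_
            calc _ ≤ ∑ n ∈ range t, (1 : ℝ) := by
                  apply sum_le_sum
                  intro n _
                  rw [norm_mul, RCLike.norm_conj]
                  have h1 := norm_kap_le K y (m * n)
                  have h2 := norm_kap_le K y (m' * n)
                  have h3 := norm_nonneg (kap K y (m * n))
                  have h4 := norm_nonneg (kap K y (m' * n))
                  nlinarith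
              _ = t := by simp
          linarith
        · rw [if_neg h, zero_add]
          exact block_off K y C₀ η₀ R hC hη hR hK t ht m m'
            (fun h1 h2 => hcorr m m' hm hm' h1 h2 (fun h3 => h h3.symm))
    _ = t + M * (C₀ * R ^ (1 - η₀)) := by
        rw [sum_add_distrib, sum_const, card_range, nsmul_eq_mul, sum_ite_eq' (range M) m, if_pos (mem_range.2 hm)]

theorem block (A : ℝ) (hA : 2 ≤ A) : ∃ η : ℝ, 0 < η ∧ η ≤ 1 / 4 ∧ ∃ C : ℝ, 1 ≤ C ∧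
    ∀ (K U i : ℕ) (y : ℝ), 1 ≤ K → 1 ≤ U → (K : ℝ) ^ (1.9 : ℝ) ≤ |y| → |y| ≤ (K : ℝ) ^ A →
      2 ^ i ≤ 4 * K → U < 2 ^ (i + 1) → 2 ^ i * U ≤ 4 * K →
      ∃ B : ℝ, 0 ≤ B ∧ OpB (fun m n => kap K y (m * n)) (2 ^ (i + 1)) (4 * K / 2 ^ i + 1) B ∧
        B * (√(2 ^ i) * √(2 * ((4 * K : ℕ) : ℝ) / 2 ^ i)) ≤ C * (K / √U + (K : ℝ) ^ (1 - η)) := by
  obtain ⟨η₀, hη₀, hη₁, C₀, hC₀, hcorr⟩ := corr A hA
  refine ⟨η₀ / 4, by linarith, by linarith, 12 * C₀, by linarith, ?_⟩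
  intro K U i y hK hU hy1 hy2 hi hUi hPU
  have hKr : (1 : ℝ) ≤ K := by exact_mod_cast hK
  have hUr : (1 : ℝ) ≤ U := by exact_mod_cast hU
  have hK0 : (0 : ℝ) < K := by linarith
  have hU0 : (0 : ℝ) < U := by linarith
  obtain ⟨P, hP⟩ : ∃ P : ℕ, P = 2 ^ i := ⟨_, rfl⟩
  have hP1 : 1 ≤ P := by rw [hP]; exact Nat.one_le_two_pow
  have hPr : (1 : ℝ) ≤ P := by exact_mod_cast hP1
  have hP0 : (0 : ℝ) < P := by linarith
  have hpow : (2 : ℝ) ^ i = P := by rw [hP]; push_cast; rfl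
  have hpow1 : 2 ^ (i + 1) = 2 * P := by rw [hP, pow_succ]; ring
  rw [hpow1] at hUi ⊢
  rw [hpow]
  rw [← hP] at hi hPU ⊢
  have hir : (P : ℝ) ≤ 4 * K := by exact_mod_cast hi
  have hUir : (U : ℝ) ≤ 2 * P := by exact_mod_cast hUi.le
  have hPUr : (P : ℝ) * U ≤ 4 * K := by exact_mod_cast hPU
  have hcast : ((4 * K : ℕ) : ℝ) = 4 * K := by push_cast; ring
  rw [hcast]
  -- the length of the n-range
  have hN : ((4 * K / P + 1 : ℕ) : ℝ) ≤ 8 * K / P := by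
    push_cast
    have h1 : ((4 * K / P : ℕ) : ℝ) ≤ 4 * K / P := by
      have := @Nat.cast_div_le ℝ _ _ _ (4 * K) P
      push_cast at this
      exact this
    have h2 : (1 : ℝ) ≤ 4 * K / P := by
      rw [le_div_iff₀ hP0]; linarith
    calc ((4 * K / P : ℕ) : ℝ) + 1 ≤ 4 * K / P + 4 * K / P := by linarith
      _ = 8 * K / P := by ring
  have hn : ∀ n < 4 * K / P + 1, (n : ℝ) ≤ 4 * K / P := by
    intro n hn
    have h0 : n ≤ 4 * K / P := by omega
    have h1 : ((4 * K / P : ℕ) : ℝ) ≤ 4 * K / P := by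
      have := @Nat.cast_div_le ℝ _ _ _ (4 * K) P
      push_cast at this
      exact this
    refine le_trans ?_ h1
    exact_mod_cast h0
  have hη2 : 0 ≤ 1 - η₀ := by linarith
  by_cases hcase : P ^ 2 ≤ 4 * K
  · -- rows
    have hcase' : (P : ℝ) ^ 2 ≤ 4 * K := by exact_mod_cast hcase
    set R : ℝ := 4 * K / P with hR
    have hR0 : 0 < R := by positivity
    set Q : ℝ := ((4 * K / P + 1 : ℕ) : ℝ) + ((2 * P : ℕ) : ℝ) * (C₀ * R ^ (1 - η₀)) with hQ
    have hQ0 : 0 ≤ Q := by positivity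
    have hsq : ∀ m < 2 * P, m ^ 2 ≤ 16 * K := by
      intro m hm
      have : m ^ 2 ≤ (2 * P) ^ 2 := Nat.pow_le_pow_left hm.le 2
      calc m ^ 2 ≤ (2 * P) ^ 2 := this
        _ = 4 * P ^ 2 := by ring
        _ ≤ 4 * (4 * K) := by omega
        _ = 16 * K := by ring
    refine ⟨√Q, Real.sqrt_nonneg _, ?_, ?_⟩
    · apply opB_of_rows _ _ _ _ (Real.sqrt_nonneg _)
      intro m hm
      rw [mem_range] at hm
      rw [Real.sq_sqrt hQ0]
      exact block_row K y C₀ η₀ R hC₀ hη₁ hR0 hK (2 * P) (4 * K / P + 1) hn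
        (fun m m' hm hm' h1 h2 h3 => hcorr K y hK hy1 hy2 m m' _ h1 h2 h3 (hsq m hm) (hsq m' hm')) m hm
    · apply block_fin K U P C₀ η₀ Q hKr hUr hP0 hC₀ hQ0
      have a1 : 8 * (K : ℝ) * ((4 * K / P + 1 : ℕ) : ℝ) ≤ 128 * K ^ 2 / U := by
        calc 8 * (K : ℝ) * ((4 * K / P + 1 : ℕ) : ℝ) ≤ 8 * K * (8 * K / P) := by gcongr
          _ = 64 * K ^ 2 / P := by ring
          _ ≤ 64 * K ^ 2 / (U / 2) := by
              gcongr
              linarith
          _ = 128 * K ^ 2 / U := by ring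
      have a2 : 8 * (K : ℝ) * (((2 * P : ℕ) : ℝ) * (C₀ * R ^ (1 - η₀))) ≤
          128 * C₀ * K ^ (2 - η₀ / 2) := by
        have b1 : R ^ (1 - η₀) = R * R ^ (-η₀) := by
          rw [sub_eq_add_neg, Real.rpow_add hR0, Real.rpow_one]
        have b2 : R ^ (-η₀) ≤ (K : ℝ) ^ (-(η₀ / 2)) := by
          have c1 : (K : ℝ) ^ (1 / 2 : ℝ) ≤ R := by
            rw [← Real.sqrt_eq_rpow]
            apply Real.sqrt_le_iff.2
            refine ⟨hR0.le, ?_⟩
            rw [hR, div_pow, le_div_iff₀ (by positivity)]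
            nlinarith
          calc R ^ (-η₀) ≤ ((K : ℝ) ^ (1 / 2 : ℝ)) ^ (-η₀) := by
                apply Real.rpow_le_rpow_of_nonpos (by positivity) c1
                linarith
            _ = (K : ℝ) ^ (-(η₀ / 2)) := by
                rw [← Real.rpow_mul hK0.le]
                congr 1
                ring
        have b3 : (K : ℝ) ^ (2 - η₀ / 2) = K ^ 2 * (K : ℝ) ^ (-(η₀ / 2)) := by
          rw [sub_eq_add_neg, Real.rpow_add hK0, Real.rpow_two]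
        rw [b1, b3]
        have b4 : 0 ≤ (K : ℝ) ^ (-(η₀ / 2)) := by positivity
        push_cast
        calc 8 * (K : ℝ) * (2 * (P : ℝ) * (C₀ * (R * R ^ (-η₀))))
            = 16 * K * C₀ * (P * R) * R ^ (-η₀) := by ring
          _ = 64 * C₀ * K ^ 2 * R ^ (-η₀) := by
              have : (P : ℝ) * R = 4 * K := by rw [hR]; field_simp
              rw [this]; ring
          _ ≤ 64 * C₀ * K ^ 2 * (K : ℝ) ^ (-(η₀ / 2)) := by gcongr
          _ ≤ 128 * C₀ * (K ^ 2 * (K : ℝ) ^ (-(η₀ / 2))) := by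
              have : 0 ≤ C₀ * (K ^ 2 * (K : ℝ) ^ (-(η₀ / 2))) := by positivity
              nlinarith
      calc 8 * (K : ℝ) * Q = 8 * (K : ℝ) * ((4 * K / P + 1 : ℕ) : ℝ) +
            8 * (K : ℝ) * (((2 * P : ℕ) : ℝ) * (C₀ * R ^ (1 - η₀))) := by rw [hQ]; ring
        _ ≤ _ := add_le_add a1 a2
  · -- columns
    push Not at hcase
    have hcase' : 4 * (K : ℝ) ≤ (P : ℝ) ^ 2 := by exact_mod_cast hcase.le
    set R : ℝ := 2 * P with hR
    have hR0 : 0 < R := by positivity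
    set Q : ℝ := ((2 * P : ℕ) : ℝ) + ((4 * K / P + 1 : ℕ) : ℝ) * (C₀ * R ^ (1 - η₀)) with hQ
    have hQ0 : 0 ≤ Q := by positivity
    have hsq : ∀ n < 4 * K / P + 1, n ^ 2 ≤ 16 * K := by
      intro n hn'
      have h0 : n ≤ 4 * K / P := by omega
      have h1 : n * P ≤ 4 * K := (Nat.mul_le_mul_right P h0).trans (Nat.div_mul_le_self _ _)
      have h2 : n ^ 2 * P ^ 2 ≤ (4 * K) ^ 2 := by
        rw [← mul_pow]; exact Nat.pow_le_pow_left h1 2
      have h3 : n ^ 2 * (4 * K) ≤ (4 * K) * (4 * K) := by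
        calc n ^ 2 * (4 * K) ≤ n ^ 2 * P ^ 2 := Nat.mul_le_mul_left _ hcase.le
          _ ≤ (4 * K) ^ 2 := h2
          _ = (4 * K) * (4 * K) := by ring
      have h4 : n ^ 2 ≤ 4 * K := Nat.le_of_mul_le_mul_right h3 (by omega)
      omega
    have hm' : ∀ n < 2 * P, (n : ℝ) ≤ R := by
      intro n hn'
      rw [hR]
      exact_mod_cast hn'.le
    refine ⟨√Q, Real.sqrt_nonneg _, ?_, ?_⟩
    · apply opB_of_cols _ _ _ _ (Real.sqrt_nonneg _)
      intro n hn'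
      rw [mem_range] at hn'
      rw [Real.sq_sqrt hQ0]
      have := block_row K y C₀ η₀ R hC₀ hη₁ hR0 hK (4 * K / P + 1) (2 * P) hm'
        (fun m m' hm hm' h1 h2 h3 => hcorr K y hK hy1 hy2 m m' _ h1 h2 h3 (hsq m hm) (hsq m' hm')) n hn'
      simpa only [hQ, mul_comm] using this
    · apply block_fin K U P C₀ η₀ Q hKr hUr hP0 hC₀ hQ0
      have a1 : 8 * (K : ℝ) * ((2 * P : ℕ) : ℝ) ≤ 128 * K ^ 2 / U := by
        push_cast
        have : (P : ℝ) ≤ 4 * K / U := by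
          rw [le_div_iff₀ hU0]; exact hPUr
        calc 8 * (K : ℝ) * (2 * P) ≤ 8 * K * (2 * (4 * K / U)) := by gcongr
          _ = 64 * K ^ 2 / U := by ring
          _ ≤ 128 * K ^ 2 / U := by
              gcongr
              norm_num
      have a2 : 8 * (K : ℝ) * (((4 * K / P + 1 : ℕ) : ℝ) * (C₀ * R ^ (1 - η₀))) ≤
          128 * C₀ * K ^ (2 - η₀ / 2) := by
        have b1 : R ^ (1 - η₀) = R * R ^ (-η₀) := by
          rw [sub_eq_add_neg, Real.rpow_add hR0, Real.rpow_one]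
        have b2 : R ^ (-η₀) ≤ (K : ℝ) ^ (-(η₀ / 2)) := by
          have c1 : (K : ℝ) ^ (1 / 2 : ℝ) ≤ R := by
            rw [← Real.sqrt_eq_rpow]
            apply Real.sqrt_le_iff.2
            refine ⟨hR0.le, ?_⟩
            rw [hR]
            nlinarith
          calc R ^ (-η₀) ≤ ((K : ℝ) ^ (1 / 2 : ℝ)) ^ (-η₀) := by
                apply Real.rpow_le_rpow_of_nonpos (by positivity) c1
                linarith
            _ = (K : ℝ) ^ (-(η₀ / 2)) := by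
                rw [← Real.rpow_mul hK0.le]
                congr 1
                ring
        have b3 : (K : ℝ) ^ (2 - η₀ / 2) = K ^ 2 * (K : ℝ) ^ (-(η₀ / 2)) := by
          rw [sub_eq_add_neg, Real.rpow_add hK0, Real.rpow_two]
        rw [b1, b3]
        have b4 : 0 ≤ (K : ℝ) ^ (-(η₀ / 2)) := by positivity
        calc 8 * (K : ℝ) * (((4 * K / P + 1 : ℕ) : ℝ) * (C₀ * (R * R ^ (-η₀))))
            ≤ 8 * (K : ℝ) * ((8 * K / P) * (C₀ * (R * R ^ (-η₀)))) := by gcongr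
          _ = 128 * C₀ * K ^ 2 * R ^ (-η₀) := by
              rw [hR]; field_simp; ring
          _ ≤ 128 * C₀ * K ^ 2 * (K : ℝ) ^ (-(η₀ / 2)) := by gcongr
          _ = 128 * C₀ * (K ^ 2 * (K : ℝ) ^ (-(η₀ / 2))) := by ring
      calc 8 * (K : ℝ) * Q = 8 * (K : ℝ) * ((2 * P : ℕ) : ℝ) +
            8 * (K : ℝ) * (((4 * K / P + 1 : ℕ) : ℝ) * (C₀ * R ^ (1 - η₀))) := by rw [hQ]; ring
        _ ≤ _ := add_le_add a1 a2

end Pool.Agent.Lib.MP_50b5e1_nt
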