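import Mathlib
import Pool.Agent.Lib.MP_50b5e1_nt.X.Block
import Pool.Agent.Lib.MP_2a816b_nt.CoreGen

/-!
# X/PS: the exponential sum over prime powers

Proof of `vM_sum`.  `core1` (`MP_2a816b_nt/CoreGen`) with `κ = kap K y`, `N = 4K`, `L = Nat.log 2 (4K+1) + 1` (so `4K + 1 < 2^L`, `Nat.lt_pow_succ_log_self`),
`U = ⌊K^u⌋₊`, `u = η₁/2` (`η₁, C₁` from `typeI`, `U ≥ 1`, `U^3 ≤ K^(3/8) ≤ 4K`), `C = C₁ K^(1-η₁)` (`≥ 1`, `hI` from `typeI`, `kap_zero`, `norm_kap_le`).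
`hII`: `typeII1` with the kernel `fun m n => kap K y (m*n)`, `A = L`, `Bd i` the number `B` of `block` (`η₂, C₂`) if the three conditions hold and `0` otherwise,
`T₀ = C₂ (K/√U + K^(1-η₂))`; it gives `T = L^2 * L^2 * T₀`.
Result: `‖tw (4K) (kap K y) vM‖ ≤ 4 L U C + 2 L^4 T₀ ≤ 4 L C₁ K^(1-η₁/2) + 2 L^4 C₂ (K/√U + K^(1-η₂))`, and `L ≤ 4 log K` for `K ≥ 16` or so, `√U ≥ K^(u/2)/2`: this is
`≤ ε K` for `K ≥ K₀` (`isLittleO_log_rpow_rpow_atTop` / `Real.isLittleO_pow_log_id_atTop`; filter arguments in `atTop`).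
`tw (4K) (kap K y) vM = ∑_{n ∈ Ioc 0 (4K)} vM n * kap K y n = ∑_{n ∈ Ioc K (4K)} vM n * e (y/n)`.
-/

open Finset Real
open Pool.Agent.Lib.MP_2a816b_nt (e norm_e conj_e e_add e_neg OpB tw vM core1 typeII1)

namespace Pool.Agent.Lib.MP_50b5e1_nt

private lemma PS_tw (K : ℕ) (y : ℝ) :
    tw (4 * K) (kap K y) vM = ∑ n ∈ Ioc K (4 * K), (vM n : ℂ) * e (y / n) := by
  unfold tw
  symm
  have h1 : ∑ n ∈ Ioc K (4 * K), (vM n : ℂ) * e (y / n) = ∑ n ∈ Ioc K (4 * K), (vM n : ℂ) * kap K y n := by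
    apply sum_congr rfl; intro n hn
    rw [mem_Ioc] at hn
    unfold kap
    rw [if_pos hn]
  rw [h1]
  apply sum_subset
  · intro n hn
    rw [mem_Ioc] at hn ⊢
    omega
  · intro n _ hn
    rw [mem_Ioc] at hn
    unfold kap
    rw [if_neg hn, mul_zero]

/-- type I and type II together -/
private lemma PS_bound (K U L : ℕ) (y η₁ C₁ η₂ C₂ : ℝ) (hK : 1 ≤ K) (hU : 1 ≤ U) (hU3 : U * U * U ≤ 4 * K)
    (hL : 4 * K + 1 < 2 ^ L) (hC₁ : 1 ≤ C₁) (hη₁ : η₁ ≤ 1) (hC₂ : 0 ≤ C₂)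
    (hI : ∀ m t : ℕ, ‖∑ d ∈ range t, kap K y (m * d)‖ ≤ C₁ * (K : ℝ) ^ (1 - η₁))
    (hII : ∀ i : ℕ, 2 ^ i ≤ 4 * K → U < 2 ^ (i + 1) → 2 ^ i * U ≤ 4 * K →
      ∃ B : ℝ, 0 ≤ B ∧ OpB (fun m n => kap K y (m * n)) (2 ^ (i + 1)) (4 * K / 2 ^ i + 1) B ∧
        B * (√(2 ^ i) * √(2 * ((4 * K : ℕ) : ℝ) / 2 ^ i)) ≤ C₂ * (K / √U + (K : ℝ) ^ (1 - η₂))) :
    ‖tw (4 * K) (kap K y) vM‖ ≤ 4 * L * U * (C₁ * (K : ℝ) ^ (1 - η₁)) +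
      2 * ((L : ℝ) ^ 2 * (L : ℝ) ^ 2 * (C₂ * (K / √U + (K : ℝ) ^ (1 - η₂)))) := by
  have hKr : (1 : ℝ) ≤ K := by exact_mod_cast hK
  have hC : (1 : ℝ) ≤ C₁ * (K : ℝ) ^ (1 - η₁) := by
    have h1 : (1 : ℝ) ≤ (K : ℝ) ^ (1 - η₁) := Real.one_le_rpow hKr (by linarith)
    nlinarith
  apply core1 (kap K y) (4 * K) U L hU3 hL _ _ (kap_zero K y)
  · intro n
    exact (norm_kap_le K y n).trans hC
  · exact hI
  · intro f g hf hg hf0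
    classical
    set Bd : ℕ → ℝ := fun i => if h : 2 ^ i ≤ 4 * K ∧ U < 2 ^ (i + 1) ∧ 2 ^ i * U ≤ 4 * K then
      (hII i h.1 h.2.1 h.2.2).choose else 0 with hBd
    have hB1 : ∀ i (h : 2 ^ i ≤ 4 * K ∧ U < 2 ^ (i + 1) ∧ 2 ^ i * U ≤ 4 * K), Bd i = (hII i h.1 h.2.1 h.2.2).choose := by
      intro i h
      rw [hBd]
      simp only [dif_pos h]
    have hB0 : ∀ i, 0 ≤ Bd i := by
      intro i
      by_cases h : 2 ^ i ≤ 4 * K ∧ U < 2 ^ (i + 1) ∧ 2 ^ i * U ≤ 4 * K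
      · rw [hB1 i h]
        exact (hII i h.1 h.2.1 h.2.2).choose_spec.1
      · rw [hBd]
        simp only [dif_neg h, le_refl]
    apply typeII1 (fun m n => kap K y (m * n)) (4 * K) U L hL (C₂ * (K / √U + (K : ℝ) ^ (1 - η₂))) (by positivity) Bd hB0
    · intro i h1 h2 h3
      rw [hB1 i ⟨h1, h2, h3⟩]
      exact (hII i h1 h2 h3).choose_spec.2.1
    · intro i h1 h2 h3
      rw [hB1 i ⟨h1, h2, h3⟩]
      exact (hII i h1 h2 h3).choose_spec.2.2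
    · positivity
    · exact hf
    · exact hg
    · exact hf0

private lemma PS_log (K : ℕ) (hK : 5 ≤ K) : ((Nat.log 2 (4 * K + 1) + 1 : ℕ) : ℝ) ≤ 4 * Real.log K := by
  have hKr : (5 : ℝ) ≤ K := by exact_mod_cast hK
  have h1 : 2 ^ Nat.log 2 (4 * K + 1) ≤ 4 * K + 1 := Nat.pow_log_le_self 2 (by omega)
  have h2 : (2 : ℝ) ^ Nat.log 2 (4 * K + 1) ≤ 4 * K + 1 := by exact_mod_cast h1
  have h3 : (4 : ℝ) * K + 1 ≤ (K : ℝ) ^ 2 := by nlinarith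
  have h4 : Real.log ((2 : ℝ) ^ Nat.log 2 (4 * K + 1)) ≤ Real.log ((K : ℝ) ^ 2) :=
    Real.log_le_log (by positivity) (h2.trans h3)
  rw [Real.log_pow, Real.log_pow] at h4
  have h5 : (0.69 : ℝ) < Real.log 2 := by have := Real.log_two_gt_d9; linarith
  have h6 : (1 : ℝ) ≤ Real.log K := by
    have h7 : Real.log (Real.exp 1) ≤ Real.log K := by
      apply Real.log_le_log (Real.exp_pos _)
      have := Real.exp_one_lt_d9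
      linarith
    rwa [Real.log_exp] at h7
  push_cast at h4 ⊢
  have h8 : (0 : ℝ) ≤ (Nat.log 2 (4 * K + 1) : ℝ) := by positivity
  nlinarith

private lemma PS_floor (x : ℝ) (hx : 1 ≤ x) : 1 ≤ ⌊x⌋₊ ∧ (⌊x⌋₊ : ℝ) ≤ x ∧ x / 4 ≤ (⌊x⌋₊ : ℝ) := by
  have h1 : 1 ≤ ⌊x⌋₊ := (Nat.one_le_floor_iff x).mpr hx
  have h2 : (⌊x⌋₊ : ℝ) ≤ x := Nat.floor_le (by linarith)
  have h3 : x < ⌊x⌋₊ + 1 := Nat.lt_floor_add_one x
  have h4 : (1 : ℝ) ≤ ⌊x⌋₊ := by exact_mod_cast h1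
  exact ⟨h1, h2, by linarith⟩

theorem vM_sum (A ε : ℝ) (hA : 2 ≤ A) (hε : 0 < ε) : ∃ K₀ : ℕ, ∀ (K : ℕ) (y : ℝ), K₀ ≤ K →
    (K : ℝ) ^ (1.9 : ℝ) ≤ |y| → |y| ≤ (K : ℝ) ^ A →
      ‖∑ n ∈ Ioc K (4 * K), (vM n : ℂ) * e (y / n)‖ ≤ ε * K := by
  obtain ⟨η₁, hη₁, hη₁', C₁, hC₁, hI⟩ := typeI A hA
  obtain ⟨η₂, hη₂, hη₂', C₂, hC₂, hII⟩ := block A hA
  obtain ⟨u, hu⟩ : ∃ u : ℝ, u = η₁ / 2 := ⟨_, rfl⟩
  obtain ⟨δ, hδ⟩ : ∃ δ : ℝ, δ = min (u / 2) η₂ := ⟨_, rfl⟩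
  have hu0 : 0 < u := by rw [hu]; positivity
  have hδ0 : 0 < δ := by rw [hδ]; exact lt_min (by positivity) hη₂
  have hδu : δ ≤ u / 2 := by rw [hδ]; exact min_le_left _ _
  have hδη : δ ≤ η₂ := by rw [hδ]; exact min_le_right _ _
  obtain ⟨D, hD⟩ : ∃ D : ℝ, D = (4 * C₁ + 6 * C₂) * 256 := ⟨_, rfl⟩
  have hD0 : 0 < D := by rw [hD]; positivity
  have hev : ∀ᶠ K : ℕ in Filter.atTop, D * (Real.log K) ^ 4 ≤ ε * (K : ℝ) ^ δ := by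
    have h1 := (isLittleO_log_rpow_rpow_atTop (4 : ℝ) hδ0).def (div_pos hε hD0)
    have h2 := (tendsto_natCast_atTop_atTop (R := ℝ)).eventually h1
    filter_upwards [h2, Filter.eventually_ge_atTop 1] with K hK hK1
    have hKr : (1 : ℝ) ≤ K := by exact_mod_cast hK1
    have hlog : 0 ≤ Real.log K := Real.log_nonneg hKr
    rw [Real.norm_of_nonneg (by positivity), Real.norm_of_nonneg (by positivity)] at hK
    have h3 : (Real.log K) ^ (4 : ℝ) = (Real.log K) ^ 4 := by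
      rw [← Real.rpow_natCast]
      norm_num
    rw [h3] at hK
    calc D * (Real.log K) ^ 4 ≤ D * (ε / D * (K : ℝ) ^ δ) := by gcongr
      _ = ε * (K : ℝ) ^ δ := by field_simp
  obtain ⟨K₁, hK₁⟩ := Filter.eventually_atTop.mp hev
  refine ⟨max K₁ 5, ?_⟩
  intro K y hK hy1 hy2
  have hK5 : 5 ≤ K := le_trans (le_max_right _ _) hK
  have hKK := hK₁ K (le_trans (le_max_left _ _) hK)
  have hK1 : 1 ≤ K := by omega
  have hKr : (1 : ℝ) ≤ K := by exact_mod_cast hK1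
  have hKpos : (0 : ℝ) < K := by linarith
  obtain ⟨U, hU⟩ : ∃ U : ℕ, U = ⌊(K : ℝ) ^ u⌋₊ := ⟨_, rfl⟩
  obtain ⟨hU1, hU2, hU3⟩ := PS_floor ((K : ℝ) ^ u) (Real.one_le_rpow hKr hu0.le)
  rw [← hU] at hU1 hU2 hU3
  obtain ⟨L, hL⟩ : ∃ L : ℕ, L = Nat.log 2 (4 * K + 1) + 1 := ⟨_, rfl⟩
  have hLlog : (L : ℝ) ≤ 4 * Real.log K := by rw [hL]; exact PS_log K hK5
  have hL1 : (1 : ℝ) ≤ L := by
    have : 1 ≤ L := by omega
    exact_mod_cast this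
  have hL2 : 4 * K + 1 < 2 ^ L := by
    rw [hL]
    exact Nat.lt_pow_succ_log_self (by norm_num) _
  have hUUU : U * U * U ≤ 4 * K := by
    have h1 : ((U * U * U : ℕ) : ℝ) ≤ K := by
      push_cast
      have h2 : (U : ℝ) * U * U = (U : ℝ) ^ 3 := by ring
      rw [h2]
      calc (U : ℝ) ^ 3 ≤ ((K : ℝ) ^ u) ^ 3 := by gcongr
        _ = (K : ℝ) ^ (u * 3) := by
          rw [Real.rpow_mul hKpos.le]
          norm_num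
        _ ≤ (K : ℝ) ^ (1 : ℝ) := Real.rpow_le_rpow_of_exponent_le hKr (by rw [hu]; linarith)
        _ = K := Real.rpow_one _
    have h3 : U * U * U ≤ K := by exact_mod_cast h1
    omega
  have hmain := PS_bound K U L y η₁ C₁ η₂ C₂ hK1 hU1 hUUU hL2 hC₁ (by linarith) (by linarith)
    (hI K y hK1 hy1 hy2) (fun i => hII K U i y hK1 hU1 hy1 hy2)
  rw [PS_tw] at hmain
  refine hmain.trans ?_
  -- the numbers
  have hpow : ∀ v : ℝ, δ ≤ v → (K : ℝ) ^ (1 - v) ≤ (K : ℝ) ^ (1 - δ) := fun v hv =>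
    Real.rpow_le_rpow_of_exponent_le hKr (by linarith)
  have e1 : (U : ℝ) * (K : ℝ) ^ (1 - η₁) ≤ (K : ℝ) ^ (1 - δ) := by
    calc (U : ℝ) * (K : ℝ) ^ (1 - η₁) ≤ (K : ℝ) ^ u * (K : ℝ) ^ (1 - η₁) := by gcongr
      _ = (K : ℝ) ^ (1 - u) := by
        rw [← Real.rpow_add hKpos]
        congr 1
        rw [hu]; ring
      _ ≤ (K : ℝ) ^ (1 - δ) := hpow u (by linarith)
  have e2 : (K : ℝ) / √U ≤ 2 * (K : ℝ) ^ (1 - δ) := by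
    have h1 : (K : ℝ) ^ (u / 2) / 2 ≤ √U := by
      apply Real.le_sqrt_of_sq_le
      have h2 : ((K : ℝ) ^ (u / 2) / 2) ^ 2 = (K : ℝ) ^ u / 4 := by
        rw [div_pow, ← Real.rpow_natCast, ← Real.rpow_mul hKpos.le]
        congr 2
        · push_cast; ring
        · norm_num
      rw [h2]
      exact hU3
    have h3 : 0 < (K : ℝ) ^ (u / 2) := by positivity
    calc (K : ℝ) / √U ≤ K / ((K : ℝ) ^ (u / 2) / 2) := by gcongr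
      _ = 2 * (K : ℝ) ^ (1 - u / 2) := by
        rw [Real.rpow_sub hKpos, Real.rpow_one]
        field_simp
      _ ≤ 2 * (K : ℝ) ^ (1 - δ) := by
        have := hpow (u / 2) hδu
        linarith
  have e3 : (K : ℝ) ^ (1 - η₂) ≤ (K : ℝ) ^ (1 - δ) := hpow η₂ hδη
  have hX : 0 < (K : ℝ) ^ (1 - δ) := by positivity
  have hLL : (L : ℝ) ≤ (L : ℝ) ^ 4 := by
    calc (L : ℝ) = (L : ℝ) ^ 1 := (pow_one _).symm
      _ ≤ (L : ℝ) ^ 4 := pow_le_pow_right₀ hL1 (by norm_num)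
  have hL4 : (L : ℝ) ^ 4 ≤ 256 * (Real.log K) ^ 4 := by
    calc (L : ℝ) ^ 4 ≤ (4 * Real.log K) ^ 4 := by gcongr
      _ = 256 * (Real.log K) ^ 4 := by ring
  calc 4 * (L : ℝ) * U * (C₁ * (K : ℝ) ^ (1 - η₁)) +
        2 * ((L : ℝ) ^ 2 * (L : ℝ) ^ 2 * (C₂ * (K / √U + (K : ℝ) ^ (1 - η₂))))
      = 4 * C₁ * ((L : ℝ) * ((U : ℝ) * (K : ℝ) ^ (1 - η₁))) +
        2 * C₂ * ((L : ℝ) ^ 4 * (K / √U + (K : ℝ) ^ (1 - η₂))) := by ring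
    _ ≤ 4 * C₁ * ((L : ℝ) ^ 4 * (K : ℝ) ^ (1 - δ)) +
        2 * C₂ * ((L : ℝ) ^ 4 * (2 * (K : ℝ) ^ (1 - δ) + (K : ℝ) ^ (1 - δ))) := by gcongr
    _ = (4 * C₁ + 6 * C₂) * (L : ℝ) ^ 4 * (K : ℝ) ^ (1 - δ) := by ring
    _ ≤ (4 * C₁ + 6 * C₂) * (256 * (Real.log K) ^ 4) * (K : ℝ) ^ (1 - δ) := by gcongr
    _ = (D * (Real.log K) ^ 4) * (K : ℝ) ^ (1 - δ) := by rw [hD]; ring
    _ ≤ (ε * (K : ℝ) ^ δ) * (K : ℝ) ^ (1 - δ) := by gcongr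
    _ = ε * K := by
      rw [mul_assoc, ← Real.rpow_add hKpos]
      congr 1
      rw [add_sub_cancel, Real.rpow_one]

end Pool.Agent.Lib.MP_50b5e1_nt
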