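import Mathlib
import Pool.Agent.Lib.MP_50b5e1_nt.X.PS
import Pool.Agent.Lib.MP_2a816b_nt.Sums

/-!
# X/Pr: the exponential sum over primes

Proof of `prime_sum`.  `∑_{n ∈ (K,4K]} Λ(n) e(y/n) - ∑_{p ∈ (K,4K]} log p e(y/p)` is the sum over the non-primes `n` of `Λ(n) e(y/n)`, its norm is at most
`∑_{n ≤ 4K, n not prime} Λ(n) = ψ(4K) - θ(4K) ≤ 2 √(4K) log (4K)` (`Chebyshev.psi_sub_theta_le`, `Chebyshev.psi_sub_theta_eq_sum_not_prime`), which is `≤ (ε/2) K` for large `K`.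
Use `vM_sum` with `ε/2`.  `prime_mass`: `theta_block`, `theta_sub` (`MP_2a816b_nt/Sums`), `⌊⌋` of natural numbers.
-/

open Finset Real
open Pool.Agent.Lib.MP_2a816b_nt (e norm_e conj_e e_add e_neg PrI vM theta_block theta_sub)

namespace Pool.Agent.Lib.MP_50b5e1_nt

private lemma Pr_diff (K : ℕ) (y : ℝ) :
    ‖∑ p ∈ PrI K (4 * K), (Real.log p : ℂ) * e (y / p)‖ ≤
      ‖∑ n ∈ Ioc K (4 * K), (vM n : ℂ) * e (y / n)‖ +
        (Chebyshev.psi ((4 * K : ℕ) : ℝ) - Chebyshev.theta ((4 * K : ℕ) : ℝ)) := by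
  have h1 : ∑ n ∈ Ioc K (4 * K), (vM n : ℂ) * e (y / n) =
      (∑ p ∈ PrI K (4 * K), (Real.log p : ℂ) * e (y / p)) +
        ∑ n ∈ (Ioc K (4 * K)).filter (fun n => ¬ n.Prime), (vM n : ℂ) * e (y / n) := by
    rw [← Finset.sum_filter_add_sum_filter_not (Ioc K (4 * K)) Nat.Prime]
    congr 1
    unfold PrI
    refine sum_congr rfl fun p hp => ?_
    rw [mem_filter] at hp
    have h2 : vM p = Real.log p := ArithmeticFunction.vonMangoldt_apply_prime hp.2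
    rw [h2]
  have h3 : ∑ p ∈ PrI K (4 * K), (Real.log p : ℂ) * e (y / p) =
      ∑ n ∈ Ioc K (4 * K), (vM n : ℂ) * e (y / n) -
        ∑ n ∈ (Ioc K (4 * K)).filter (fun n => ¬ n.Prime), (vM n : ℂ) * e (y / n) := by
    rw [h1]
    ring
  rw [h3]
  refine (norm_sub_le _ _).trans (add_le_add le_rfl ?_)
  rw [Chebyshev.psi_sub_theta_eq_sum_not_prime, Nat.floor_natCast]
  refine (norm_sum_le _ _).trans ?_
  have h4 : ∀ n, ‖(vM n : ℂ) * e (y / n)‖ = ArithmeticFunction.vonMangoldt n := by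
    intro n
    have h5 : 0 ≤ vM n := ArithmeticFunction.vonMangoldt_nonneg
    rw [norm_mul, norm_e, mul_one, Complex.norm_real, Real.norm_eq_abs, abs_of_nonneg h5]
    rfl
  rw [sum_congr rfl fun n _ => h4 n]
  refine sum_le_sum_of_subset_of_nonneg ?_ fun n _ _ => ArithmeticFunction.vonMangoldt_nonneg
  intro n hn
  rw [mem_filter, mem_Ioc] at hn ⊢
  exact ⟨⟨by omega, hn.1.2⟩, hn.2⟩

private lemma Pr_small (ε : ℝ) (hε : 0 < ε) (K : ℕ) (hK : (64 / ε) ^ 4 ≤ K) :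
    Chebyshev.psi ((4 * K : ℕ) : ℝ) - Chebyshev.theta ((4 * K : ℕ) : ℝ) ≤ ε / 2 * K := by
  have hKpos : (0 : ℝ) < K := lt_of_lt_of_le (by positivity) hK
  have hK1 : (1 : ℝ) ≤ K := by
    have : 0 < K := by exact_mod_cast hKpos
    exact_mod_cast this
  set z : ℝ := √(√(K : ℝ)) with hz
  have hz1 : z ^ 2 = √(K : ℝ) := sq_sqrt (sqrt_nonneg _)
  have hz2 : z ^ 4 = K := by
    have : z ^ 4 = (z ^ 2) ^ 2 := by ring
    rw [this, hz1, sq_sqrt hKpos.le]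
  have hz0 : 0 ≤ z := sqrt_nonneg _
  have hzε : 64 / ε ≤ z := by
    by_contra hc
    push Not at hc
    have : z ^ 4 < (64 / ε) ^ 4 := by gcongr
    rw [hz2] at this
    linarith
  have hzpos : 0 < z := lt_of_lt_of_le (by positivity) hzε
  have hcast : (((4 * K : ℕ)) : ℝ) = 4 * (K : ℝ) := by push_cast; ring
  rw [hcast]
  have h1 := Chebyshev.psi_sub_theta_le (x := 4 * (K : ℝ)) (by linarith)
  have h5 : √(4 * (K : ℝ)) = 2 * z ^ 2 := by
    rw [sqrt_mul (by norm_num), hz1]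
    congr 1
    rw [show (4 : ℝ) = 2 ^ 2 by norm_num, sqrt_sq (by norm_num)]
  have h6 : Real.log (4 * K) ≤ 8 * z := by
    have e1 : (4 : ℝ) * K ≤ (2 * z) ^ 4 := by
      have : (2 * z) ^ 4 = 16 * K := by rw [mul_pow, hz2]; norm_num
      rw [this]; linarith
    calc Real.log (4 * K) ≤ Real.log ((2 * z) ^ 4) := Real.log_le_log (by linarith) e1
      _ = 4 * Real.log (2 * z) := by rw [Real.log_pow]; norm_num
      _ ≤ 4 * (2 * z) := by
          have := Real.log_le_sub_one_of_pos (x := 2 * z) (by linarith)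
          linarith
      _ = 8 * z := by ring
  rw [h5] at h1
  have h7 : 2 * (2 * z ^ 2) * Real.log (4 * K) ≤ 32 * z ^ 3 := by
    calc 2 * (2 * z ^ 2) * Real.log (4 * K) ≤ 2 * (2 * z ^ 2) * (8 * z) := by gcongr
      _ = 32 * z ^ 3 := by ring
  have h8 : 32 * z ^ 3 ≤ ε / 2 * K := by
    rw [← hz2]
    have h9 : 64 ≤ z * ε := by rwa [div_le_iff₀ hε] at hzε
    have h10 : 0 ≤ z ^ 3 := by positivity
    nlinarith
  linarith

theorem prime_sum (A ε : ℝ) (hA : 2 ≤ A) (hε : 0 < ε) : ∃ K₀ : ℕ, ∀ (K : ℕ) (y : ℝ), K₀ ≤ K →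
    (K : ℝ) ^ (1.9 : ℝ) ≤ |y| → |y| ≤ (K : ℝ) ^ A →
      ‖∑ p ∈ PrI K (4 * K), (Real.log p : ℂ) * e (y / p)‖ ≤ ε * K := by
  obtain ⟨K₁, hK₁⟩ := vM_sum A (ε / 2) hA (by positivity)
  refine ⟨max K₁ ⌈(64 / ε) ^ 4⌉₊, fun K y hK h1 h2 => ?_⟩
  have h3 := hK₁ K y (le_trans (le_max_left _ _) hK) h1 h2
  have h4 : (64 / ε) ^ 4 ≤ (K : ℝ) := by
    have h5 : ⌈(64 / ε) ^ 4⌉₊ ≤ K := le_trans (le_max_right _ _) hK
    exact (Nat.le_ceil _).trans (by exact_mod_cast h5)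
  have h6 := Pr_small ε hε K h4
  have h7 := Pr_diff K y
  linarith

theorem prime_mass (K : ℕ) (hK : 10 ^ 8 ≤ K) : (K : ℝ) ≤ ∑ p ∈ PrI K (4 * K), Real.log p := by
  have h1 := theta_block (K : ℝ) (by exact_mod_cast hK)
  have h2 := theta_sub K (4 * K) (by omega)
  rw [← h2]
  push_cast
  exact h1

end Pool.Agent.Lib.MP_50b5e1_nt
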