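import Mathlib
import Pool.Agent.Lib.MP_50b5e1_nt.Fin

/-!
# X/Sz: the sizes of the solutions with `k₂ ≥ m₂^ε`

Notation: `L = log m₂`, `N = m₁ + k₁ ≤ m₂`, `D = m₂ - m₁ ≥ k₁`, `K = k₁`, `k = k₂`.  Everything for `m₂ ≥ B(ε)`; `k ≥ m₂^ε` beats every power of `L`.
Proof (compare the proof of `cube_bound` in `MP_50b5e1_nt/Ana.lean`, whose private lemmas `choose_upper`, `choose_lower`, `natlog_le`, `diff_bound` may be copied):
1. `two_adic` gives `K ≤ k + 4 L` (`diff_bound`), so `K ≤ 2 k`.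
2. `size`: `k log (1 + D/N) ≤ (K-k) log N ≤ 4 L²`, so `log (1 + D/N) ≤ 4 L²/k` is tiny, `D/N ≤ 8 L²/k` (`log (1+x) ≥ x/2` for `0 ≤ x ≤ 1`; if `D/N > 1` then
   `log 2 ≤ 4L²/k`, impossible), and `k₁ ≤ D`, hence `N = m₁ + k₁ ≤ m₁ + D ≤ m₁ + 8 N L²/k`: `m₁ ≥ N/2` and `D ≤ 16 L² m₁/k`.  (This is `(i)`: `64000 D ≤ m₁`, and also
   `m₂ ≤ 2 m₁`.)
3. `length_bound`: `k ≤ C m₂^(1/3) L^(4/3)`, so `m₂ ≥ c k³/L⁴`.
4. `mass`: `choose (m₁+k₁) k₁ ≥ (N/(2K))^K` (`choose_lower` needs `k₁ ≤ m₁`, fine), `choose (D+k-1) (K+k-1) ≤ (e (D+k-1)/(K+k-1))^(K+k-1) ≤ (2 e D/K)^(2K)` (as in `Ana.lean`), and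
   `π(K) log N ≤ C₀ (K/log K) log N ≤ (C₀/ε') K` because `log K ≥ log k ≥ ε L ≥ ε log N`.  So `K log (N/(2K)) ≤ (C₀/ε + 2 log 4) K + 2 K log (2eD/K)`, i.e. `N K ≤ C₃ D²` with
   `C₃ = C₃(ε)`.  Hence `D² ≥ N K/C₃ ≥ (m₂/2) k/C₃ ≥ c' k⁴/L⁴`, `D ≥ c'' k²/L² ≥ c'' (K/2)²/L²` and for large `m₂` this is `≥ (2000 K)^1.9` (`L ≤ (1/ε) log k`).
5. `m₁ ≥ m₂/2 ≥ …≥ (2000 K)^1.9 · 2` by 3.  `64000 m₂ ≤ (2000 K)^A` for `A = 2/ε + 2`: `2000 K ≥ k ≥ m₂^ε`.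
Conclusion `(freq)`: `x = a m₁ + b m₂ = (a+b) m₁ + b D`.  If `a + b ≠ 0`: `|x| ≥ m₁ - 32000 D ≥ m₁/2`.  If `a + b = 0` then `b ≠ 0` and `|x| = |b| D ≥ D`.  `|x| ≤ 32000 (m₁+m₂) ≤ 64000 m₂`.
-/

open Filter

namespace Pool.Agent.Lib.MP_50b5e1_nt

private theorem Sz_choose_upper {n r : ℕ} (hr : 0 < r) :
    (n.choose r : ℝ) ≤ (Real.exp 1 * n / r) ^ r := by
  have h1 : (n.choose r : ℝ) ≤ (n : ℝ) ^ r / r.factorial := Nat.choose_le_pow_div r n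
  have hr' : (0 : ℝ) < r := by exact_mod_cast hr
  have h2 : (r : ℝ) ^ r / r.factorial ≤ Real.exp r := Real.pow_div_factorial_le_exp _ hr'.le r
  have hf : (0 : ℝ) < r.factorial := by exact_mod_cast Nat.factorial_pos r
  calc (n.choose r : ℝ) ≤ (n : ℝ) ^ r / r.factorial := h1
    _ = ((n : ℝ) / r) ^ r * ((r : ℝ) ^ r / r.factorial) := by
        rw [div_pow]; field_simp
    _ ≤ ((n : ℝ) / r) ^ r * Real.exp r := mul_le_mul_of_nonneg_left h2 (by positivity)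
    _ = (Real.exp 1 * n / r) ^ r := by
        have : Real.exp (r : ℝ) = Real.exp 1 ^ r := by
          rw [← Real.exp_nat_mul, mul_one]
        rw [this, ← mul_pow]
        congr 1
        ring

private theorem Sz_choose_lower {m K : ℕ} (hK : 0 < K) (hm : K ≤ m) :
    (((m : ℝ) + K) / (2 * K)) ^ K ≤ ((m + K).choose K : ℝ) := by
  have h1 : (((m + K + 1 - K : ℕ) : ℝ) ^ K) / K.factorial ≤ ((m + K).choose K : ℝ) :=
    Nat.pow_le_choose K (m + K)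
  have h2 : (K.factorial : ℝ) ≤ (K : ℝ) ^ K := by exact_mod_cast Nat.factorial_le_pow K
  have hK' : (0 : ℝ) < K := by exact_mod_cast hK
  have hm' : (K : ℝ) ≤ m := by exact_mod_cast hm
  have hf : (0 : ℝ) < K.factorial := by exact_mod_cast Nat.factorial_pos K
  have e : m + K + 1 - K = m + 1 := by omega
  rw [e] at h1
  calc (((m : ℝ) + K) / (2 * K)) ^ K ≤ (((m + 1 : ℕ) : ℝ) / K) ^ K := by
        refine pow_le_pow_left₀ (by positivity) ?_ K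
        rw [div_le_div_iff₀ (by positivity) hK']
        push_cast
        nlinarith
    _ = ((m + 1 : ℕ) : ℝ) ^ K / (K : ℝ) ^ K := div_pow _ _ _
    _ ≤ ((m + 1 : ℕ) : ℝ) ^ K / K.factorial :=
        div_le_div_of_nonneg_left (by positivity) hf h2
    _ ≤ _ := h1

private theorem Sz_natlog_le (n : ℕ) (hn : n ≠ 0) : (Nat.log 2 n : ℝ) * Real.log 2 ≤ Real.log n := by
  have h1 : 2 ^ (Nat.log 2 n) ≤ n := Nat.pow_log_le_self 2 hn
  have h2 : ((2 : ℝ)) ^ (Nat.log 2 n) ≤ n := by exact_mod_cast h1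
  have h3 := Real.log_le_log (by positivity) h2
  rwa [Real.log_pow] at h3

private theorem Sz_diff_bound {m₁ k₁ m₂ k₂ : ℕ} (h : IsSol m₁ k₁ m₂ k₂) (hL : 1 ≤ Real.log m₂) :
    (k₁ : ℝ) - k₂ ≤ 4 * Real.log m₂ := by
  have h2 := two_adic h
  have hlt := h.lt
  obtain ⟨h1, -, h3, -⟩ := h
  have hm : (0 : ℝ) < m₂ := by exact_mod_cast (by omega : 0 < m₂)
  have hl2 : 0.6931471803 < Real.log 2 := Real.log_two_gt_d9
  have a1 := Sz_natlog_le (m₂ + k₂) (by omega)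
  have a2 := Sz_natlog_le k₁ (by omega)
  have a3 : Real.log ((m₂ + k₂ : ℕ) : ℝ) ≤ Real.log m₂ + Real.log 2 := by
    rw [← Real.log_mul hm.ne' (by norm_num)]
    apply Real.log_le_log
    · exact_mod_cast (by omega : 0 < m₂ + k₂)
    · have : m₂ + k₂ ≤ m₂ * 2 := by omega
      exact_mod_cast this
  have a4 : Real.log (k₁ : ℝ) ≤ Real.log m₂ := by
    apply Real.log_le_log
    · exact_mod_cast (by omega : 0 < k₁)
    · exact_mod_cast (by omega : k₁ ≤ m₂)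
  have h2' : (k₁ : ℝ) ≤ k₂ + Nat.log 2 (m₂ + k₂) + Nat.log 2 k₁ := by exact_mod_cast h2
  set x : ℝ := (Nat.log 2 (m₂ + k₂) : ℝ) with hx
  set y : ℝ := (Nat.log 2 k₁ : ℝ) with hy
  have hx0 : 0 ≤ x := by positivity
  have hy0 : 0 ≤ y := by positivity
  have b1 : (x + y) * Real.log 2 ≤ 2 * Real.log m₂ + Real.log 2 := by linarith
  have b2 : (x + y - 1) * Real.log 2 ≤ 2 * Real.log m₂ := by linarith
  have b3 : x + y - 1 ≤ 3 * Real.log m₂ := by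
    by_contra hcon
    push Not at hcon
    nlinarith
  linarith

/-- step 4 of the header -/
private theorem Sz_core (E₁ : ℝ) (hE₁ : 0 < E₁) : ∃ B : ℝ, 0 < B ∧ ∀ m₁ k₁ m₂ k₂ : ℕ,
    IsSol m₁ k₁ m₂ k₂ → Real.log ((m₁ : ℝ) + k₁) ≤ E₁ * Real.log k₁ →
      ((m₁ : ℝ) + k₁) * k₁ ≤ B * ((m₂ : ℝ) - m₁) ^ 2 := by
  obtain ⟨C₀, hC₀, hpi⟩ := primeCounting_bound
  set A : ℝ := Real.exp (E₁ * C₀ + 2 * Real.log 4) with hA
  have hA1 : 1 ≤ A := by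
    rw [hA]
    apply Real.one_le_exp
    have : 0 < Real.log 4 := Real.log_pos (by norm_num)
    positivity
  set B : ℝ := 8 * Real.exp 1 ^ 2 * A with hB
  have he1 : 1 ≤ Real.exp 1 := Real.one_le_exp (by norm_num)
  have hB2 : 2 ≤ B := by
    rw [hB]
    have : 1 ≤ Real.exp 1 ^ 2 := one_le_pow₀ he1
    nlinarith
  refine ⟨B, by positivity, ?_⟩
  intro m₁ k₁ m₂ k₂ h c8
  have hmass := mass h
  have hlt := h.lt
  have h1 := h.1
  have h2 := h.2.1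
  have h3 := h.2.2.1
  set N : ℝ := (m₁ : ℝ) + k₁ with hN
  set D : ℝ := (m₂ : ℝ) - m₁ with hD
  have hk1 : (5 : ℝ) ≤ k₁ := by exact_mod_cast (by omega : 5 ≤ k₁)
  have hk2 : (4 : ℝ) ≤ k₂ := by exact_mod_cast (by omega : 4 ≤ k₂)
  have hkK : (k₂ : ℝ) ≤ k₁ := by exact_mod_cast hlt.le
  have hm1 : (0 : ℝ) ≤ m₁ := by positivity
  have hN0 : 0 < N := by linarith
  have hNm : N ≤ m₂ := by rw [hN]; exact_mod_cast h3
  have hDK : (k₁ : ℝ) ≤ D := by linarith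
  have hD0 : 0 < D := by linarith
  by_cases hmK : m₁ < k₁
  · have a1 : (m₁ : ℝ) ≤ k₁ := by exact_mod_cast hmK.le
    have a2 : N * k₁ ≤ 2 * D ^ 2 := by
      have h5 : N ≤ 2 * k₁ := by linarith
      calc N * k₁ ≤ (2 * D) * D := mul_le_mul (by linarith) hDK (by linarith) (by linarith)
        _ = 2 * D ^ 2 := by ring
    have a3 : 2 * D ^ 2 ≤ B * D ^ 2 := mul_le_mul_of_nonneg_right hB2 (by positivity)
    linarith
  push Not at hmK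
  have hr0 : 0 < k₁ + k₂ - 1 := by omega
  have c1 := Sz_choose_lower (by omega : 0 < k₁) hmK
  have c2 := Sz_choose_upper (n := m₂ - m₁ + k₂ - 1) hr0
  have hmassR : (((m₁ + k₁).choose k₁ : ℕ) : ℝ) ≤ N ^ (Nat.primeCounting k₁) *
      4 ^ (k₁ + k₂ - 1) * (((m₂ - m₁ + k₂ - 1).choose (k₁ + k₂ - 1) : ℕ) : ℝ) := by
    rw [hN]
    exact_mod_cast hmass
  set E : ℝ := 2 * Real.exp 1 * D / k₁ with hE
  have hk0 : (0 : ℝ) < k₁ := by linarith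
  have hE1 : 1 ≤ E := by
    rw [hE, le_div_iff₀ hk0]
    have h5 : 1 * D ≤ (2 * Real.exp 1) * D :=
      mul_le_mul_of_nonneg_right (by linarith) hD0.le
    linarith
  have hE0 : 0 < E := by linarith
  have c3 : Real.exp 1 * ((m₂ - m₁ + k₂ - 1 : ℕ) : ℝ) / ((k₁ + k₂ - 1 : ℕ) : ℝ) ≤ E := by
    have b1 : ((m₂ - m₁ + k₂ - 1 : ℕ) : ℝ) ≤ 2 * D := by
      have : m₂ - m₁ + k₂ - 1 ≤ 2 * (m₂ - m₁) := by omega
      have h5 : ((m₂ - m₁ + k₂ - 1 : ℕ) : ℝ) ≤ ((2 * (m₂ - m₁) : ℕ) : ℝ) := by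
        exact_mod_cast this
      rw [Nat.cast_mul, Nat.cast_sub (by omega : m₁ ≤ m₂), Nat.cast_ofNat] at h5
      exact h5
    have b2 : (k₁ : ℝ) ≤ ((k₁ + k₂ - 1 : ℕ) : ℝ) := by
      exact_mod_cast (by omega : k₁ ≤ k₁ + k₂ - 1)
    rw [hE]
    calc Real.exp 1 * ((m₂ - m₁ + k₂ - 1 : ℕ) : ℝ) / ((k₁ + k₂ - 1 : ℕ) : ℝ)
        ≤ Real.exp 1 * (2 * D) / k₁ := by
          apply div_le_div₀ (by positivity) _ hk0 b2
          exact mul_le_mul_of_nonneg_left b1 (by positivity)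
      _ = 2 * Real.exp 1 * D / k₁ := by ring
  have hr2 : k₁ + k₂ - 1 ≤ 2 * k₁ := by omega
  have c4 : (((m₂ - m₁ + k₂ - 1).choose (k₁ + k₂ - 1) : ℕ) : ℝ) ≤ E ^ (2 * k₁) := by
    refine c2.trans ?_
    calc _ ≤ E ^ (k₁ + k₂ - 1) := pow_le_pow_left₀ (by positivity) c3 _
      _ ≤ E ^ (2 * k₁) := pow_le_pow_right₀ hE1 hr2
  have c5 : (4 : ℝ) ^ (k₁ + k₂ - 1) ≤ 4 ^ (2 * k₁) := pow_le_pow_right₀ (by norm_num) hr2
  have c6 : (N / (2 * k₁)) ^ k₁ ≤ N ^ (Nat.primeCounting k₁) * 4 ^ (2 * k₁) * E ^ (2 * k₁) := by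
    refine c1.trans (hmassR.trans ?_)
    refine mul_le_mul (mul_le_mul_of_nonneg_left c5 (by positivity)) c4 (by positivity)
      (by positivity)
  have c7 := Real.log_le_log (by positivity) c6
  rw [Real.log_mul (by positivity) (by positivity), Real.log_mul (by positivity) (by positivity),
    Real.log_pow, Real.log_pow, Real.log_pow, Real.log_pow] at c7
  push_cast at c7
  have c9 : (Nat.primeCounting k₁ : ℝ) * Real.log N ≤ E₁ * C₀ * k₁ := by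
    have h5 := hpi k₁
    calc (Nat.primeCounting k₁ : ℝ) * Real.log N ≤
          (Nat.primeCounting k₁ : ℝ) * (E₁ * Real.log k₁) :=
          mul_le_mul_of_nonneg_left c8 (by positivity)
      _ = E₁ * ((Nat.primeCounting k₁ : ℝ) * Real.log k₁) := by ring
      _ ≤ E₁ * (C₀ * k₁) := mul_le_mul_of_nonneg_left h5 hE₁.le
      _ = E₁ * C₀ * k₁ := by ring
  have c10 : Real.log (N / (2 * k₁)) ≤ E₁ * C₀ + 2 * Real.log 4 + 2 * Real.log E := by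
    have : (k₁ : ℝ) * Real.log (N / (2 * k₁)) ≤
        k₁ * (E₁ * C₀ + 2 * Real.log 4 + 2 * Real.log E) := by
      linarith
    exact le_of_mul_le_mul_left this hk0
  have c11 : N / (2 * k₁) ≤ A * E ^ 2 := by
    have h5 : Real.log (N / (2 * k₁)) ≤ Real.log (A * E ^ 2) := by
      rw [Real.log_mul (by positivity) (by positivity), hA, Real.log_exp, Real.log_pow]
      push_cast
      linarith
    exact (Real.log_le_log_iff (by positivity) (by positivity)).1 h5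
  have c12 : N * k₁ = N / (2 * k₁) * (2 * k₁ ^ 2) := by field_simp
  rw [c12]
  calc N / (2 * k₁) * (2 * (k₁ : ℝ) ^ 2) ≤ A * E ^ 2 * (2 * (k₁ : ℝ) ^ 2) :=
        mul_le_mul_of_nonneg_right c11 (by positivity)
    _ = B * D ^ 2 := by
        rw [hE, hB]
        field_simp
        ring

private theorem Sz_aux (x y : ℝ) (hx : 0 < x) (hy : 0 < y) :
    2 * x * y * 256000000000000 ≤ (10 ^ 9 * (1 + y) * (1 + x)) ^ 2 := by
  have h0 : 0 < x * y := mul_pos hx hy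
  have h1 : 1 + x * y ≤ (1 + y) * (1 + x) := by linarith
  have h2 : 1 + x * y ≤ (1 + x * y) ^ 2 := by
    have : (1 + x * y) * 1 ≤ (1 + x * y) * (1 + x * y) :=
      mul_le_mul_of_nonneg_left (by linarith) (by linarith)
    linarith
  have h3 : (1 + x * y) ^ 2 ≤ ((1 + y) * (1 + x)) ^ 2 := pow_le_pow_left₀ (by linarith) h1 2
  have h4 : (10 ^ 9 * (1 + y) * (1 + x)) ^ 2 = 10 ^ 18 * ((1 + y) * (1 + x)) ^ 2 := by ring
  rw [h4]
  linarith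

private theorem Sz_aux2 (x y : ℝ) (hx : 0 < x) (hy : 0 < y) :
    10 ^ 9 ≤ 10 ^ 9 * (1 + y) * (1 + x) := by
  have h0 : 0 < x * y := mul_pos hx hy
  linarith

theorem freq (ε : ℝ) (hε : 0 < ε) : ∃ A : ℝ, 2 ≤ A ∧ ∃ B : ℕ, ∀ m₁ k₁ m₂ k₂ : ℕ, IsSol m₁ k₁ m₂ k₂ →
    (m₂ : ℝ) ^ ε ≤ k₂ → B ≤ m₂ → ∀ a b : ℤ, (a ≠ 0 ∨ b ≠ 0) → |a| ≤ 32000 → |b| ≤ 32000 →
      ((2000 * k₁ : ℕ) : ℝ) ^ (1.9 : ℝ) ≤ |(a : ℝ) * m₁ + b * m₂| ∧
      |(a : ℝ) * m₁ + b * m₂| ≤ ((2000 * k₁ : ℕ) : ℝ) ^ A := by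
  obtain ⟨B₀, hB₀, hcore⟩ := Sz_core (1 / ε) (by positivity)
  obtain ⟨C, hC, hlen⟩ := length_bound
  -- the size of `m₂`
  set M : ℝ := 10 ^ 9 * (1 + B₀) * (1 + C ^ 3) with hM
  have hM9 : 10 ^ 9 ≤ M := Sz_aux2 (C ^ 3) B₀ (pow_pos hC 3) hB₀
  have hM0 : 0 < M := by linarith
  have hev : ∀ᶠ x : ℝ in atTop, M * (Real.log x) ^ 4 ≤ x ^ (ε / 20) := by
    have h2 := (isLittleO_log_rpow_rpow_atTop (4 : ℝ) (show 0 < ε / 20 by positivity)).def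
      (show 0 < 1 / M by positivity)
    filter_upwards [h2, eventually_gt_atTop 1] with x hx hx1
    have hl : 0 < Real.log x := Real.log_pos hx1
    have hx0 : 0 < x := by linarith
    rw [Real.norm_of_nonneg (by positivity), Real.norm_of_nonneg (by positivity)] at hx
    have h3 : (Real.log x) ^ (4 : ℝ) = (Real.log x) ^ 4 := by
      rw [← Real.rpow_natCast]
      norm_num
    rw [h3] at hx
    calc M * (Real.log x) ^ 4 ≤ M * (1 / M * x ^ (ε / 20)) := by gcongr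
      _ = x ^ (ε / 20) := by field_simp
  obtain ⟨B₁, hB₁⟩ := eventually_atTop.1 hev
  refine ⟨1 / ε + 2, by
    have : 0 < 1 / ε := by positivity
    linarith, ⌈B₁⌉₊, ?_⟩
  intro m₁ k₁ m₂ k₂ h hk hBm a b hab ha hb
  have hsize := size h
  have hlt := h.lt
  have h1 := h.1
  have h2 := h.2.1
  have h3 := h.2.2.1
  have hm5 : (5 : ℝ) ≤ m₂ := by exact_mod_cast (by omega : 5 ≤ m₂)
  have hL1 : 1 ≤ Real.log m₂ := by
    rw [Real.le_log_iff_exp_le (by linarith)]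
    have := Real.exp_one_lt_d9
    linarith
  have hdiff := Sz_diff_bound h hL1
  have hMk0 : M * (Real.log m₂) ^ 4 ≤ (m₂ : ℝ) ^ (ε / 20) :=
    hB₁ m₂ ((Nat.le_ceil B₁).trans (by exact_mod_cast hBm))
  have hlen' := hlen m₁ k₁ m₂ k₂ h
  set L : ℝ := Real.log m₂ with hLdef
  have hm0 : (0 : ℝ) < m₂ := by linarith
  set N : ℝ := (m₁ : ℝ) + k₁ with hN
  set D : ℝ := (m₂ : ℝ) - m₁ with hD
  have hk1 : (5 : ℝ) ≤ k₁ := by exact_mod_cast (by omega : 5 ≤ k₁)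
  have hk2 : (4 : ℝ) ≤ k₂ := by exact_mod_cast (by omega : 4 ≤ k₂)
  have hk20 : (0 : ℝ) < k₂ := by linarith
  have hkK : (k₂ : ℝ) ≤ k₁ := by exact_mod_cast hlt.le
  have hm1 : (0 : ℝ) ≤ m₁ := by positivity
  have hN0 : 0 < N := by linarith
  have hNm : N ≤ m₂ := by rw [hN]; exact_mod_cast h3
  have hDK : (k₁ : ℝ) ≤ D := by linarith
  have hD0 : 0 < D := by linarith
  have hlogN : Real.log N ≤ L := Real.log_le_log hN0 hNm
  have hlogN0 : 0 ≤ Real.log N := Real.log_nonneg (by linarith)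
  have hL4 : 1 ≤ L ^ 4 := one_le_pow₀ hL1
  have hL24 : L ^ 2 ≤ L ^ 4 := pow_le_pow_right₀ hL1 (by norm_num)
  have hL14 : L ≤ L ^ 4 := by
    calc L = L ^ 1 := (pow_one L).symm
      _ ≤ L ^ 4 := pow_le_pow_right₀ hL1 (by norm_num)
  -- `M L ^ 4 ≤ k ^ (1/20)`
  have hMk : M * L ^ 4 ≤ (k₂ : ℝ) ^ (1 / 20 : ℝ) := by
    calc M * L ^ 4 ≤ (m₂ : ℝ) ^ (ε / 20) := hMk0
      _ = ((m₂ : ℝ) ^ ε) ^ (1 / 20 : ℝ) := by
        rw [← Real.rpow_mul hm0.le]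
        congr 1
        ring
      _ ≤ (k₂ : ℝ) ^ (1 / 20 : ℝ) := Real.rpow_le_rpow (by positivity) hk (by norm_num)
  have hk1' : (1 : ℝ) ≤ k₂ := by linarith
  have hMk1 : M * L ^ 4 ≤ k₂ := by
    refine hMk.trans ?_
    calc (k₂ : ℝ) ^ (1 / 20 : ℝ) ≤ (k₂ : ℝ) ^ (1 : ℝ) :=
          Real.rpow_le_rpow_of_exponent_le hk1' (by norm_num)
      _ = k₂ := Real.rpow_one _
  have hbk : 10 ^ 9 * L ^ 4 ≤ k₂ := by
    refine le_trans ?_ hMk1
    gcongr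
  -- step 1
  have st1 : (k₁ : ℝ) ≤ 2 * k₂ := by linarith
  -- step 2
  have st2 : (k₂ : ℝ) * Real.log (1 + D / N) ≤ 4 * L ^ 2 := by
    refine hsize.trans ?_
    calc ((k₁ : ℝ) - k₂) * Real.log N ≤ (4 * L) * L := by
          refine mul_le_mul hdiff hlogN hlogN0 (by linarith)
      _ = 4 * L ^ 2 := by ring
  have hDN : D < N := by
    by_contra hcon
    push Not at hcon
    have a1 : (1 : ℝ) / 2 ≤ Real.log (1 + D / N) := by
      have : (2 : ℝ) ≤ 1 + D / N := by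
        have := (one_le_div hN0).2 hcon
        linarith
      have h5 := Real.log_le_log (by norm_num) this
      have := Real.log_two_gt_d9
      linarith
    have a2 : (k₂ : ℝ) ≤ 8 * L ^ 2 := by
      have := mul_le_mul_of_nonneg_left a1 (by linarith : (0 : ℝ) ≤ k₂)
      linarith
    linarith
  have st4 : (k₂ : ℝ) * D ≤ 8 * N * L ^ 2 := by
    have hx0 : 0 ≤ D / N := by positivity
    have hx1 : D / N ≤ 1 := (div_le_one hN0).2 hDN.le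
    have a1 := Real.le_log_one_add_of_nonneg hx0
    have a2 : D / N / 2 ≤ 2 * (D / N) / (D / N + 2) := by
      rw [div_le_div_iff₀ (by norm_num) (by linarith)]
      have h5 : D / N * (D / N) ≤ D / N * 1 := mul_le_mul_of_nonneg_left hx1 hx0
      linarith
    have a3 : (k₂ : ℝ) * (D / N / 2) ≤ 4 * L ^ 2 :=
      (mul_le_mul_of_nonneg_left (a2.trans a1) (by linarith)).trans st2
    have a4 : (k₂ : ℝ) * D = (k₂ : ℝ) * (D / N / 2) * (2 * N) := by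
      field_simp
    rw [a4]
    calc (k₂ : ℝ) * (D / N / 2) * (2 * N) ≤ 4 * L ^ 2 * (2 * N) :=
          mul_le_mul_of_nonneg_right a3 (by positivity)
      _ = 8 * N * L ^ 2 := by ring
  have st5 : 200000 * D ≤ N := by
    have a1 : 200000 * D * (k₂ : ℝ) ≤ N * k₂ := by
      calc 200000 * D * (k₂ : ℝ) = 200000 * ((k₂ : ℝ) * D) := by ring
        _ ≤ 200000 * (8 * N * L ^ 2) := by gcongr
        _ = N * (1600000 * L ^ 2) := by ring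
        _ ≤ N * k₂ := by
          apply mul_le_mul_of_nonneg_left _ hN0.le
          linarith
    exact le_of_mul_le_mul_right a1 hk20
  have hDm : 64000 * D ≤ m₁ := by linarith
  have hmN : m₂ ≤ 2 * (m₁ : ℝ) := by linarith
  -- step 3
  have st3 : (k₂ : ℝ) ^ 3 ≤ C ^ 3 * m₂ * L ^ 4 := by
    have e1 : (C * (m₂ : ℝ) ^ (1 / 3 : ℝ) * L ^ (4 / 3 : ℝ)) ^ 3 = C ^ 3 * m₂ * L ^ 4 := by
      rw [mul_pow, mul_pow, ← Real.rpow_natCast ((m₂ : ℝ) ^ (1 / 3 : ℝ)) 3, ← Real.rpow_mul hm0.le,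
        ← Real.rpow_natCast (L ^ (4 / 3 : ℝ)) 3, ← Real.rpow_mul (by linarith)]
      have e2 : ((1 : ℝ) / 3 * ((3 : ℕ) : ℝ)) = 1 := by norm_num
      have e3 : ((4 : ℝ) / 3 * ((3 : ℕ) : ℝ)) = ((4 : ℕ) : ℝ) := by norm_num
      rw [e2, e3, Real.rpow_one, Real.rpow_natCast]
    rw [← e1]
    exact pow_le_pow_left₀ hk20.le hlen' 3
  -- step 4
  have hlogk : Real.log N ≤ 1 / ε * Real.log k₁ := by
    have a1 : ε * L ≤ Real.log k₁ := by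
      have := Real.log_le_log (by positivity) (hk.trans hkK)
      rwa [Real.log_rpow hm0] at this
    calc Real.log N ≤ L := hlogN
      _ = 1 / ε * (ε * L) := by field_simp
      _ ≤ 1 / ε * Real.log k₁ := by gcongr
  have st6 : N * k₁ ≤ B₀ * D ^ 2 := hcore m₁ k₁ m₂ k₂ h hlogk
  -- `(2000 K)^1.9 ≤ 1.6 10^7 k^1.9`
  have hkp : (0 : ℝ) < (k₂ : ℝ) ^ (1.9 : ℝ) := Real.rpow_pos_of_pos hk20 _
  have hpow : ((2000 * k₁ : ℕ) : ℝ) ^ (1.9 : ℝ) ≤ 16000000 * (k₂ : ℝ) ^ (1.9 : ℝ) := by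
    have a1 : ((2000 * k₁ : ℕ) : ℝ) ≤ 4000 * k₂ := by
      push_cast
      linarith
    calc ((2000 * k₁ : ℕ) : ℝ) ^ (1.9 : ℝ) ≤ (4000 * (k₂ : ℝ)) ^ (1.9 : ℝ) :=
          Real.rpow_le_rpow (by positivity) a1 (by norm_num)
      _ = (4000 : ℝ) ^ (1.9 : ℝ) * (k₂ : ℝ) ^ (1.9 : ℝ) := Real.mul_rpow (by norm_num) hk20.le
      _ ≤ 16000000 * (k₂ : ℝ) ^ (1.9 : ℝ) := by
          apply mul_le_mul_of_nonneg_right _ hkp.le
          calc (4000 : ℝ) ^ (1.9 : ℝ) ≤ (4000 : ℝ) ^ (2 : ℝ) :=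
                Real.rpow_le_rpow_of_exponent_le (by norm_num) (by norm_num)
            _ = 16000000 := by
                rw [show (2 : ℝ) = ((2 : ℕ) : ℝ) by norm_num, Real.rpow_natCast]
                norm_num
  have hk19 : (k₂ : ℝ) ^ (1.9 : ℝ) * ((k₂ : ℝ) ^ (1 / 20 : ℝ)) ^ 2 = (k₂ : ℝ) ^ 2 := by
    rw [← Real.rpow_natCast ((k₂ : ℝ) ^ (1 / 20 : ℝ)) 2, ← Real.rpow_mul hk20.le,
      ← Real.rpow_add hk20, ← Real.rpow_natCast (k₂ : ℝ) 2]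
    norm_num
  have hML0 : 0 < M * L ^ 4 := by positivity
  have hk19' : (k₂ : ℝ) ^ (1.9 : ℝ) * (M * L ^ 4) ^ 2 ≤ (k₂ : ℝ) ^ 2 := by
    rw [← hk19]
    gcongr
  -- lower bound for `D`
  have hDlow : 16000000 * (k₂ : ℝ) ^ (1.9 : ℝ) ≤ D := by
    have a1 : (m₂ : ℝ) / 2 ≤ N := by linarith
    -- D² ≥ k⁴ / (2 C³ B₀ L⁴)
    have a2 : (k₂ : ℝ) ^ 4 ≤ 2 * C ^ 3 * B₀ * L ^ 4 * D ^ 2 := by
      calc (k₂ : ℝ) ^ 4 = (k₂ : ℝ) ^ 3 * k₂ := by ring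
        _ ≤ (C ^ 3 * m₂ * L ^ 4) * k₁ := by
          apply mul_le_mul st3 hkK hk20.le (by positivity)
        _ = 2 * C ^ 3 * L ^ 4 * ((m₂ / 2) * k₁) := by ring
        _ ≤ 2 * C ^ 3 * L ^ 4 * (N * k₁) := by gcongr
        _ ≤ 2 * C ^ 3 * L ^ 4 * (B₀ * D ^ 2) := by gcongr
        _ = _ := by ring
    have a3 : 2 * C ^ 3 * B₀ * 256000000000000 ≤ M ^ 2 := Sz_aux (C ^ 3) B₀ (pow_pos hC 3) hB₀
    have a4 : (16000000 * (k₂ : ℝ) ^ (1.9 : ℝ)) ^ 2 * (M * L ^ 4) ^ 4 ≤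
        256000000000000 * (k₂ : ℝ) ^ 4 := by
      calc (16000000 * (k₂ : ℝ) ^ (1.9 : ℝ)) ^ 2 * (M * L ^ 4) ^ 4
          = 256000000000000 * ((k₂ : ℝ) ^ (1.9 : ℝ) * (M * L ^ 4) ^ 2) ^ 2 := by ring
        _ ≤ 256000000000000 * ((k₂ : ℝ) ^ 2) ^ 2 := by gcongr
        _ = _ := by ring
    have a5 : (16000000 * (k₂ : ℝ) ^ (1.9 : ℝ)) ^ 2 * (M * L ^ 4) ^ 4 ≤
        D ^ 2 * (M * L ^ 4) ^ 4 := by
      refine a4.trans ?_
      calc 256000000000000 * (k₂ : ℝ) ^ 4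
          ≤ 256000000000000 * (2 * C ^ 3 * B₀ * L ^ 4 * D ^ 2) := by gcongr
        _ = (2 * C ^ 3 * B₀ * 256000000000000) * (L ^ 4 * D ^ 2) := by ring
        _ ≤ M ^ 2 * (L ^ 4 * D ^ 2) := by gcongr
        _ = D ^ 2 * (M ^ 2 * L ^ 4) := by ring
        _ ≤ D ^ 2 * (M * L ^ 4) ^ 4 := by
          apply mul_le_mul_of_nonneg_left _ (by positivity)
          have c1 : (1 : ℝ) ≤ M := by linarith
          have c2 : M ^ 2 ≤ M ^ 4 := pow_le_pow_right₀ c1 (by norm_num)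
          have c3 : L ^ 4 ≤ (L ^ 4) ^ 4 := by
            calc L ^ 4 = (L ^ 4) ^ 1 := (pow_one _).symm
              _ ≤ (L ^ 4) ^ 4 := pow_le_pow_right₀ hL4 (by norm_num)
          calc M ^ 2 * L ^ 4 ≤ M ^ 4 * (L ^ 4) ^ 4 :=
                mul_le_mul c2 c3 (by positivity) (by positivity)
            _ = (M * L ^ 4) ^ 4 := by ring
    have a6 := le_of_mul_le_mul_right a5 (by positivity)
    exact le_of_sq_le_sq a6 hD0.le
  -- lower bound for `m₁`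
  have hmlow : 16000000 * (k₂ : ℝ) ^ (1.9 : ℝ) ≤ (m₁ : ℝ) / 2 := by
    linarith
  have hlow2 : ((2000 * k₁ : ℕ) : ℝ) ^ (1.9 : ℝ) ≤ D := hpow.trans hDlow
  have hlow1 : ((2000 * k₁ : ℕ) : ℝ) ^ (1.9 : ℝ) ≤ (m₁ : ℝ) / 2 := hpow.trans hmlow
  have ha' : |(a : ℝ)| ≤ 32000 := by exact_mod_cast ha
  have hb' : |(b : ℝ)| ≤ 32000 := by exact_mod_cast hb
  constructor
  · by_cases hs : a + b = 0
    · have hb0 : b ≠ 0 := by
        intro h0
        rcases hab with h' | h'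
        · exact h' (by omega)
        · exact h' h0
      have hb1 : (1 : ℝ) ≤ |(b : ℝ)| := by exact_mod_cast Int.one_le_abs hb0
      have e1 : (a : ℝ) * m₁ + b * m₂ = b * D := by
        have : (a : ℝ) = -b := by
          have : a = -b := by omega
          rw [this]
          push_cast
          ring
        rw [this, hD]
        ring
      rw [e1, abs_mul, abs_of_pos hD0]
      calc _ ≤ D := hlow2
        _ ≤ |(b : ℝ)| * D := le_mul_of_one_le_left hD0.le hb1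
    · have hs1 : (1 : ℝ) ≤ |((a + b : ℤ) : ℝ)| := by exact_mod_cast Int.one_le_abs hs
      have e1 : (a : ℝ) * m₁ + b * m₂ = ((a + b : ℤ) : ℝ) * m₁ + b * D := by
        rw [hD]
        push_cast
        ring
      rw [e1]
      have e2 : |((a + b : ℤ) : ℝ) * m₁| - |(b : ℝ) * D| ≤
          |((a + b : ℤ) : ℝ) * m₁ + b * D| := by
        have := abs_sub_abs_le_abs_sub (((a + b : ℤ) : ℝ) * m₁) (-((b : ℝ) * D))
        rwa [abs_neg, sub_neg_eq_add] at this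
      refine le_trans ?_ e2
      rw [abs_mul, abs_mul, abs_of_pos hD0, abs_of_nonneg hm1]
      have e3 : (m₁ : ℝ) ≤ |((a + b : ℤ) : ℝ)| * m₁ := le_mul_of_one_le_left hm1 hs1
      have e4 : |(b : ℝ)| * D ≤ 32000 * D := mul_le_mul_of_nonneg_right hb' hD0.le
      linarith
  · have e1 : |(a : ℝ) * m₁ + b * m₂| ≤ 64000 * m₂ := by
      have hm12 : (m₁ : ℝ) ≤ m₂ := by linarith
      calc |(a : ℝ) * m₁ + b * m₂| ≤ |(a : ℝ) * m₁| + |(b : ℝ) * m₂| := abs_add_le _ _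
        _ = |(a : ℝ)| * m₁ + |(b : ℝ)| * m₂ := by
          rw [abs_mul, abs_mul, abs_of_nonneg hm1, abs_of_pos hm0]
        _ ≤ 32000 * m₂ + 32000 * m₂ := by gcongr
        _ = _ := by ring
    have hK2 : (k₂ : ℝ) ≤ ((2000 * k₁ : ℕ) : ℝ) := by
      push_cast
      linarith
    have hK0 : (0 : ℝ) < ((2000 * k₁ : ℕ) : ℝ) := by linarith
    have e2 : (m₂ : ℝ) ≤ ((2000 * k₁ : ℕ) : ℝ) ^ (1 / ε) := by
      calc (m₂ : ℝ) = ((m₂ : ℝ) ^ ε) ^ (1 / ε) := by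
            rw [← Real.rpow_mul hm0.le, mul_one_div_cancel hε.ne', Real.rpow_one]
        _ ≤ ((2000 * k₁ : ℕ) : ℝ) ^ (1 / ε) :=
            Real.rpow_le_rpow (by positivity) (hk.trans hK2) (by positivity)
    have e3 : (64000 : ℝ) ≤ ((2000 * k₁ : ℕ) : ℝ) ^ (2 : ℝ) := by
      rw [show (2 : ℝ) = ((2 : ℕ) : ℝ) by norm_num, Real.rpow_natCast]
      have e4 : (1000 : ℝ) ≤ ((2000 * k₁ : ℕ) : ℝ) := by
        push_cast
        linarith
      calc (64000 : ℝ) ≤ 1000 ^ 2 := by norm_num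
        _ ≤ ((2000 * k₁ : ℕ) : ℝ) ^ 2 := pow_le_pow_left₀ (by norm_num) e4 2
    rw [Real.rpow_add hK0]
    calc |(a : ℝ) * m₁ + b * m₂| ≤ 64000 * m₂ := e1
      _ = m₂ * 64000 := by ring
      _ ≤ ((2000 * k₁ : ℕ) : ℝ) ^ (1 / ε) * ((2000 * k₁ : ℕ) : ℝ) ^ (2 : ℝ) := by
          apply mul_le_mul e2 e3 (by norm_num) (by positivity)

end Pool.Agent.Lib.MP_50b5e1_nt
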