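import Mathlib
import Pool.Agent.Lib.MP_50b5e1_nt.X.Pr
import Pool.Agent.Lib.MP_50b5e1_nt.X.TrigLow
import Pool.Agent.Lib.MP_50b5e1_nt.X.TrigUp
import Pool.Agent.Lib.MP_50b5e1_nt.X.Arith
import Pool.Agent.Lib.MP_50b5e1_nt.X.Sz

/-!
# X/Main: finiteness of the solutions with `k₂ ≥ m₂^ε`
-/

open Finset Real
open Pool.Agent.Lib.MP_2a816b_nt (e norm_e conj_e e_add e_neg PrI)

namespace Pool.Agent.Lib.MP_50b5e1_nt

theorem bounded_sol (ε : ℝ) (hε : 0 < ε) : ∃ B : ℕ, ∀ m₁ k₁ m₂ k₂ : ℕ, IsSol m₁ k₁ m₂ k₂ →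
    (m₂ : ℝ) ^ ε ≤ k₂ → m₂ < B := by
  obtain ⟨A, hA, B₁, hfreq⟩ := freq ε hε
  obtain ⟨K₀, hps⟩ := prime_sum A (1 / 10 ^ 14) hA (by norm_num)
  -- `m₂` large implies `2000 k₁ ≥ max K₀ 10^8`
  have htend : Filter.Tendsto (fun n : ℕ => ((n : ℝ)) ^ ε) Filter.atTop Filter.atTop :=
    (tendsto_rpow_atTop hε).comp tendsto_natCast_atTop_atTop
  obtain ⟨B₂, hB₂⟩ := Filter.eventually_atTop.1 (htend.eventually_ge_atTop ((K₀ : ℝ) + 10 ^ 8))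
  refine ⟨max B₁ B₂, ?_⟩
  intro m₁ k₁ m₂ k₂ hsol hk
  by_contra hcon
  push Not at hcon
  have hmB1 : B₁ ≤ m₂ := (le_max_left _ _).trans hcon
  have hmB2 : B₂ ≤ m₂ := (le_max_right _ _).trans hcon
  have hf := hfreq m₁ k₁ m₂ k₂ hsol hk hmB1
  have hlt := hsol.lt
  have hk2 : (K₀ : ℝ) + 10 ^ 8 ≤ k₂ := (hB₂ m₂ hmB2).trans hk
  have hk2' : K₀ + 10 ^ 8 ≤ k₂ := by exact_mod_cast hk2
  set K : ℕ := 2000 * k₁ with hK
  have hKK₀ : K₀ ≤ K := by omega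
  have hK8 : 10 ^ 8 ≤ K := by omega
  have h4K : 4 * K = 8000 * k₁ := by omega
  have hK0 : (0 : ℝ) < K := by
    have : 0 < K := by omega
    exact_mod_cast this
  have hmass := prime_mass K hK8
  -- the phases
  let s : ℕ → ℝ := fun p => -((m₁ : ℝ) / p)
  let t : ℕ → ℝ := fun p => -((m₂ : ℝ) / p)
  let w : ℕ → ℝ := fun p => Real.log p
  set P := PrI K (4 * K) with hP
  have hPp : ∀ p ∈ P, K < p ∧ p ≤ 4 * K ∧ p.Prime := by
    intro p hp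
    rw [hP, PrI, mem_filter, mem_Ioc] at hp
    exact ⟨hp.1.1, hp.1.2, hp.2⟩
  have hw : ∀ p ∈ P, 0 ≤ w p := fun p hp =>
    Real.log_nonneg (by exact_mod_cast (hPp p hp).2.2.one_lt.le)
  have hE : ∀ a b : ℤ, (a ≠ 0 ∨ b ≠ 0) → |a| ≤ 32000 → |b| ≤ 32000 →
      ‖∑ p ∈ P, (w p : ℂ) * e (a * s p + b * t p)‖ ≤ 1 / 10 ^ 14 * K := by
    intro a b hab ha hb
    obtain ⟨f1, f2⟩ := hf (-a) (-b) (by
      rcases hab with h | h
      · exact Or.inl (neg_ne_zero.2 h)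
      · exact Or.inr (neg_ne_zero.2 h)) (by rwa [abs_neg]) (by rwa [abs_neg])
    have := hps K (((-a : ℤ) : ℝ) * m₁ + ((-b : ℤ) : ℝ) * m₂) hKK₀ f1 f2
    refine le_trans (le_of_eq ?_) this
    congr 1
    refine Finset.sum_congr rfl fun p hp => ?_
    congr 2
    simp only [s, t]
    push_cast
    ring
  classical
  set Q := P.filter (fun p => ∃ n : ℤ, (n : ℝ) < s p ∧ s p < n + 1 / 8000) with hQ
  have hlow := trig_low P w s hw (1 / 10 ^ 14 * K) (by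
    intro a ha ha'
    have := hE a 0 (Or.inl ha) ha' (by norm_num)
    simpa using this) Q (filter_subset _ _) (by
    intro p hp h
    rw [hQ, mem_filter]
    exact ⟨hp, h⟩)
  have hup := trig_up P w s t hw (1 / 10 ^ 14 * K) (by positivity) (by
    intro a b hab ha hb
    exact hE a b hab (ha.trans (by norm_num)) (hb.trans (by norm_num))) Q (filter_subset _ _)
    (by
      intro p hp
      rw [hQ, mem_filter] at hp
      obtain ⟨_, n, h1, h2⟩ := hp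
      refine ⟨n, ?_⟩
      rw [abs_le]
      constructor <;> linarith)
    (by
      intro p hp
      rw [hQ, mem_filter] at hp
      obtain ⟨hpP, harc⟩ := hp
      obtain ⟨q1, q2, q3⟩ := hPp p hpP
      exact arc_imp hsol p q3 q1 (by omega) harc)
  have hW : (K : ℝ) ≤ ∑ p ∈ P, w p := hmass
  set W := ∑ p ∈ P, w p with hWdef
  have hKW : (1 : ℝ) / 10 ^ 14 * K ≤ 1 / 10 ^ 14 * W := by gcongr
  have hW0 : 0 < W := by linarith
  nlinarith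

theorem finite_eps (ε : ℝ) (hε : 0 < ε) :
    {q : ℕ × ℕ × ℕ × ℕ | IsSol q.1 q.2.1 q.2.2.1 q.2.2.2 ∧
      (q.2.2.1 : ℝ) ^ ε ≤ (q.2.2.2 : ℝ)}.Finite := by
  obtain ⟨B, hB⟩ := bounded_sol ε hε
  have hsub : {q : ℕ × ℕ × ℕ × ℕ | IsSol q.1 q.2.1 q.2.2.1 q.2.2.2 ∧
      (q.2.2.1 : ℝ) ^ ε ≤ (q.2.2.2 : ℝ)} ⊆
      (Set.Iic B) ×ˢ (Set.Iic B) ×ˢ (Set.Iic B) ×ˢ (Set.Iic B) := by
    rintro ⟨m₁, k₁, m₂, k₂⟩ ⟨hs, hq⟩
    simp only at hs hq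
    have hlt := hs.lt
    have hm := hB m₁ k₁ m₂ k₂ hs hq
    obtain ⟨s1, s2, s3, s4⟩ := id hs
    refine ⟨?_, ?_, ?_, ?_⟩ <;> simp only [Set.mem_Iic] <;> omega
  refine Set.Finite.subset ?_ hsub
  exact (Set.finite_Iic _).prod ((Set.finite_Iic _).prod ((Set.finite_Iic _).prod (Set.finite_Iic _)))

end Pool.Agent.Lib.MP_50b5e1_nt
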